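import Mathlib

set_option autoImplicit false

/-! General lemmas on unit-regular elements and corners of von Neumann regular rings. -/

namespace Pool.Agent.MP_9ea0f9_al.H6

variable {R : Type*} [Ring R]

theorem ex {a b c : R} (h : a * b = c) (x : R) : a * (b * x) = c * x := by
  rw [← mul_assoc, h]

theorem ex3 {a b c d : R} (h : a * (b * c) = d) (x : R) : a * (b * (c * x)) = d * x := by
  rw [← h]; simp only [mul_assoc]

theorem ex4 {a b c d k : R} (h : a * (b * (c * d)) = k) (x : R) :
    a * (b * (c * (d * x))) = k * x := by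
  rw [← h]; simp only [mul_assoc]

/-- unit-regular element -/
def UR (x : R) : Prop := ∃ u v : R, u * v = 1 ∧ v * u = 1 ∧ x * u * x = x

/-- von Neumann regular ring -/
def Reg (R : Type*) [Ring R] : Prop := ∀ x : R, ∃ y : R, x * y * x = x

/-- an idempotent whose corner ring is unit-regular -/
def CUR (g : R) : Prop :=
  g * g = g ∧ ∀ z : R, g * z = z → z * g = z →
    ∃ u v : R, g * u = u ∧ u * g = u ∧ g * v = v ∧ v * g = v ∧ u * v = g ∧ v * u = g ∧
      z * u * z = z

theorem UR.of_mul_left {x u v : R} (h1 : u * v = 1) (h2 : v * u = 1) (h : UR (u * x)) :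
    UR x := by
  obtain ⟨w, w', a1, a2, a3⟩ := h
  refine ⟨w * u, v * w', ?_, ?_, ?_⟩
  · simp only [mul_assoc, ex h1, one_mul, a1]
  · simp only [mul_assoc, ex a2, one_mul, h2]
  · have := congrArg (fun z => v * z) a3
    simpa only [mul_assoc, ex h2, one_mul] using this

theorem UR.of_mul_right {x u v : R} (h1 : u * v = 1) (h2 : v * u = 1) (h : UR (x * u)) :
    UR x := by
  obtain ⟨w, w', a1, a2, a3⟩ := h
  refine ⟨u * w, w' * v, ?_, ?_, ?_⟩
  · simp only [mul_assoc, ex a1, one_mul, h1]
  · simp only [mul_assoc, ex h2, one_mul, a2]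
  · have := congrArg (fun z => z * v) a3
    simpa only [mul_assoc, h1, mul_one] using this

theorem UR.of_sq_left {x n : R} (hn : n * n = 0) (h : UR ((1 + n) * x)) : UR x :=
  UR.of_mul_left (v := 1 - n)
    (by simp only [mul_sub, add_mul, mul_one, one_mul, hn]; abel)
    (by simp only [mul_add, sub_mul, mul_one, one_mul, hn]; abel) h

theorem UR.of_sq_right {x n : R} (hn : n * n = 0) (h : UR (x * (1 + n))) : UR x :=
  UR.of_mul_right (v := 1 - n)
    (by simp only [mul_sub, add_mul, mul_one, one_mul, hn]; abel)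
    (by simp only [mul_add, sub_mul, mul_one, one_mul, hn]; abel) h

theorem CUR.ur_add {g z r : R} (hg : CUR g) (h1 : g * z = z) (h2 : z * g = z)
    (hr : r * r = r) (hrg : r * g = 0) (hgr : g * r = 0) : UR (z + r) := by
  obtain ⟨hgg, hg⟩ := hg
  obtain ⟨u, v, a1, a2, a3, a4, a5, a6, a7⟩ := hg z h1 h2
  have ru : r * u = 0 := by rw [← a1, ex hrg, zero_mul]
  have ur : u * r = 0 := by rw [← a2, mul_assoc, hgr, mul_zero]
  have rz : r * z = 0 := by rw [← h1, ex hrg, zero_mul]
  have zr : z * r = 0 := by rw [← h2, mul_assoc, hgr, mul_zero]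
  rw [mul_assoc] at a7
  refine ⟨u + (1 - g), v + (1 - g), ?_, ?_, ?_⟩
  · simp only [mul_add, add_mul, mul_sub, sub_mul, mul_one, one_mul, a2, a3, a5, hgg]; abel
  · simp only [mul_add, add_mul, mul_sub, sub_mul, mul_one, one_mul, a1, a4, a6, hgg]; abel
  · simp only [mul_add, add_mul, mul_sub, sub_mul, mul_one, one_mul, mul_assoc, a7, h1, h2, ex h2,
      ru, ur, rz, zr, ex ru, hr, hrg, hgr, ex hrg, mul_zero, zero_mul]
    abel

theorem lamMurray {e a : R} (he : e * e = e) (h1 : e * a = a) (h2 : a * e = a)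
    (h : UR (a + (1 - e))) :
    ∃ u v : R, e * u = u ∧ u * e = u ∧ e * v = v ∧ v * e = v ∧ u * v = e ∧ v * u = e ∧
      a * u * a = a := by
  obtain ⟨u, v, a1, a2, a3⟩ := h
  obtain ⟨f, hf⟩ : ∃ f, f = 1 - e := ⟨_, rfl⟩
  have he' : e = 1 - f := by rw [hf]; abel
  rw [← hf] at a3
  have ff : f * f = f := by rw [hf]; simp only [mul_sub, sub_mul, mul_one, one_mul, he]; abel
  have fa : f * a = 0 := by rw [hf]; simp only [sub_mul, one_mul, h1, sub_self]
  have af : a * f = 0 := by rw [hf]; simp only [mul_sub, mul_one, h2, sub_self]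
  have b1 : f * (u * (a + f)) = f := by
    have := congrArg (fun z => f * z) a3
    simpa only [mul_add, add_mul, mul_assoc, ex fa, ex ff, zero_mul, zero_add, fa, ff] using this
  have b2 : (a + f) * (u * f) = f := by
    have := congrArg (fun z => z * f) a3
    simpa only [mul_add, add_mul, mul_assoc, af, mul_zero, zero_add, ff] using this
  have fuf : f * (u * f) = f := by
    have := congrArg (fun z => z * f) b1
    simpa only [mul_add, add_mul, mul_assoc, af, mul_zero, zero_add, ff] using this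
  have fua : f * (u * a) = 0 := by
    have := b1
    simp only [mul_add, fuf] at this
    simpa using this
  have auf : a * (u * f) = 0 := by
    have := b2
    simp only [add_mul, fuf] at this
    simpa using this
  have aua : a * (u * a) = a := by
    have := a3
    simp only [mul_add, add_mul, mul_assoc, fuf, fua, auf] at this
    simpa using this
  refine ⟨e * (u - u * f * u) * e, e * v * e, ?_, ?_, ?_, ?_, ?_, ?_, ?_⟩
  · simp only [mul_assoc, ex he]
  · simp only [mul_assoc, he]
  · simp only [mul_assoc, ex he]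
  · simp only [mul_assoc, he]
  · rw [he']
    simp only [mul_sub, sub_mul, mul_one, one_mul, mul_assoc, ff, ex ff, fuf, ex3 fuf, a1, ex a1]
    abel
  · rw [he']
    simp only [mul_sub, sub_mul, mul_one, one_mul, mul_assoc, ff, ex ff, fuf, ex3 fuf, a2, ex a2]
    abel
  · simp only [mul_sub, sub_mul, mul_assoc, h1, ex h2, aua, ex3 auf, zero_mul, sub_zero]

theorem CUR.sub {g h : R} (hg : CUR g) (hh : h * h = h) (h1 : g * h = h) (h2 : h * g = h) :
    CUR h := by
  refine ⟨hh, fun z z1 z2 => lamMurray hh z1 z2 ?_⟩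
  have gg := hg.1
  have gz : g * z = z := by rw [← z1, ex h1]
  have zg : z * g = z := by rw [← z2, mul_assoc, h2]
  have := hg.ur_add (z := z + (g - h)) (r := 1 - g)
    (by simp only [mul_add, mul_sub, gz, gg, h1])
    (by simp only [add_mul, sub_mul, zg, gg, h2])
    (by simp only [mul_sub, sub_mul, mul_one, one_mul, gg]; abel)
    (by simp only [sub_mul, one_mul, gg, sub_self])
    (by simp only [mul_sub, mul_one, gg, sub_self])
  convert this using 1
  abel

theorem CUR.of_le {g h a b : R} (hh : CUR h) (gg : g * g = g) (hab : a * h * b = g) :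
    CUR g := by
  have hh2 := hh.1
  obtain ⟨a0, ha0⟩ : ∃ a0, a0 = g * a * h := ⟨_, rfl⟩
  obtain ⟨b0, hb0⟩ : ∃ b0, b0 = h * b * g := ⟨_, rfl⟩
  rw [mul_assoc] at hab
  have ab : a0 * b0 = g := by
    rw [ha0, hb0]; simp only [mul_assoc, ex hh2, ex3 hab, gg]
  have ga : g * a0 = a0 := by rw [ha0]; simp only [mul_assoc, ex gg]
  have ah : a0 * h = a0 := by rw [ha0]; simp only [mul_assoc, hh2]
  have bg : b0 * g = b0 := by rw [hb0]; simp only [mul_assoc, gg]
  have hb : h * b0 = b0 := by rw [hb0]; simp only [mul_assoc, ex hh2]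
  have hk : CUR (b0 * a0) := hh.sub (by simp only [mul_assoc, ex ab, ga])
    (by simp only [ex hb]) (by simp only [mul_assoc, ah])
  refine ⟨gg, fun z z1 z2 => ?_⟩
  obtain ⟨u, v, a1, a2, a3, a4, a5, a6, a7⟩ := hk.2 (b0 * z * a0)
    (by simp only [mul_assoc, ex ab, ex z1]) (by simp only [mul_assoc, ex ab, ga])
  simp only [mul_assoc] at a1 a2 a3 a4 a7
  refine ⟨a0 * u * b0, a0 * v * b0, ?_, ?_, ?_, ?_, ?_, ?_, ?_⟩
  · simp only [mul_assoc, ex ga]
  · simp only [mul_assoc, bg]
  · simp only [mul_assoc, ex ga]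
  · simp only [mul_assoc, bg]
  · simp only [mul_assoc, ex3 a3, ex a5, ex ab, ab, gg]
  · simp only [mul_assoc, ex3 a1, ex a6, ex ab, ab, gg]
  · have := congrArg (fun x => a0 * x * b0) a7
    simpa only [mul_assoc, ex ab, ab, ex z1, z2] using this

theorem UR.pivot {y g : R} (gg : g * g = g) (h : g * (y * g) = g)
    (hu : UR (g + (1 - g) * (y - y * g * y) * (1 - g))) : UR y := by
  refine UR.of_sq_left (n := -((1 - g) * y * g)) ?_ (UR.of_sq_right (n := -(g * y * (1 - g))) ?_ ?_)
  · simp only [neg_mul, mul_neg, neg_neg, mul_sub, sub_mul, mul_one, one_mul, mul_assoc, gg, ex gg,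
      h, ex3 h]
    abel
  · simp only [neg_mul, mul_neg, neg_neg, mul_sub, sub_mul, mul_one, one_mul, mul_assoc, gg, ex gg,
      h, ex3 h]
    abel
  · convert hu using 1
    simp only [neg_mul, mul_neg, neg_neg, mul_add, add_mul, mul_sub, sub_mul, mul_one, one_mul,
      mul_assoc, gg, ex gg, h, ex3 h]
    abel

end Pool.Agent.MP_9ea0f9_al.H6
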