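import Pool.Agent.MP_9ea0f9_al.H6.A

set_option autoImplicit false

/-! Orthogonal sums of unit-regular corners, the ideal they generate, and extension. -/

namespace Pool.Agent.MP_9ea0f9_al.H6

variable {R : Type*} [Ring R]

theorem CUR.t0 {q y r : R} (hq : CUR q) (rr : r * r = r) (qr : q * r = 0) (rq : r * q = 0)
    (h1 : (1 - q) * y = r) (h2 : y * (1 - q) = r) : UR y := by
  have e1 : q * y = y - r := by rw [← h1]; simp only [sub_mul, one_mul]; abel
  have e2 : y * q = y - r := by rw [← h2]; simp only [mul_sub, mul_one]; abel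
  have := hq.ur_add (z := y - r) (r := r) (by simp only [mul_sub, e1, qr, sub_zero])
    (by simp only [sub_mul, e2, rq, sub_zero]) rr rq qr
  simpa using this

theorem CUR.t1 (hR : Reg R) {q y r : R} (hq : CUR q) (rr : r * r = r) (qr : q * r = 0)
    (rq : r * q = 0) (h1 : (1 - q) * y = r) (yr : y * r = r) : UR y := by
  have qq := hq.1
  obtain ⟨d, hd⟩ : ∃ d, d = 1 - q - r := ⟨_, rfl⟩
  have hq' : q = 1 - (d + r) := by rw [hd]; abel
  have dd : d * d = d := by
    rw [hd]; simp only [mul_sub, sub_mul, mul_one, one_mul, qq, rr, qr, rq]; abel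
  have dr : d * r = 0 := by rw [hd]; simp only [sub_mul, one_mul, rr, qr]; abel
  have rd : r * d = 0 := by rw [hd]; simp only [mul_sub, mul_one, rr, rq]; abel
  have qd : q * d = 0 := by rw [hd]; simp only [mul_sub, mul_one, qq, qr]; abel
  have qy : q * y = y - r := by rw [← h1]; simp only [sub_mul, one_mul]; abel
  have ry : r * y = r := by
    have := congrArg (fun z => r * z) h1
    simpa only [mul_sub, sub_mul, one_mul, ex rq, zero_mul, sub_zero, rr] using this
  have dy : d * y = 0 := by rw [hd]; simp only [sub_mul, one_mul, qy, ry]; abel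
  obtain ⟨w0, hw0⟩ := hR (y * d)
  simp only [mul_assoc] at hw0
  obtain ⟨w, hw⟩ : ∃ w, w = d * w0 * (y * d) * w0 * q := ⟨_, rfl⟩
  have qyd : q * (y * d) = y * d := by rw [ex qy, sub_mul, rd, sub_zero]
  have hw1 : ∀ x, y * (d * (w0 * (y * (d * x)))) = y * (d * x) := fun x => by
    have := congrArg (fun z => z * x) hw0
    simpa only [mul_assoc] using this
  have dw : d * w = w := by rw [hw]; simp only [mul_assoc, ex dd]
  have wd : w * d = 0 := by rw [hw]; simp only [mul_assoc, qd, mul_zero]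
  have wr : w * r = 0 := by rw [hw]; simp only [mul_assoc, qr, mul_zero]
  have rw' : r * w = 0 := by rw [hw]; simp only [mul_assoc, ex rd, zero_mul]
  have ywyd : y * (w * (y * d)) = y * d := by
    rw [hw]; simp only [mul_assoc, qyd, hw1, hw0]
  have wyw : w * (y * w) = w := by
    rw [hw]; simp only [mul_assoc, ex3 qyd, hw1]
  have ww : w * w = 0 := by rw [← dw, mul_assoc, ex wd, zero_mul, mul_zero]
  refine UR.of_sq_left ww (UR.pivot (g := r + w * y * d) ?_ ?_
    (hq.t0 (r := r + w * y * d) ?_ ?_ ?_ ?_ ?_))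
  all_goals
    try rw [hq']
    simp only [mul_add, add_mul, mul_sub, sub_mul, mul_one, one_mul, mul_assoc, mul_zero, zero_mul,
      dd, ex dd, rr, ex rr, dr, ex dr, rd, ex rd, dy, ex dy, ry, ex ry, yr, ex yr, dw, ex dw,
      wd, ex wd, wr, ex wr, rw', ex rw', ywyd, ex4 ywyd, wyw, ex3 wyw, ww, ex ww]
    try abel

theorem CUR.t2 (hR : Reg R) {q y r : R} (hq : CUR q) (rr : r * r = r) (qr : q * r = 0)
    (rq : r * q = 0) (h1 : (1 - q) * y * (1 - q) = r) (ry : r * y = r) (yr : y * r = r) :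
    UR y := by
  have qq := hq.1
  obtain ⟨d, hd⟩ : ∃ d, d = 1 - q - r := ⟨_, rfl⟩
  have hq' : q = 1 - (d + r) := by rw [hd]; abel
  have dd : d * d = d := by
    rw [hd]; simp only [mul_sub, sub_mul, mul_one, one_mul, qq, rr, qr, rq]; abel
  have dr : d * r = 0 := by rw [hd]; simp only [sub_mul, one_mul, rr, qr]; abel
  have rd : r * d = 0 := by rw [hd]; simp only [mul_sub, mul_one, rr, rq]; abel
  have dq : d * q = 0 := by rw [hd]; simp only [sub_mul, one_mul, qq, rq]; abel
  have hdr : d + r = 1 - q := by rw [hd]; abel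
  have h1' : (d + r) * y * (d + r) = r := by rw [hdr, h1]
  have dyd : d * (y * d) = 0 := by
    have := h1'
    simp only [mul_add, add_mul, mul_assoc, yr, ex ry, dr, rd, rr] at this
    simpa using this
  obtain ⟨w0, hw0⟩ := hR (d * y)
  simp only [mul_assoc] at hw0
  obtain ⟨w, hw⟩ : ∃ w, w = q * w0 * (d * y) * w0 * d := ⟨_, rfl⟩
  have dyq : d * (y * q) = d * y := by
    rw [hq']; simp only [mul_sub, mul_add, mul_one, dyd, yr, dr]; abel
  have dyq' : ∀ x, d * (y * (q * x)) = d * (y * x) := fun x => by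
    have := congrArg (fun z => z * x) dyq
    simpa only [mul_assoc] using this
  have hw1 : ∀ x, d * (y * (w0 * (d * (y * x)))) = d * (y * x) := fun x => by
    have := congrArg (fun z => z * x) hw0
    simpa only [mul_assoc] using this
  have wd : w * d = w := by rw [hw]; simp only [mul_assoc, dd]
  have dw : d * w = 0 := by rw [hw]; simp only [mul_assoc, ex dq, zero_mul]
  have rw' : r * w = 0 := by rw [hw]; simp only [mul_assoc, ex rq, zero_mul]
  have wr : w * r = 0 := by rw [hw]; simp only [mul_assoc, dr, mul_zero]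
  have wy : w * y = w * (d * y) := by rw [ex wd]
  have dywy : d * (y * (w * y)) = d * y := by
    rw [wy, hw]; simp only [mul_assoc, ex dd, dyq', hw1, hw0]
  have wyw : w * (y * w) = w := by
    rw [hw]; simp only [mul_assoc, dyq', hw1]
  have ww : w * w = 0 := by rw [← wd, mul_assoc, ex dw, zero_mul, mul_zero]
  have wyd : w * (y * d) = 0 := by rw [← wd, mul_assoc, dyd, mul_zero]
  have dywy' : ∀ x, d * (y * (w * (y * x))) = d * (y * x) := fun x => by
    have := congrArg (fun z => z * x) dywy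
    simpa only [mul_assoc] using this
  refine UR.of_sq_right ww (UR.pivot (g := r + d * y * w) ?_ ?_
    (hq.t1 hR (r := r + d * y * w) ?_ ?_ ?_ ?_ ?_))
  all_goals
    try rw [hq']
    simp only [mul_add, add_mul, mul_sub, sub_mul, mul_one, one_mul, mul_assoc, mul_zero, zero_mul,
      dd, ex dd, rr, ex rr, dr, ex dr, rd, ex rd, dyd, ex3 dyd, ry, ex ry, yr, ex yr, dw, ex dw,
      wd, ex wd, wr, ex wr, rw', ex rw', dywy, dywy', wyw, ex3 wyw, ww, ex ww, wyd, ex3 wyd]
    try abel

theorem CUR.t3 (hR : Reg R) {q y r : R} (hq : CUR q) (rr : r * r = r)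
    (h1 : (1 - q) * y * (1 - q) = r) : UR y := by
  have qq := hq.1
  obtain ⟨f, hf⟩ : ∃ f, f = 1 - q := ⟨_, rfl⟩
  have hq' : q = 1 - f := by rw [hf]; abel
  rw [← hf, mul_assoc] at h1
  have ff : f * f = f := by rw [hf]; simp only [mul_sub, sub_mul, mul_one, one_mul, qq]; abel
  have fr : f * r = r := by rw [← h1, ex ff]
  have rf : r * f = r := by rw [← h1]; simp only [mul_assoc, ff]
  have fyr : f * (y * r) = r := by rw [← fr, ex3 h1, fr, rr]
  have ryf : r * (y * f) = r := by rw [← rf, mul_assoc, h1, rf, rr]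
  have ryr : r * (y * r) = r := by rw [← rf, mul_assoc, rf, fyr, rr]
  refine UR.pivot rr ryr (hq.t2 hR (r := r) rr ?_ ?_ ?_ ?_ ?_)
  all_goals
    try rw [hq']
    simp only [mul_add, add_mul, mul_sub, sub_mul, mul_one, one_mul, mul_assoc, mul_zero, zero_mul,
      ff, ex ff, rr, ex rr, fr, ex fr, rf, ex rf, h1, ex3 h1, fyr, ex3 fyr, ryf, ex3 ryf,
      ryr, ex3 ryr]
    try abel

theorem CUR.add (hR : Reg R) {p q : R} (hp : CUR p) (hq : CUR q) (pq : p * q = 0)
    (qp : q * p = 0) : CUR (p + q) := by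
  have pp := hp.1
  have qq := hq.1
  have hh : (p + q) * (p + q) = p + q := by
    simp only [mul_add, add_mul, pp, qq, pq, qp]; abel
  refine ⟨hh, fun z z1 z2 => lamMurray hh z1 z2 ?_⟩
  obtain ⟨u, v, a1, a2, a3, a4, a5, a6, a7⟩ := hp.2 (p * z * p)
    (by simp only [mul_assoc, ex pp]) (by simp only [mul_assoc, pp])
  simp only [mul_assoc, ex a1, ex a2] at a7
  have qu : q * u = 0 := by rw [← a1, ex qp, zero_mul]
  have uq : u * q = 0 := by rw [← a2, mul_assoc, pq, mul_zero]
  have qz : q * z = z - p * z := by rw [← z1]; simp only [add_mul, mul_add, ex pp, ex pq, ex qp, ex qq, zero_mul]; abel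
  have zq : z * q = z - z * p := by rw [← z2]; simp only [add_mul, mul_add, mul_assoc, pp, pq, qp, qq, mul_zero]; abel
  have a8 : p * (z * (u * (z * u))) = p * (z * u) := by
    have := congrArg (fun x => x * u) a7
    simpa only [mul_assoc, a1] using this
  refine UR.of_mul_right (u := u + (1 - p)) (v := v + (1 - p)) ?_ ?_
    (hq.t3 hR (r := p * z * u + (1 - (p + q))) ?_ ?_)
  · simp only [mul_add, add_mul, mul_sub, sub_mul, mul_one, one_mul, a2, a3, a5, pp]; abel
  · simp only [mul_add, add_mul, mul_sub, sub_mul, mul_one, one_mul, a1, a4, a6, pp]; abel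
  · simp only [mul_add, add_mul, mul_sub, sub_mul, mul_one, one_mul, mul_assoc, mul_zero, zero_mul,
      pp, ex pp, qq, ex qq, pq, ex pq, qp, ex qp, a2, ex a2, uq, a8]
    abel
  · simp only [mul_add, add_mul, mul_sub, sub_mul, mul_one, one_mul, mul_assoc, mul_zero, zero_mul,
      pp, ex pp, qq, ex qq, pq, ex pq, qp, ex qp, a1, ex a1, a2, ex a2, uq, qu, ex qu, qz, ex qz,
      zq, ex zq]
    abel

/-- the ideal of elements lying in `g R` for an idempotent `g` with unit-regular corner -/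
def InJ (x : R) : Prop := ∃ g : R, CUR g ∧ g * x = x

theorem CUR.zero : CUR (0 : R) :=
  ⟨mul_zero _, fun z z1 _ => ⟨0, 0, by simp, by simp, by simp, by simp, by simp, by simp, by
    rw [← z1]; simp⟩⟩

theorem InJ.zero : InJ (0 : R) := ⟨0, CUR.zero, by simp⟩

theorem CUR.inJ {g : R} (h : CUR g) : InJ g := ⟨g, h, h.1⟩

theorem InJ.mul_right {x : R} (h : InJ x) (r : R) : InJ (x * r) := by
  obtain ⟨g, h1, h2⟩ := h
  exact ⟨g, h1, ex h2 r⟩

theorem InJ.cur {x : R} (h : InJ x) (hx : x * x = x) : CUR x := by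
  obtain ⟨g, h1, h2⟩ := h
  exact h1.of_le (a := x) (b := x) hx (by rw [mul_assoc, h2, hx])

theorem InJ.mul_left (hR : Reg R) {x : R} (h : InJ x) (r : R) : InJ (r * x) := by
  obtain ⟨g, h1, h2⟩ := h
  obtain ⟨y, hy⟩ := hR (r * x)
  refine ⟨r * x * y, h1.of_le (a := r) (b := x * y) ?_ ?_, hy⟩
  · rw [← mul_assoc, hy]
  · simp only [mul_assoc, ex h2]

theorem InJ.neg {x : R} (h : InJ x) : InJ (-x) := by
  simpa using h.mul_right (-1)

theorem InJ.add (hR : Reg R) {x y : R} (hx : InJ x) (hy : InJ y) : InJ (x + y) := by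
  obtain ⟨g, g1, g2⟩ := hx
  have gg := g1.1
  obtain ⟨z, hz⟩ := hR ((1 - g) * y)
  obtain ⟨k, hk⟩ : ∃ k, k = (1 - g) * y * z := ⟨_, rfl⟩
  have kJ : InJ k := by rw [hk]; exact (hy.mul_left hR _).mul_right _
  rw [← hk] at hz
  have kk : k * k = k := by
    have := congrArg (fun t => t * z) hz
    simp only [mul_assoc] at this hk
    rw [← hk] at this
    exact this
  have gk : g * k = 0 := by
    rw [hk]; simp only [mul_assoc, sub_mul, mul_sub, one_mul, ex gg, sub_self]
  have c1 : CUR (k * (1 - g)) := (kJ.mul_right _).cur (by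
    simp only [mul_sub, sub_mul, mul_one, mul_assoc, kk, ex kk, gk, ex gk, mul_zero, zero_mul]
    abel)
  refine ⟨g + k * (1 - g), g1.add hR c1 (by rw [ex gk, zero_mul])
    (by simp only [mul_assoc, sub_mul, one_mul, gg, sub_self, mul_zero]), ?_⟩
  have e1 : k * (1 - g) * x = 0 := by simp only [mul_assoc, sub_mul, one_mul, g2, sub_self, mul_zero]
  have e2 : k * (1 - g) * y = y - g * y := by rw [mul_assoc, hz, sub_mul, one_mul]
  rw [add_mul, mul_add, mul_add, e1, e2, g2]; abel

theorem InJ.sub (hR : Reg R) {x y : R} (hx : InJ x) (hy : InJ y) : InJ (x - y) := by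
  rw [sub_eq_add_neg]; exact hx.add hR hy.neg

theorem InJ.local_unit (hR : Reg R) {h i : R} (hh : h * h = h) (hi : InJ i) :
    ∃ g : R, InJ g ∧ g * g = g ∧ h * g = g ∧ g * h = g ∧ g * i = h * i ∧ i * g = i * h := by
  obtain ⟨w1, h1⟩ := hR (h * i)
  obtain ⟨w2, h2⟩ := hR (i * h)
  obtain ⟨a, ha⟩ : ∃ a, a = h * i * w1 * h := ⟨_, rfl⟩
  obtain ⟨b, hb⟩ : ∃ b, b = h * w2 * i * h := ⟨_, rfl⟩
  simp only [mul_assoc] at h1 h2 ha hb
  have aJ : InJ a := by rw [ha]; exact (hi.mul_right _).mul_left hR _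
  have bJ : InJ b := by rw [hb]; exact ((hi.mul_right _).mul_left hR _).mul_left hR _
  have hha : h * a = a := by rw [ha, ex hh]
  have ah : a * h = a := by rw [ha]; simp only [mul_assoc, hh]
  have ai : a * i = h * i := by rw [ha]; simp only [mul_assoc, h1]
  have aa : a * a = a := by
    nth_rewrite 2 [ha]
    rw [ex ah, ex ai, mul_assoc, ← ha]
  have bh : b * h = b := by rw [hb]; simp only [mul_assoc, hh]
  have ib : i * b = i * h := by rw [hb, h2]
  obtain ⟨w, hw⟩ := hR (b * (h - a))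
  obtain ⟨c, hc⟩ : ∃ c, c = h - a := ⟨_, rfl⟩
  rw [← hc] at hw
  simp only [mul_assoc] at hw
  have hc1 : h * c = c := by rw [hc]; simp only [mul_sub, hh, hha]
  have ch : c * h = c := by rw [hc]; simp only [sub_mul, hh, ah]
  have ac : a * c = 0 := by rw [hc]; simp only [mul_sub, ah, aa, sub_self]
  have ca : c * a = 0 := by rw [hc]; simp only [sub_mul, hha, aa, sub_self]
  have ci : c * i = 0 := by rw [hc]; simp only [sub_mul, ai, sub_self]
  have cc : c * c = c := by nth_rewrite 2 [hc]; rw [mul_sub, ch, ca, sub_zero]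
  refine ⟨a + c * (w * (b * c)), aJ.add hR (((bJ.mul_right _).mul_left hR _).mul_left hR _),
    ?_, ?_, ?_, ?_, ?_⟩
  · simp only [mul_add, add_mul, mul_assoc, aa, ex ac, ca, ex cc, hw, mul_zero, zero_mul, add_zero,
      zero_add]
  · simp only [mul_add, hha, ex hc1]
  · simp only [add_mul, mul_assoc, ah, ch]
  · simp only [add_mul, mul_assoc, ai, ci, mul_zero, add_zero]
  · have e1 : b * (a + c * (w * (b * c))) = b := by
      rw [mul_add, hw, ← mul_add, hc, add_sub_cancel, bh]
    have e2 : h * (a + c * (w * (b * c))) = a + c * (w * (b * c)) := by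
      simp only [mul_add, hha, ex hc1]
    rw [← e2, ← mul_assoc, ← ib, mul_assoc, e1]

theorem UR.of_sub (hR : Reg R) {x x' : R} (hx : UR x') (hi : InJ (x - x')) : UR x := by
  obtain ⟨u, v, a1, a2, a3⟩ := hx
  refine UR.of_mul_left a1 a2 ?_
  obtain ⟨h, hh⟩ : ∃ h, h = u * x' := ⟨_, rfl⟩
  obtain ⟨i, hi'⟩ : ∃ i, i = u * (x - x') := ⟨_, rfl⟩
  have iJ : InJ i := by rw [hi']; exact hi.mul_left hR _
  have e : u * x = h + i := by rw [hh, hi', mul_sub]; abel
  have h2 : h * h = h := by rw [hh, mul_assoc, ← mul_assoc x', a3]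
  have h3 : (1 - h) * (1 - h) = 1 - h := by
    simp only [mul_sub, sub_mul, mul_one, one_mul, h2]; abel
  obtain ⟨g, gJ, gg, hg, gh, gi, ig⟩ := iJ.local_unit hR h2
  obtain ⟨k, kJ, kk, hk, kh, ki, ik⟩ := iJ.local_unit hR h3
  have hk0 : h * k = 0 := by
    rw [sub_mul, one_mul] at hk
    exact sub_eq_self.mp hk
  have kh0 : k * h = 0 := by
    rw [mul_sub, mul_one] at kh
    exact sub_eq_self.mp kh
  have gk : g * k = 0 := by rw [← gh, mul_assoc, hk0, mul_zero]
  have kg : k * g = 0 := by rw [← hg, ex kh0, zero_mul]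
  have c : CUR (g + k) := (gJ.add hR kJ).cur (by
    simp only [mul_add, add_mul, gg, kk, gk, kg]; abel)
  have := c.ur_add (z := g + i) (r := h - g)
    (by simp only [mul_add, add_mul, gg, kg, gi, ki, sub_mul, one_mul]; abel)
    (by simp only [mul_add, add_mul, gg, gk, ig, ik, mul_sub, mul_one]; abel)
    (by simp only [mul_sub, sub_mul, h2, hg, gh, gg]; abel)
    (by simp only [mul_add, sub_mul, hg, gg, hk0, gk]; abel)
    (by simp only [add_mul, mul_sub, gh, gg, kh0, kg]; abel)
  rw [e]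
  convert this using 1
  abel

theorem mccoy {x y z : R} (h : (x - x * y * x) * z * (x - x * y * x) = x - x * y * x) :
    x * (y + (1 - y * x) * z * (1 - x * y)) * x = x := by
  have : x * ((1 - y * x) * z * (1 - x * y)) * x = (x - x * y * x) * z * (x - x * y * x) := by
    noncomm_ring
  rw [mul_add, add_mul, this, h]; abel

theorem ur_matrix {F : Type*} [Field F] (m : Matrix (Fin 2) (Fin 2) F) : UR m := by
  classical
  obtain ⟨L, L', D, h⟩ := Matrix.Pivot.exists_list_transvec_mul_mul_list_transvec_eq_diagonal m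
  refine UR.of_mul_left (Matrix.TransvectionStruct.prod_mul_reverse_inv_prod L)
    (Matrix.TransvectionStruct.reverse_inv_prod_mul_prod L)
    (UR.of_mul_right (Matrix.TransvectionStruct.prod_mul_reverse_inv_prod L')
    (Matrix.TransvectionStruct.reverse_inv_prod_mul_prod L') ?_)
  rw [h]
  refine ⟨Matrix.diagonal fun i => if D i = 0 then 1 else (D i)⁻¹,
    Matrix.diagonal fun i => if D i = 0 then 1 else D i, ?_, ?_, ?_⟩
  · rw [Matrix.diagonal_mul_diagonal, ← Matrix.diagonal_one]
    congr 1; funext i; split_ifs with h0 <;> simp [h0]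
  · rw [Matrix.diagonal_mul_diagonal, ← Matrix.diagonal_one]
    congr 1; funext i; split_ifs with h0 <;> simp [h0]
  · rw [Matrix.diagonal_mul_diagonal, Matrix.diagonal_mul_diagonal]
    congr 1; funext i; split_ifs with h0 <;> simp [h0]

end Pool.Agent.MP_9ea0f9_al.H6
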