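import Pool.Agent.MP_9ea0f9_al.H6.B

set_option autoImplicit false

/-! The abstract frame: a ring `B` that looks like `End V ⊗ B`, and the doubling `T ↦ D T`. -/

namespace Pool.Agent.MP_9ea0f9_al.H6

/-- span of the products `c * x * r` -/
def fsp {B : Type*} [Ring B] [Algebra ℚ B] (C Rw : Submodule ℚ B) (X : Set B) : Submodule ℚ B :=
  Submodule.span ℚ {z | ∃ c ∈ C, ∃ x ∈ X, ∃ r ∈ Rw, z = c * x * r}

structure Core (B : Type*) [Ring B] [Algebra ℚ B] where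
  C : Submodule ℚ B
  Rw : Submodule ℚ B
  M : Submodule ℚ B
  A : Subalgebra ℚ B
  σ : B →ₐ[ℚ] B
  Tr : B →ₗ[ℚ] B
  τ0 : B →ₗ[ℚ] ℚ
  e : B
  p1 : B
  p2 : B
  w0 : B
  w1 : B
  rc : ∀ r ∈ Rw, ∀ c ∈ C, ∃ k : ℚ, r * c = k • (1 : B)
  c_nd : ∀ c ∈ C, c ≠ 0 → ∃ r ∈ Rw, r * c = 1
  r_nd : ∀ r ∈ Rw, r ≠ 0 → ∃ c ∈ C, r * c = 1
  ac : ∀ a ∈ A, ∀ c ∈ C, a * c ∈ C
  ra : ∀ a ∈ A, ∀ r ∈ Rw, r * a ∈ Rw
  crA : ∀ c ∈ C, ∀ r ∈ Rw, c * r ∈ A
  σc : ∀ x, ∀ c ∈ C, σ x * c = c * x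
  rσ : ∀ x, ∀ r ∈ Rw, r * σ x = x * r
  aσ : ∀ x, ∀ a ∈ A, a * σ x = σ x * a
  MA : ∀ m ∈ M, m ∈ A
  Mmul : ∀ m ∈ M, ∀ m' ∈ M, m * m' ∈ M
  Mur : ∀ m ∈ M, ∃ u ∈ M, ∃ v ∈ M, u * v = p1 + p2 ∧ v * u = p1 + p2 ∧ m * u * m = m
  w0M : w0 ∈ M
  w1M : w1 ∈ M
  pM : ∀ m ∈ M, (p1 + p2) * m = m
  Mp : ∀ m ∈ M, m * (p1 + p2) = m
  w01 : w0 * w1 = p1
  w10 : w1 * w0 = p2
  p1w0 : p1 * w0 = w0
  p2w1 : p2 * w1 = w1
  p12 : p1 * p2 = 0
  p21 : p2 * p1 = 0
  ee : e * e = e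
  he : e = p1 + (1 - (p1 + p2)) * σ e
  kfin : 1 - (p1 + p2) ∈ fsp C Rw {1}
  Tr_fin : ∀ c ∈ C, ∀ x, ∀ r ∈ Rw, Tr (c * x * r) = r * c * x
  Tr_M : ∀ m ∈ M, Tr m = 0
  Mfin : ∀ m ∈ M, m ∈ fsp C Rw Set.univ → m = 0
  nd : ∀ z : B, (∀ r ∈ Rw, ∀ a ∈ C, r * z * a = 0) → z = 0
  τe : τ0 e = 1
  τ1 : τ0 1 = 1

variable {B : Type*} [Ring B] [Algebra ℚ B]

namespace Core

variable (c : Core B)

/-- finite rank operators with coefficients in `X` -/
def Fn (X : Set B) : Submodule ℚ B := fsp c.C c.Rw X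

theorem mem_Fn {X : Set B} {a x r : B} (ha : a ∈ c.C) (hx : x ∈ X) (hr : r ∈ c.Rw) :
    a * x * r ∈ c.Fn X :=
  Submodule.subset_span ⟨a, ha, x, hx, r, hr, rfl⟩

theorem Fn_ind {X : Set B} {p : B → Prop} {z : B} (hz : z ∈ c.Fn X)
    (h1 : ∀ a ∈ c.C, ∀ x ∈ X, ∀ r ∈ c.Rw, p (a * x * r)) (h0 : p 0)
    (h2 : ∀ x y, p x → p y → p (x + y)) (h3 : ∀ (k : ℚ) x, p x → p (k • x)) : p z := by
  induction hz using Submodule.span_induction with
  | mem x hx => obtain ⟨a, ha, y, hy, r, hr, rfl⟩ := hx; exact h1 a ha y hy r hr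
  | zero => exact h0
  | add x y _ _ hx hy => exact h2 x y hx hy
  | smul k x _ hx => exact h3 k x hx

theorem Fn_mono {X Y : Set B} (h : X ⊆ Y) : c.Fn X ≤ c.Fn Y :=
  Submodule.span_mono fun _ ⟨a, ha, x, hx, r, hr, hz⟩ => ⟨a, ha, x, h hx, r, hr, hz⟩

theorem A_mul_Fn {X : Set B} {a z : B} (ha : a ∈ c.A) (hz : z ∈ c.Fn X) : a * z ∈ c.Fn X := by
  refine c.Fn_ind (p := fun z => a * z ∈ c.Fn X) hz ?_ (by simp) ?_ ?_
  · intro b hb x hx r hr
    have := c.mem_Fn (c.ac a ha b hb) hx hr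
    simpa only [mul_assoc] using this
  · intro x y hx hy; rw [mul_add]; exact add_mem hx hy
  · intro k x hx; rw [mul_smul_comm]; exact Submodule.smul_mem _ _ hx

theorem Fn_mul_A {X : Set B} {a z : B} (ha : a ∈ c.A) (hz : z ∈ c.Fn X) : z * a ∈ c.Fn X := by
  refine c.Fn_ind (p := fun z => z * a ∈ c.Fn X) hz ?_ (by simp) ?_ ?_
  · intro b hb x hx r hr
    have := c.mem_Fn hb hx (c.ra a ha r hr)
    simpa only [mul_assoc] using this
  · intro x y hx hy; rw [add_mul]; exact add_mem hx hy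
  · intro k x hx; rw [smul_mul_assoc]; exact Submodule.smul_mem _ _ hx

theorem σ_mul_Fn {T : Subalgebra ℚ B} {a z : B} (ha : a ∈ T) (hz : z ∈ c.Fn T) :
    c.σ a * z ∈ c.Fn T := by
  refine c.Fn_ind (p := fun z => c.σ a * z ∈ c.Fn T) hz ?_ (by simp) ?_ ?_
  · intro b hb x hx r hr
    have := c.mem_Fn (X := T) hb (T.mul_mem ha hx) hr
    simpa only [mul_assoc, ex (c.σc a b hb)] using this
  · intro x y hx hy; rw [mul_add]; exact add_mem hx hy
  · intro k x hx; rw [mul_smul_comm]; exact Submodule.smul_mem _ _ hx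

theorem Fn_mul_σ {T : Subalgebra ℚ B} {a z : B} (ha : a ∈ T) (hz : z ∈ c.Fn T) :
    z * c.σ a ∈ c.Fn T := by
  refine c.Fn_ind (p := fun z => z * c.σ a ∈ c.Fn T) hz ?_ (by simp) ?_ ?_
  · intro b hb x hx r hr
    have := c.mem_Fn (X := T) hb (T.mul_mem hx ha) hr
    simpa only [mul_assoc, c.rσ a r hr] using this
  · intro x y hx hy; rw [add_mul]; exact add_mem hx hy
  · intro k x hx; rw [smul_mul_assoc]; exact Submodule.smul_mem _ _ hx

theorem one_mul_σ {X : Set B} {a z : B} (ha : a ∈ X) (hz : z ∈ c.Fn {1}) :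
    z * c.σ a ∈ c.Fn X := by
  refine c.Fn_ind (p := fun z => z * c.σ a ∈ c.Fn X) hz ?_ (by simp) ?_ ?_
  · intro b hb x hx r hr
    rw [Set.mem_singleton_iff] at hx
    have := c.mem_Fn hb ha hr
    simpa only [hx, mul_one, mul_assoc, c.rσ a r hr] using this
  · intro x y hx hy; rw [add_mul]; exact add_mem hx hy
  · intro k x hx; rw [smul_mul_assoc]; exact Submodule.smul_mem _ _ hx

theorem one_le {T : Subalgebra ℚ B} {z : B} (hz : z ∈ c.Fn {1}) : z ∈ c.Fn T :=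
  c.Fn_mono (by simp) hz

theorem Fn_one_A {z : B} (hz : z ∈ c.Fn {1}) : z ∈ c.A := by
  refine c.Fn_ind (p := fun z => z ∈ c.A) hz ?_ (zero_mem _) (fun _ _ => add_mem)
    (fun k x hx => c.A.smul_mem hx k)
  intro b hb x hx r hr
  rw [Set.mem_singleton_iff] at hx
  rw [hx, mul_one]; exact c.crA b hb r hr

theorem rc_mem {T : Subalgebra ℚ B} {r a : B} (hr : r ∈ c.Rw) (ha : a ∈ c.C) : r * a ∈ T := by
  obtain ⟨k, hk⟩ := c.rc r hr a ha
  rw [hk]; exact T.smul_mem T.one_mem k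

theorem r_Fn_c {T : Subalgebra ℚ B} {r a z : B} (hr : r ∈ c.Rw) (ha : a ∈ c.C)
    (hz : z ∈ c.Fn T) : r * z * a ∈ T := by
  refine c.Fn_ind (p := fun z => r * z * a ∈ T) hz ?_ (by simp) ?_ ?_
  · intro b hb x hx s hs
    have := T.mul_mem (T.mul_mem (c.rc_mem hr hb) hx) (c.rc_mem hs ha)
    simpa only [mul_assoc] using this
  · intro x y hx hy; rw [mul_add, add_mul]; exact add_mem hx hy
  · intro k x hx; rw [mul_smul_comm, smul_mul_assoc]; exact T.smul_mem hx k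

theorem Fn_mul_Fn {T : Subalgebra ℚ B} {y z : B} (hy : y ∈ c.Fn T) (hz : z ∈ c.Fn T) :
    y * z ∈ c.Fn T := by
  refine c.Fn_ind (p := fun y => y * z ∈ c.Fn T) hy ?_ (by simp) ?_ ?_
  · intro b hb x hx r hr
    refine c.Fn_ind (p := fun z => b * x * r * z ∈ c.Fn T) hz ?_ (by simp) ?_ ?_
    · intro b' hb' x' hx' r' hr'
      have := c.mem_Fn (X := T) hb (T.mul_mem (T.mul_mem hx (c.rc_mem hr hb')) hx') hr'
      simpa only [mul_assoc] using this
    · intro x y hx hy; rw [mul_add]; exact add_mem hx hy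
    · intro k x hx; rw [mul_smul_comm]; exact Submodule.smul_mem _ _ hx
  · intro x y hx hy; rw [add_mul]; exact add_mem hx hy
  · intro k x hx; rw [smul_mul_assoc]; exact Submodule.smul_mem _ _ hx

theorem p1M : c.p1 ∈ c.M := c.w01 ▸ c.Mmul _ c.w0M _ c.w1M
theorem p2M : c.p2 ∈ c.M := c.w10 ▸ c.Mmul _ c.w1M _ c.w0M
theorem p11 : c.p1 * c.p1 = c.p1 := by
  have := c.pM _ c.p1M
  rwa [add_mul, c.p21, add_zero] at this
theorem p22 : c.p2 * c.p2 = c.p2 := by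
  have := c.pM _ c.p2M
  rwa [add_mul, c.p12, zero_add] at this

/-- `M` plus finite rank operators over `T` -/
def BT (T : Subalgebra ℚ B) : Subalgebra ℚ B where
  carrier := {z | ∃ m ∈ c.M, z - m ∈ c.Fn T}
  mul_mem' := by
    rintro x y ⟨m, hm, hx⟩ ⟨n, hn, hy⟩
    refine ⟨m * n, c.Mmul _ hm _ hn, ?_⟩
    have : x * y - m * n = (x - m) * (y - n) + m * (y - n) + (x - m) * n := by noncomm_ring
    rw [this]
    exact add_mem (add_mem (c.Fn_mul_Fn hx hy) (c.A_mul_Fn (c.MA _ hm) hy))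
      (c.Fn_mul_A (c.MA _ hn) hx)
  add_mem' := by
    rintro x y ⟨m, hm, hx⟩ ⟨n, hn, hy⟩
    refine ⟨m + n, add_mem hm hn, ?_⟩
    have : x + y - (m + n) = (x - m) + (y - n) := by abel
    rw [this]; exact add_mem hx hy
  algebraMap_mem' := by
    intro k
    refine ⟨k • (c.p1 + c.p2), Submodule.smul_mem _ _ (add_mem c.p1M c.p2M), ?_⟩
    rw [Algebra.algebraMap_eq_smul_one, ← smul_sub]
    exact Submodule.smul_mem _ _ (c.one_le c.kfin)

theorem mem_BT {T : Subalgebra ℚ B} {z : B} : z ∈ c.BT T ↔ ∃ m ∈ c.M, z - m ∈ c.Fn T := Iff.rfl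

theorem Fn_BT {T : Subalgebra ℚ B} {z : B} (hz : z ∈ c.Fn T) : z ∈ c.BT T :=
  ⟨0, zero_mem _, by simpa using hz⟩

theorem M_BT {T : Subalgebra ℚ B} {z : B} (hz : z ∈ c.M) : z ∈ c.BT T :=
  ⟨z, hz, by simp⟩

theorem BT_mul_Fn {T : Subalgebra ℚ B} {y z : B} (hy : y ∈ c.BT T) (hz : z ∈ c.Fn T) :
    y * z ∈ c.Fn T := by
  obtain ⟨m, hm, h⟩ := hy
  have : y * z = (y - m) * z + m * z := by noncomm_ring
  rw [this]; exact add_mem (c.Fn_mul_Fn h hz) (c.A_mul_Fn (c.MA _ hm) hz)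

theorem Fn_mul_BT {T : Subalgebra ℚ B} {y z : B} (hy : y ∈ c.BT T) (hz : z ∈ c.Fn T) :
    z * y ∈ c.Fn T := by
  obtain ⟨m, hm, h⟩ := hy
  have : z * y = z * (y - m) + z * m := by noncomm_ring
  rw [this]; exact add_mem (c.Fn_mul_Fn hz h) (c.Fn_mul_A (c.MA _ hm) hz)

theorem r_BT_c {T : Subalgebra ℚ B} {r a z : B} (hr : r ∈ c.Rw) (ha : a ∈ c.C)
    (hz : z ∈ c.BT T) : r * z * a ∈ T := by
  obtain ⟨m, hm, h⟩ := hz
  have : r * z * a = r * (z - m) * a + r * m * a := by noncomm_ring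
  rw [this]
  exact add_mem (c.r_Fn_c hr ha h) (c.rc_mem (c.ra _ (c.MA _ hm) _ hr) ha)

theorem BT_mono {T T' : Subalgebra ℚ B} (h : T ≤ T') : c.BT T ≤ c.BT T' :=
  fun _ ⟨m, hm, hz⟩ => ⟨m, hm, c.Fn_mono h hz⟩

/-- inner inverses inside `T` -/
def RegS (T : Subalgebra ℚ B) : Prop := ∀ x ∈ T, ∃ y ∈ T, x * y * x = x

theorem col_reg {T : Subalgebra ℚ B} (hT : RegS T) (n : ℕ) :
    ∀ (a x : Fin n → B), (∀ i, a i ∈ c.C) → (∀ i, x i ∈ T) →
      ∃ w ∈ Submodule.span ℚ {z | ∃ y ∈ T, ∃ r ∈ c.Rw, z = y * r},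
        (∑ i, a i * x i) * w * (∑ i, a i * x i) = ∑ i, a i * x i := by
  induction n with
  | zero => intro a x _ _; exact ⟨0, zero_mem _, by simp⟩
  | succ n ih =>
    intro a x ha hx
    set Row := Submodule.span ℚ {z | ∃ y ∈ T, ∃ r ∈ c.Rw, z = y * r} with hRow
    have hl : ∀ t ∈ T, ∀ w ∈ Row, t * w ∈ Row := by
      intro t ht w hw
      induction hw using Submodule.span_induction with
      | mem w hw =>
        obtain ⟨y, hy, r, hr, rfl⟩ := hw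
        exact Submodule.subset_span ⟨t * y, T.mul_mem ht hy, r, hr, by rw [mul_assoc]⟩
      | zero => simp
      | add x y _ _ hx hy => rw [mul_add]; exact add_mem hx hy
      | smul k x _ hx => rw [mul_smul_comm]; exact Submodule.smul_mem _ _ hx
    have hrz : ∀ w ∈ Row, w * (∑ i, a i * x i) ∈ T := by
      intro w hw
      induction hw using Submodule.span_induction with
      | mem w hw =>
        obtain ⟨y, hy, r, hr, rfl⟩ := hw
        rw [Finset.mul_sum]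
        refine T.sum_mem fun i _ => ?_
        have := T.mul_mem (T.mul_mem hy (c.rc_mem hr (ha i))) (hx i)
        simpa only [mul_assoc] using this
      | zero => simp
      | add x y _ _ hx hy => rw [add_mul]; exact add_mem hx hy
      | smul k x _ hx => rw [smul_mul_assoc]; exact T.smul_mem hx k
    by_cases h0 : a 0 = 0
    · obtain ⟨w, hw, h⟩ := ih (fun i => a i.succ) (fun i => x i.succ) (fun i => ha _)
        (fun i => hx _)
      refine ⟨w, hw, ?_⟩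
      simpa only [Fin.sum_univ_succ, h0, zero_mul, zero_add] using h
    · obtain ⟨r, hr, hr0⟩ := c.c_nd _ (ha 0) h0
      choose k hk using fun i => c.rc r hr _ (ha i)
      obtain ⟨z, hz⟩ : ∃ z, z = ∑ i, a i * x i := ⟨_, rfl⟩
      rw [← hz] at hrz ⊢
      have rRow : r ∈ Row := Submodule.subset_span ⟨1, T.one_mem, r, hr, by simp⟩
      obtain ⟨y, hy, hyy⟩ := hT _ (hrz r rRow)
      obtain ⟨w, hw, h⟩ := ih (fun i => a i.succ - k i.succ • a 0)
        (fun i => x i.succ * (1 - y * (r * z)))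
        (fun i => sub_mem (ha _) (Submodule.smul_mem _ _ (ha 0)))
        (fun i => T.mul_mem (hx _) (T.sub_mem T.one_mem (T.mul_mem hy (hrz r rRow))))
      have e1 : ∑ i : Fin n, (a i.succ - k i.succ • a 0) * x i.succ = z - a 0 * (r * z) := by
        rw [hz, Fin.sum_univ_succ, mul_add, ex hr0, one_mul, Finset.mul_sum, mul_add,
          Finset.mul_sum, add_sub_add_left_eq_sub, ← Finset.sum_sub_distrib]
        refine Finset.sum_congr rfl fun i _ => ?_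
        rw [ex (hk i.succ), sub_mul]
        simp
      have e2 : ∑ i : Fin n, (a i.succ - k i.succ • a 0) * (x i.succ * (1 - y * (r * z)))
          = z - z * (y * r) * z := by
        simp only [← mul_assoc]
        rw [← Finset.sum_mul, e1]
        have := congrArg (fun t => a 0 * t) hyy
        simp only [mul_assoc] at this
        simp only [mul_sub, sub_mul, mul_one, mul_assoc, this]
        abel
      rw [e2] at h
      have yr : y * r ∈ Row := hl y hy r rRow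
      refine ⟨_, ?_, mccoy h⟩
      have : y * r + (1 - y * r * z) * w * (1 - z * (y * r))
          = y * r + (1 - y * r * z) * (w - (w * z) * (y * r)) := by noncomm_ring
      rw [this]
      exact add_mem yr (hl _ (T.sub_mem T.one_mem (hrz _ yr)) _
        (sub_mem hw (hl _ (hrz _ hw) _ yr)))

end Core

end Pool.Agent.MP_9ea0f9_al.H6
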