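import Pool.Agent.MP_9ea0f9_al.H6.C

set_option autoImplicit false

/-! Regularity of `Fn T`, `BT T`; the polarisation and the doubling `D T`. -/

namespace Pool.Agent.MP_9ea0f9_al.H6

variable {B : Type*} [Ring B] [Algebra ℚ B]

namespace Core

variable (c : Core B)

/-- columns over `T` -/
def Col (T : Subalgebra ℚ B) : Submodule ℚ B :=
  Submodule.span ℚ {z | ∃ a ∈ c.C, ∃ x ∈ T, z = a * x}

/-- rows over `T` -/
def Row (T : Subalgebra ℚ B) : Submodule ℚ B :=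
  Submodule.span ℚ {z | ∃ y ∈ T, ∃ r ∈ c.Rw, z = y * r}

theorem Col_reg {T : Subalgebra ℚ B} (hT : RegS T) {z : B} (hz : z ∈ c.Col T) :
    ∃ w ∈ c.Row T, z * w * z = z := by
  obtain ⟨n, f, g, rfl⟩ := Submodule.mem_span_set'.mp hz
  choose a ha x hx hg using fun i => (g i).2
  have := c.col_reg hT n a (fun i => f i • x i) ha (fun i => T.smul_mem (hx i) _)
  simpa only [hg, mul_smul_comm, Row] using this

theorem Col_mul_r {T : Subalgebra ℚ B} {x r : B} (hx : x ∈ c.Col T) (hr : r ∈ c.Rw) :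
    x * r ∈ c.Fn T := by
  induction hx using Submodule.span_induction with
  | mem w hw => obtain ⟨a, ha, y, hy, rfl⟩ := hw; exact c.mem_Fn ha hy hr
  | zero => simp
  | add x y _ _ hx hy => rw [add_mul]; exact add_mem hx hy
  | smul k x _ hx => rw [smul_mul_assoc]; exact Submodule.smul_mem _ _ hx

theorem c_mul_Row {T : Subalgebra ℚ B} {a y : B} (ha : a ∈ c.C) (hy : y ∈ c.Row T) :
    a * y ∈ c.Fn T := by
  induction hy using Submodule.span_induction with
  | mem w hw => obtain ⟨x, hx, r, hr, rfl⟩ := hw; rw [← mul_assoc]; exact c.mem_Fn ha hx hr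
  | zero => simp
  | add x y _ _ hx hy => rw [mul_add]; exact add_mem hx hy
  | smul k x _ hx => rw [mul_smul_comm]; exact Submodule.smul_mem _ _ hx

theorem Col_mul_T {T : Subalgebra ℚ B} {x t : B} (hx : x ∈ c.Col T) (ht : t ∈ T) :
    x * t ∈ c.Col T := by
  induction hx using Submodule.span_induction with
  | mem w hw =>
    obtain ⟨a, ha, y, hy, rfl⟩ := hw
    exact Submodule.subset_span ⟨a, ha, y * t, T.mul_mem hy ht, by rw [mul_assoc]⟩
  | zero => simp
  | add x y _ _ hx hy => rw [add_mul]; exact add_mem hx hy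
  | smul k x _ hx => rw [smul_mul_assoc]; exact Submodule.smul_mem _ _ hx

theorem Row_mul_Col {T : Subalgebra ℚ B} {x y : B} (hy : y ∈ c.Row T) (hx : x ∈ c.Col T) :
    y * x ∈ T := by
  induction hy using Submodule.span_induction with
  | mem w hw =>
    obtain ⟨t, ht, r, hr, rfl⟩ := hw
    induction hx using Submodule.span_induction with
    | mem w hw =>
      obtain ⟨a, ha, s, hs, rfl⟩ := hw
      have := T.mul_mem (T.mul_mem ht (c.rc_mem hr ha)) hs
      simpa only [mul_assoc] using this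
    | zero => simp
    | add x y _ _ hx hy => rw [mul_add]; exact add_mem hx hy
    | smul k x _ hx => rw [mul_smul_comm]; exact T.smul_mem hx k
  | zero => simp
  | add x y _ _ hx hy => rw [add_mul]; exact add_mem hx hy
  | smul k x _ hx => rw [smul_mul_assoc]; exact T.smul_mem hx k

theorem row_reg {T : Subalgebra ℚ B} (hT : RegS T) (n : ℕ) :
    ∀ (x r : Fin n → B), (∀ i, x i ∈ c.Col T) → (∀ i, r i ∈ c.Rw) →
      ∃ w ∈ c.Fn T, (∑ i, x i * r i) * w * (∑ i, x i * r i) = ∑ i, x i * r i := by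
  induction n with
  | zero => intro a x _ _; exact ⟨0, zero_mem _, by simp⟩
  | succ n ih =>
    intro x r hx hr
    by_cases h0 : r 0 = 0
    · obtain ⟨w, hw, h⟩ := ih (fun i => x i.succ) (fun i => r i.succ) (fun i => hx _)
        (fun i => hr _)
      refine ⟨w, hw, ?_⟩
      simpa only [Fin.sum_univ_succ, h0, mul_zero, zero_add] using h
    · obtain ⟨a, ha, ha0⟩ := c.r_nd _ (hr 0) h0
      choose k hk using fun i => c.rc _ (hr i) a ha
      have zF : ∑ i, x i * r i ∈ c.Fn T := Submodule.sum_mem _ fun i _ => c.Col_mul_r (hx i) (hr i)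
      have zC : (∑ i, x i * r i) * a ∈ c.Col T := by
        rw [Finset.sum_mul]
        refine Submodule.sum_mem _ fun i _ => ?_
        rw [mul_assoc]; exact c.Col_mul_T (hx i) (c.rc_mem (hr i) ha)
      obtain ⟨z, hz⟩ : ∃ z, z = ∑ i, x i * r i := ⟨_, rfl⟩
      rw [← hz] at zF zC ⊢
      obtain ⟨y, hy, hyy⟩ := c.Col_reg hT zC
      obtain ⟨w, hw, h⟩ := ih (fun i => x i.succ - z * a * (y * x i.succ))
        (fun i => r i.succ - k i.succ • r 0)
        (fun i => sub_mem (hx _) (c.Col_mul_T zC (c.Row_mul_Col hy (hx _))))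
        (fun i => sub_mem (hr _) (Submodule.smul_mem _ _ (hr 0)))
      have e1 : ∑ i : Fin n, x i.succ * (r i.succ - k i.succ • r 0) = z - z * a * r 0 := by
        rw [hz, Fin.sum_univ_succ, add_mul, mul_assoc (x 0), ha0, mul_one, add_mul,
          Finset.sum_mul, Finset.sum_mul, add_sub_add_left_eq_sub, ← Finset.sum_sub_distrib]
        refine Finset.sum_congr rfl fun i _ => ?_
        rw [mul_assoc (x i.succ) (r i.succ), hk i.succ, mul_sub]
        simp
      have e2 : ∑ i : Fin n, (x i.succ - z * a * (y * x i.succ)) * (r i.succ - k i.succ • r 0)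
          = z - z * (a * y) * z := by
        have : ∀ i : Fin n, (x i.succ - z * a * (y * x i.succ)) * (r i.succ - k i.succ • r 0)
            = (1 - z * a * y) * (x i.succ * (r i.succ - k i.succ • r 0)) := fun i => by
          simp only [sub_mul, one_mul, mul_assoc]
        simp only [this]
        rw [← Finset.mul_sum, e1]
        have := congrArg (fun t => t * r 0) hyy
        simp only [mul_assoc] at this
        simp only [mul_sub, sub_mul, one_mul, mul_assoc, this]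
        abel
      rw [e2] at h
      have ay : a * y ∈ c.Fn T := c.c_mul_Row ha hy
      refine ⟨_, ?_, mccoy h⟩
      refine add_mem ay (c.Fn_mul_BT ?_ (c.BT_mul_Fn ?_ hw))
      · exact sub_mem (one_mem _) (c.Fn_BT (c.Fn_mul_Fn zF ay))
      · exact sub_mem (one_mem _) (c.Fn_BT (c.Fn_mul_Fn ay zF))

theorem Fn_reg {T : Subalgebra ℚ B} (hT : RegS T) {z : B} (hz : z ∈ c.Fn T) :
    ∃ w ∈ c.Fn T, z * w * z = z := by
  obtain ⟨n, f, g, rfl⟩ := Submodule.mem_span_set'.mp hz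
  choose a ha x hx r hr hg using fun i => (g i).2
  have := c.row_reg hT n (fun i => f i • (a i * x i)) r
    (fun i => Submodule.smul_mem _ _ (Submodule.subset_span ⟨a i, ha i, x i, hx i, rfl⟩)) hr
  simpa only [hg, smul_mul_assoc] using this

theorem BT_reg {T : Subalgebra ℚ B} (hT : RegS T) : RegS (c.BT T) := by
  intro z hz
  obtain ⟨m, hm, h⟩ := id hz
  obtain ⟨u, hu, v, hv, -, -, h3⟩ := c.Mur m hm
  have uB : u ∈ c.BT T := c.M_BT hu
  have : z - z * u * z ∈ c.Fn T := by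
    have e : z - z * u * z = (z - m) - (z - m) * (u * z) - m * u * (z - m) + (m - m * u * m) := by
      noncomm_ring
    rw [e, h3, sub_self, add_zero]
    exact sub_mem (sub_mem h (c.Fn_mul_BT (mul_mem uB hz) h))
      (c.BT_mul_Fn (mul_mem (c.M_BT hm) uB) h)
  obtain ⟨w, hw, hh⟩ := c.Fn_reg hT this
  refine ⟨_, ?_, mccoy hh⟩
  exact add_mem uB (mul_mem (mul_mem (sub_mem (one_mem _) (mul_mem uB hz)) (c.Fn_BT hw))
    (sub_mem (one_mem _) (mul_mem hz uB)))

/-- an operator given by its two components -/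
def pr (a b : B) : B := a * c.σ c.e + b * (1 - c.σ c.e)

theorem σee : c.σ c.e * c.σ c.e = c.σ c.e := by rw [← map_mul, c.ee]

theorem pr_mul (a b : B) {a' b' : B} (ha : a' ∈ c.A) (hb : b' ∈ c.A) :
    c.pr a b * c.pr a' b' = c.pr (a * a') (b * b') := by
  have h1 := (c.aσ c.e a' ha).symm
  have h2 := (c.aσ c.e b' hb).symm
  simp only [pr, mul_add, add_mul, mul_sub, sub_mul, mul_one, one_mul, mul_assoc, ex h1, ex h2,
    h1, h2, c.σee]
  abel

theorem pr_self (a : B) : c.pr a a = a := by simp only [pr, mul_sub, mul_one]; abel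

theorem pr_add (a b a' b' : B) : c.pr a b + c.pr a' b' = c.pr (a + a') (b + b') := by
  simp only [pr, add_mul]; abel

theorem pr_sub (a b a' b' : B) : c.pr a b - c.pr a' b' = c.pr (a - a') (b - b') := by
  simp only [pr, sub_mul]; abel

theorem pr_Fn {T : Subalgebra ℚ B} (he : c.e ∈ T) {a b : B} (ha : a ∈ c.Fn T) (hb : b ∈ c.Fn T) :
    c.pr a b ∈ c.Fn T := by
  rw [pr, mul_sub, mul_one]
  exact add_mem (c.Fn_mul_σ he ha) (sub_mem hb (c.Fn_mul_σ he hb))

theorem pr_mul_Fn {T : Subalgebra ℚ B} (he : c.e ∈ T) {a b z : B} (ha : a ∈ c.A) (hb : b ∈ c.A)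
    (hz : z ∈ c.Fn T) : c.pr a b * z ∈ c.Fn T := by
  rw [pr, add_mul, mul_assoc, mul_assoc, sub_mul, one_mul]
  exact add_mem (c.A_mul_Fn ha (c.σ_mul_Fn he hz)) (c.A_mul_Fn hb (sub_mem hz (c.σ_mul_Fn he hz)))

theorem Fn_mul_pr {T : Subalgebra ℚ B} (he : c.e ∈ T) {a b z : B} (ha : a ∈ c.A) (hb : b ∈ c.A)
    (hz : z ∈ c.Fn T) : z * c.pr a b ∈ c.Fn T := by
  rw [pr, mul_add, ← mul_assoc, ← mul_assoc, mul_sub, mul_one]
  exact add_mem (c.Fn_mul_σ he (c.Fn_mul_A ha hz))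
    (sub_mem (c.Fn_mul_A hb hz) (c.Fn_mul_σ he (c.Fn_mul_A hb hz)))

theorem e_pr : c.e = c.pr (1 - c.p2) c.p1 := by
  rw [pr]; nth_rewrite 1 [c.he]
  simp only [mul_sub, sub_mul, add_mul, mul_one, one_mul]; abel

end Core

structure Pol (c : Core B) where
  π : B
  π' : B
  cl : B
  rl : B
  cr : B
  rr : B
  πA : π ∈ c.A
  π'A : π' ∈ c.A
  clC : cl ∈ c.C
  crC : cr ∈ c.C
  rlR : rl ∈ c.Rw
  rrR : rr ∈ c.Rw
  ll : rl * cl = 1
  rr1 : rr * cr = 1
  lr : rl * cr = 0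
  rl0 : rr * cl = 0
  ππ : π * π = π
  π'π' : π' * π' = π'
  ππ' : π * π' = 0
  π'π : π' * π = 0
  sum1 : π + π' = c.p1 + c.p2
  sum2 : π + π' + cl * rl + cr * rr = 1
  πw0 : π * c.w0 = c.w0 * π
  πw1 : π * c.w1 = c.w1 * π
  π'w0 : π' * c.w0 = c.w0 * π'
  π'w1 : π' * c.w1 = c.w1 * π'
  hank : ∀ m ∈ c.M, π * m * π' ∈ c.Fn {1}
  hank' : ∀ m ∈ c.M, π' * m * π ∈ c.Fn {1}

namespace Pol

variable {c : Core B} (P : Pol c)

/-- exchange of the two sides -/
def swap : Pol c where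
  π := P.π'
  π' := P.π
  cl := P.cr
  rl := P.rr
  cr := P.cl
  rr := P.rl
  πA := P.π'A
  π'A := P.πA
  clC := P.crC
  crC := P.clC
  rlR := P.rrR
  rrR := P.rlR
  ll := P.rr1
  rr1 := P.ll
  lr := P.rl0
  rl0 := P.lr
  ππ := P.π'π'
  π'π' := P.ππ
  ππ' := P.π'π
  π'π := P.ππ'
  sum1 := by rw [add_comm, P.sum1]
  sum2 := by rw [← P.sum2]; abel
  πw0 := P.π'w0
  πw1 := P.π'w1
  π'w0 := P.πw0
  π'w1 := P.πw1
  hank := P.hank'
  hank' := P.hank

theorem pcl : (P.π + P.π') * P.cl = 0 := by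
  have := congrArg (fun z => z * P.cl) P.sum2
  simp only [add_mul, mul_assoc, P.ll, P.rl0, mul_one, mul_zero, add_zero, one_mul] at this
  rw [add_mul]; exact add_eq_right.mp this

theorem rlp : P.rl * (P.π + P.π') = 0 := by
  have := congrArg (fun z => P.rl * z) P.sum2
  simp only [mul_add, ex P.ll, ex P.lr, mul_one, zero_mul, add_zero, one_mul] at this
  rw [mul_add]; exact add_eq_right.mp this

theorem πcl : P.π * P.cl = 0 := by
  have := congrArg (fun z => P.π * z) P.pcl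
  simpa only [add_mul, mul_add, ex P.ππ, ex P.ππ', zero_mul, add_zero, mul_zero] using this

theorem π'cl : P.π' * P.cl = 0 := by
  have := congrArg (fun z => P.π' * z) P.pcl
  simpa only [add_mul, mul_add, ex P.π'π', ex P.π'π, zero_mul, zero_add, mul_zero] using this

theorem rlπ : P.rl * P.π = 0 := by
  have := congrArg (fun z => z * P.π) P.rlp
  simpa only [add_mul, mul_add, mul_assoc, P.ππ, P.π'π, zero_mul, add_zero, mul_zero] using this

theorem rlπ' : P.rl * P.π' = 0 := by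
  have := congrArg (fun z => z * P.π') P.rlp
  simpa only [add_mul, mul_add, mul_assoc, P.ππ', P.π'π', zero_mul, zero_add, mul_zero] using this

theorem πcr : P.π * P.cr = 0 := P.swap.π'cl
theorem π'cr : P.π' * P.cr = 0 := P.swap.πcl
theorem rrπ : P.rr * P.π = 0 := P.swap.rlπ'
theorem rrπ' : P.rr * P.π' = 0 := P.swap.rlπ

theorem pm {m : B} (hm : m ∈ c.M) : (P.π + P.π') * m = m := by rw [P.sum1, c.pM m hm]
theorem mp {m : B} (hm : m ∈ c.M) : m * (P.π + P.π') = m := by rw [P.sum1, c.Mp m hm]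
theorem mcl {m : B} (hm : m ∈ c.M) : m * P.cl = 0 := by
  rw [← P.mp hm, mul_assoc, P.pcl, mul_zero]
theorem rlm {m : B} (hm : m ∈ c.M) : P.rl * m = 0 := by
  rw [← P.pm hm, ← mul_assoc, P.rlp, zero_mul]
theorem mcr {m : B} (hm : m ∈ c.M) : m * P.cr = 0 := P.swap.mcl hm
theorem rrm {m : B} (hm : m ∈ c.M) : P.rr * m = 0 := P.swap.rlm hm

theorem klA : P.cl * P.rl ∈ c.A := c.crA _ P.clC _ P.rlR
theorem krA : P.cr * P.rr ∈ c.A := c.crA _ P.crC _ P.rrR
theorem e1A : P.π + P.cl * P.rl ∈ c.A := add_mem P.πA P.klA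
theorem e2A : P.π' + P.cl * P.rl ∈ c.A := add_mem P.π'A P.klA

/-- the idempotent of the left side -/
def ε : B := c.pr (P.π + P.cl * P.rl) (P.π' + P.cl * P.rl)

theorem swap_ε : P.swap.ε = 1 - P.ε := by
  rw [eq_sub_iff_add_eq, ε, ε, c.pr_add]
  have h1 : P.swap.π + P.swap.cl * P.swap.rl + (P.π + P.cl * P.rl) = 1 := by
    rw [← P.sum2]; simp only [swap]; abel
  have h2 : P.swap.π' + P.swap.cl * P.swap.rl + (P.π' + P.cl * P.rl) = 1 := by
    rw [← P.sum2]; simp only [swap]; abel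
  rw [h1, h2, c.pr_self]

theorem εε : P.ε * P.ε = P.ε := by
  rw [ε, c.pr_mul _ _ P.e1A P.e2A]
  simp only [mul_add, add_mul, mul_assoc, P.ππ, P.π'π', ex P.πcl, ex P.π'cl, P.rlπ, P.rlπ',
    ex P.ll, zero_mul, mul_zero, one_mul, add_zero, zero_add]

theorem εcl : P.ε * P.cl = P.cl := by
  have h := c.σc c.e _ P.clC
  simp only [ε, Core.pr, mul_add, add_mul, mul_sub, sub_mul, mul_assoc, h, one_mul, mul_one,
    ex P.πcl, ex P.π'cl, P.πcl, P.π'cl, P.ll, ex P.ll, zero_mul]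
  abel

theorem rlε : P.rl * P.ε = P.rl := by
  simp only [ε, Core.pr, mul_add, add_mul, mul_sub, sub_mul, mul_assoc, one_mul, mul_one,
    ex P.rlπ, ex P.rlπ', P.rlπ, P.rlπ', P.ll, ex P.ll, zero_mul]
  abel

theorem ε_mul_Fn {T : Subalgebra ℚ B} (he : c.e ∈ T) {z : B} (hz : z ∈ c.Fn T) :
    P.ε * z ∈ c.Fn T := c.pr_mul_Fn he P.e1A P.e2A hz

theorem Fn_mul_ε {T : Subalgebra ℚ B} (he : c.e ∈ T) {z : B} (hz : z ∈ c.Fn T) :
    z * P.ε ∈ c.Fn T := c.Fn_mul_pr he P.e1A P.e2A hz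

theorem off_M {T : Subalgebra ℚ B} (he : c.e ∈ T) {m : B} (hm : m ∈ c.M) :
    P.ε * m * P.swap.ε ∈ c.Fn T := by
  have mA := c.MA m hm
  rw [← c.pr_self m, ε, ε, c.pr_mul _ _ mA mA, c.pr_mul _ _ P.swap.e1A P.swap.e2A]
  refine c.pr_Fn he ?_ ?_
  · have : (P.π + P.cl * P.rl) * m * (P.swap.π + P.swap.cl * P.swap.rl) = P.π * m * P.π' := by
      simp only [swap, mul_add, add_mul, mul_assoc, ex (P.rlm hm), ex (P.mcr hm), zero_mul,
        mul_zero, add_zero]
    rw [this]; exact c.one_le (P.hank m hm)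
  · have : (P.π' + P.cl * P.rl) * m * (P.swap.π' + P.swap.cl * P.swap.rl) = P.π' * m * P.π := by
      simp only [swap, mul_add, add_mul, mul_assoc, ex (P.rlm hm), ex (P.mcr hm), zero_mul,
        mul_zero, add_zero]
    rw [this]; exact c.one_le (P.hank' m hm)

theorem off_BT {T : Subalgebra ℚ B} (he : c.e ∈ T) {z : B} (hz : z ∈ c.BT T) :
    P.ε * z * P.swap.ε ∈ c.Fn T := by
  obtain ⟨m, hm, h⟩ := hz
  have : P.ε * z * P.swap.ε = P.ε * (z - m) * P.swap.ε + P.ε * m * P.swap.ε := by noncomm_ring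
  rw [this]
  exact add_mem (P.swap.Fn_mul_ε he (P.ε_mul_Fn he h)) (P.off_M he hm)

theorem off_BT' {T : Subalgebra ℚ B} (he : c.e ∈ T) {z : B} (hz : z ∈ c.BT T) :
    P.swap.ε * z * P.ε ∈ c.Fn T := P.swap.off_BT he hz

/-- the doubling -/
def D (T : Subalgebra ℚ B) : Subalgebra ℚ B := c.BT T ⊓ Subalgebra.centralizer ℚ {P.ε}

theorem mem_D {T : Subalgebra ℚ B} {z : B} : z ∈ P.D T ↔ z ∈ c.BT T ∧ P.ε * z = z * P.ε := by
  simp [D, Subalgebra.mem_centralizer_iff]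

theorem swap_D (T : Subalgebra ℚ B) : P.swap.D T = P.D T := by
  ext z
  rw [mem_D, mem_D, swap_ε, sub_mul, mul_sub, one_mul, mul_one, sub_right_inj]

theorem D_mono {T T' : Subalgebra ℚ B} (h : T ≤ T') : P.D T ≤ P.D T' :=
  inf_le_inf_right _ (c.BT_mono h)

/-- the diagonal part -/
def Δ (z : B) : B := P.ε * z * P.ε + P.swap.ε * z * P.swap.ε

theorem sub_Δ {T : Subalgebra ℚ B} (he : c.e ∈ T) {z : B} (hz : z ∈ c.BT T) :
    z - P.Δ z ∈ c.Fn T := by
  have : z - P.Δ z = P.ε * z * P.swap.ε + P.swap.ε * z * P.ε := by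
    rw [Δ, swap_ε]; noncomm_ring
  rw [this]; exact add_mem (P.off_BT he hz) (P.off_BT' he hz)

theorem Δ_mem {T : Subalgebra ℚ B} (he : c.e ∈ T) {z : B} (hz : z ∈ c.BT T) : P.Δ z ∈ P.D T := by
  refine P.mem_D.mpr ⟨?_, ?_⟩
  · have := sub_mem hz (c.Fn_BT (P.sub_Δ he hz))
    simpa using this
  · rw [Δ, swap_ε]
    simp only [mul_add, add_mul, mul_sub, sub_mul, mul_one, one_mul, mul_assoc, P.εε, ex P.εε]
    abel

theorem D_reg {T : Subalgebra ℚ B} (he : c.e ∈ T) (hT : Core.RegS T) : Core.RegS (P.D T) := by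
  intro z hz
  obtain ⟨h1, h2⟩ := P.mem_D.mp hz
  obtain ⟨y, hy, h⟩ := c.BT_reg hT z h1
  refine ⟨P.Δ y, P.Δ_mem he hy, ?_⟩
  rw [mul_assoc] at h
  have h3 : ∀ x, z * (P.ε * x) = P.ε * (z * x) := fun x => by rw [← mul_assoc, ← h2, mul_assoc]
  have h4 : P.ε * (z * P.ε) = z * P.ε := by rw [ex h2, mul_assoc, P.εε]
  rw [Δ, swap_ε]
  simp only [mul_add, add_mul, mul_sub, sub_mul, mul_one, one_mul, mul_assoc, h2, h3, h4, h,
    ex3 h]
  abel

theorem εFε_mem {T : Subalgebra ℚ B} (he : c.e ∈ T) {z : B} (hz : z ∈ c.Fn T) :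
    P.ε * z * P.ε ∈ P.D T :=
  P.mem_D.mpr ⟨c.Fn_BT (P.Fn_mul_ε he (P.ε_mul_Fn he hz)), by
    simp only [mul_assoc, P.εε, ex P.εε]⟩

theorem πp1 : P.π * c.p1 = c.p1 * P.π := by
  rw [← c.w01, ex P.πw0, mul_assoc, P.πw1, mul_assoc]
theorem πp2 : P.π * c.p2 = c.p2 * P.π := by
  rw [← c.w10, ex P.πw1, mul_assoc, P.πw0, mul_assoc]
theorem π'p1 : P.π' * c.p1 = c.p1 * P.π' := P.swap.πp1
theorem π'p2 : P.π' * c.p2 = c.p2 * P.π' := P.swap.πp2

theorem M_mem_D {T : Subalgebra ℚ B} {m : B} (hm : m ∈ c.M) (h1 : P.π * m = m * P.π)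
    (h2 : P.π' * m = m * P.π') : m ∈ P.D T := by
  refine P.mem_D.mpr ⟨c.M_BT hm, ?_⟩
  have mA := c.MA m hm
  rw [← c.pr_self m, ε, c.pr_mul _ _ mA mA, c.pr_mul _ _ P.e1A P.e2A]
  simp only [mul_add, add_mul, mul_assoc, h1, h2, P.rlm hm, ex (P.mcl hm), mul_zero, zero_mul]

theorem e_mem_D {T : Subalgebra ℚ B} (he : c.e ∈ T) : c.e ∈ P.D T := by
  refine P.mem_D.mpr ⟨⟨c.p1, c.p1M, ?_⟩, ?_⟩
  · nth_rewrite 1 [c.he]
    rw [add_sub_cancel_left]
    exact c.one_mul_σ he c.kfin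
  · have a1 := c.MA _ c.p1M
    have a2 : 1 - c.p2 ∈ c.A := sub_mem (one_mem _) (c.MA _ c.p2M)
    suffices h : P.ε * c.pr (1 - c.p2) c.p1 = c.pr (1 - c.p2) c.p1 * P.ε by
      rwa [← c.e_pr] at h
    rw [ε, c.pr_mul _ _ a2 a1, c.pr_mul _ _ P.e1A P.e2A]
    simp only [mul_add, add_mul, mul_sub, sub_mul, mul_one, one_mul, mul_assoc, P.πp2, P.π'p1,
      P.rlm c.p1M, P.rlm c.p2M, ex (P.mcl c.p1M), ex (P.mcl c.p2M), mul_zero, zero_mul]
    congr 1; abel

end Pol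

end Pool.Agent.MP_9ea0f9_al.H6
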