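import Pool.Agent.MP_9ea0f9_al.H6.D

set_option autoImplicit false

/-! The shift elements, traces, and the failure of unit-regularity. -/

namespace Pool.Agent.MP_9ea0f9_al.H6

variable {B : Type*} [Ring B] [Algebra ℚ B]

structure Shift {c : Core B} (P : Pol c) where
  ma : B
  mb : B
  x : B
  y : B
  ξ : B
  η : B
  maM : ma ∈ c.M
  mbM : mb ∈ c.M
  xC : x ∈ c.C
  yC : y ∈ c.C
  ξR : ξ ∈ c.Rw
  ηR : η ∈ c.Rw
  ab : ma * mb = c.p1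
  ba : mb * ma = c.p2
  p1a : c.p1 * ma = ma
  p2b : c.p2 * mb = mb
  h3 : P.π * (mb * P.π') = x * η
  h4 : P.π' * (mb * P.π) = 0
  h5 : P.π' * (ma * P.π) = y * ξ
  h6 : P.π * (ma * P.π') = 0
  ξx : ξ * x = 1
  ηy : η * y = 1
  πx : P.π * x = x
  π'y : P.π' * y = y
  ξπ : ξ * P.π = ξ
  ηπ' : η * P.π' = η
  by' : mb * y = x
  ax : ma * x = y
  ξb : ξ * mb = η
  ηa : η * ma = ξ

namespace Shift

variable {c : Core B} {P : Pol c} (s : Shift P)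

def αa : B := P.π * s.ma * P.π + P.cl * s.ξ + P.π' * s.ma * P.π'
def αb : B := P.π' * s.ma * P.π' + s.y * P.rl + P.π * s.ma * P.π
def βa : B := P.π * s.mb * P.π + s.x * P.rl + P.π' * s.mb * P.π'
def βb : B := P.π' * s.mb * P.π' + P.cl * s.η + P.π * s.mb * P.π
def sa : B := c.pr s.αa s.αb
def sb : B := c.pr s.βa s.βb

theorem diagA {m : B} (hm : m ∈ c.M) : P.π * m * P.π ∈ c.A ∧ P.π' * m * P.π' ∈ c.A :=
  ⟨mul_mem (mul_mem P.πA (c.MA _ hm)) P.πA, mul_mem (mul_mem P.π'A (c.MA _ hm)) P.π'A⟩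

theorem αaA : s.αa ∈ c.A :=
  add_mem (add_mem (diagA s.maM).1 (c.crA _ P.clC _ s.ξR)) (diagA s.maM).2
theorem αbA : s.αb ∈ c.A :=
  add_mem (add_mem (diagA s.maM).2 (c.crA _ s.yC _ P.rlR)) (diagA s.maM).1
theorem βaA : s.βa ∈ c.A :=
  add_mem (add_mem (diagA s.mbM).1 (c.crA _ s.xC _ P.rlR)) (diagA s.mbM).2
theorem βbA : s.βb ∈ c.A :=
  add_mem (add_mem (diagA s.mbM).2 (c.crA _ P.clC _ s.ηR)) (diagA s.mbM).1

theorem diag_sub {m a r : B} (hm : m ∈ c.M) (ha : a ∈ c.C) (hr : r ∈ c.Rw) :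
    P.π * m * P.π + a * r + P.π' * m * P.π' - m ∈ c.Fn {1} := by
  have h : m = (P.π + P.π') * m * (P.π + P.π') := by rw [P.pm hm, P.mp hm]
  have : P.π * m * P.π + a * r + P.π' * m * P.π' - (P.π + P.π') * m * (P.π + P.π')
      = a * 1 * r - P.π * m * P.π' - P.π' * m * P.π := by noncomm_ring
  rw [← h] at this
  rw [this]
  exact sub_mem (sub_mem (c.mem_Fn ha rfl hr) (P.hank m hm)) (P.hank' m hm)

theorem sa_sub {T : Subalgebra ℚ B} (he : c.e ∈ T) : s.sa - s.ma ∈ c.Fn T := by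
  rw [← c.pr_self s.ma, sa, c.pr_sub]
  exact c.pr_Fn he (c.one_le (diag_sub s.maM P.clC s.ξR))
    (c.one_le (diag_sub (P := P.swap) s.maM s.yC P.rlR))

theorem sb_sub {T : Subalgebra ℚ B} (he : c.e ∈ T) : s.sb - s.mb ∈ c.Fn T := by
  rw [← c.pr_self s.mb, sb, c.pr_sub]
  exact c.pr_Fn he (c.one_le (diag_sub s.mbM s.xC P.rlR))
    (c.one_le (diag_sub (P := P.swap) s.mbM P.clC s.ηR))

theorem π'x : P.π' * s.x = 0 := by rw [← s.πx, ex P.π'π, zero_mul]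
theorem πy : P.π * s.y = 0 := by rw [← s.π'y, ex P.ππ', zero_mul]
theorem ξπ' : s.ξ * P.π' = 0 := by rw [← s.ξπ, mul_assoc, P.ππ', mul_zero]
theorem ηπ : s.η * P.π = 0 := by rw [← s.ηπ', mul_assoc, P.π'π, mul_zero]
theorem rlx : P.rl * s.x = 0 := by rw [← s.πx, ex P.rlπ, zero_mul]
theorem rly : P.rl * s.y = 0 := by rw [← s.π'y, ex P.rlπ', zero_mul]
theorem ξcl : s.ξ * P.cl = 0 := by rw [← s.ξπ, mul_assoc, P.πcl, mul_zero]
theorem ηcl : s.η * P.cl = 0 := by rw [← s.ηπ', mul_assoc, P.π'cl, mul_zero]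
theorem ap2 : s.ma * c.p2 = s.ma := by rw [← s.ba, ex s.ab, s.p1a]
theorem bp1 : s.mb * c.p1 = s.mb := by rw [← s.ab, ex s.ba, s.p2b]
theorem p2a : c.p2 * s.ma = 0 := by rw [← s.p1a, ex c.p21, zero_mul]
theorem p1b : c.p1 * s.mb = 0 := by rw [← s.p2b, ex c.p12, zero_mul]
theorem ap1 : s.ma * c.p1 = 0 := by rw [← s.ap2, mul_assoc, c.p21, mul_zero]
theorem bp2 : s.mb * c.p2 = 0 := by rw [← s.bp1, mul_assoc, c.p12, mul_zero]

theorem sa_mem {T : Subalgebra ℚ B} (he : c.e ∈ T) : s.sa ∈ P.D T := by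
  refine P.mem_D.mpr ⟨⟨_, s.maM, s.sa_sub he⟩, ?_⟩
  rw [Pol.ε, sa, c.pr_mul _ _ s.αaA s.αbA, c.pr_mul _ _ P.e1A P.e2A]
  simp only [αa, αb, mul_add, add_mul, mul_assoc, P.ππ, ex P.ππ, P.π'π', ex P.π'π', P.ππ', ex P.ππ',
    P.π'π, ex P.π'π, ex P.πcl, ex P.π'cl, P.rlπ, P.rlπ', ex P.rlπ, ex P.rlπ', ex P.ll, s.ξπ,
    ex s.ξcl, ex s.π'y, ex s.rly, zero_mul, mul_zero, one_mul, add_zero, zero_add]

theorem sb_mem {T : Subalgebra ℚ B} (he : c.e ∈ T) : s.sb ∈ P.D T := by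
  refine P.mem_D.mpr ⟨⟨_, s.mbM, s.sb_sub he⟩, ?_⟩
  rw [Pol.ε, sb, c.pr_mul _ _ s.βaA s.βbA, c.pr_mul _ _ P.e1A P.e2A]
  simp only [βa, βb, mul_add, add_mul, mul_assoc, P.ππ, ex P.ππ, P.π'π', ex P.π'π', P.ππ', ex P.ππ',
    P.π'π, ex P.π'π, ex P.πcl, ex P.π'cl, P.rlπ, P.rlπ', ex P.rlπ, ex P.rlπ', ex P.ll, s.ηπ',
    ex s.ηcl, ex s.πx, ex s.rlx, zero_mul, mul_zero, one_mul, add_zero, zero_add]

theorem mid {m n : B} (hn : n ∈ c.M) (z : B) :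
    m * (P.π * (n * z)) = m * (n * z) - m * (P.π' * (n * z)) := by
  rw [eq_sub_iff_add_eq, ← mul_add, ← add_mul, ex (P.pm hn)]

theorem k1 : P.π * (s.ma * (P.π * (s.mb * P.π))) = c.p1 * P.π := by
  rw [mid (P := P) s.mbM, s.h4, mul_zero, sub_zero, ex s.ab, ex P.πp1, mul_assoc, P.ππ]

theorem k2 : P.π * (s.mb * (P.π * (s.ma * P.π))) = c.p2 * P.π - s.x * s.ξ := by
  rw [mid (P := P) s.maM, s.h5, mul_sub, ex s.ba, ex P.πp2, mul_assoc, P.ππ, ex s.by', ex s.πx]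

theorem k3 : P.π' * (s.ma * (P.π' * (s.mb * P.π'))) = c.p1 * P.π' - s.y * s.η := by
  have := mid (P := P.swap) (m := s.ma) s.mbM P.π'
  simp only [Pol.swap] at this
  rw [this, s.h3, mul_sub, ex s.ab, ex P.π'p1, mul_assoc, P.π'π', ex s.ax, ex s.π'y]

theorem k4 : P.π' * (s.mb * (P.π' * (s.ma * P.π'))) = c.p2 * P.π' := by
  have := mid (P := P.swap) (m := s.mb) s.maM P.π'
  simp only [Pol.swap] at this
  rw [this, s.h6, mul_zero, sub_zero, ex s.ba, ex P.π'p2, mul_assoc, P.π'π']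

theorem p2π : (1 - c.p2) * P.π = c.p1 * P.π := by
  have := P.sum1
  have h : P.π = (c.p1 + c.p2) * P.π := by rw [← this, add_mul, P.ππ, P.π'π, add_zero]
  rw [sub_mul, one_mul, sub_eq_iff_eq_add, ← add_mul, ← h]

theorem ε_ab : P.ε * s.sa * s.sb = P.ε * c.e := by
  have a1 := c.MA _ c.p1M
  have a2 : 1 - c.p2 ∈ c.A := sub_mem (one_mem _) (c.MA _ c.p2M)
  suffices h : P.ε * s.sa * s.sb = P.ε * c.pr (1 - c.p2) c.p1 by rwa [← c.e_pr] at h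
  have h1 : P.π * (1 - c.p2) = c.p1 * P.π := by
    rw [← p2π (P := P), mul_sub, sub_mul, P.πp2, mul_one, one_mul]
  rw [Pol.ε, sa, sb, c.pr_mul _ _ s.αaA s.αbA, c.pr_mul _ _ s.βaA s.βbA, c.pr_mul _ _ a2 a1,
    add_mul _ _ (1 - c.p2), h1]
  simp only [αa, αb, βa, βb, mul_add, add_mul, mul_sub, mul_assoc, P.ππ, ex P.ππ, P.π'π', ex P.π'π',
    P.ππ', ex P.ππ', P.π'π, ex P.π'π, ex P.πcl, ex P.π'cl, P.rlπ, P.rlπ', ex P.rlπ, ex P.rlπ',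
    ex P.ll, ex s.ξπ, ex s.ξπ', ex s.π'y, ex s.rly, ex s.πx, ex s.ax, ex s.πy, ex s.ξb, s.ηπ,
    ex s.ξx, s.k1, s.k3, P.π'p1, P.rlm c.p1M, P.rlm c.p2M,
    zero_mul, mul_zero, one_mul, mul_one, add_zero, zero_add, sub_zero, sub_add_cancel]

theorem ε_ba : P.ε * s.sb * s.sa = P.ε * (1 - c.e) := by
  have a1 := c.MA _ c.p2M
  have a2 : 1 - c.p1 ∈ c.A := sub_mem (one_mem _) (c.MA _ c.p1M)
  have he : 1 - c.e = c.pr c.p2 (1 - c.p1) := by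
    nth_rewrite 1 [c.e_pr, ← c.pr_self 1]
    rw [c.pr_sub, sub_sub_cancel]
  have h1 : P.π' * (1 - c.p1) = c.p2 * P.π' := by
    have h : P.π' = (c.p1 + c.p2) * P.π' := by
      rw [← P.sum1, add_mul, P.ππ', P.π'π', zero_add]
    rw [mul_sub, P.π'p1, mul_one, sub_eq_iff_eq_add', ← add_mul, ← h]
  rw [he, Pol.ε, sa, sb, c.pr_mul _ _ s.βaA s.βbA, c.pr_mul _ _ s.αaA s.αbA, c.pr_mul _ _ a1 a2,
    add_mul _ _ (1 - c.p1), h1]
  simp only [αa, αb, βa, βb, mul_add, add_mul, mul_sub, mul_assoc, P.ππ, ex P.ππ, P.π'π', ex P.π'π',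
    P.ππ', ex P.ππ', P.π'π, ex P.π'π, ex P.πcl, ex P.π'cl, P.rlπ, P.rlπ', ex P.rlπ, ex P.rlπ',
    ex P.ll, ex s.ηπ, ex s.ηπ', ex s.π'y, ex s.rlx, ex s.πx, ex s.by', ex s.π'x, ex s.ηa, s.ξπ',
    ex s.ηy, s.k2, s.k4, P.πp2, P.rlm c.p1M, P.rlm c.p2M,
    zero_mul, mul_zero, one_mul, mul_one, add_zero, zero_add, sub_zero, sub_add_cancel]

theorem e_sa : c.e * s.sa = s.sa := by
  suffices h : c.pr (1 - c.p2) c.p1 * s.sa = s.sa by rwa [← c.e_pr] at h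
  have h1 : c.p1 * s.y = s.y := by rw [← s.ax, ex s.p1a]
  rw [sa, c.pr_mul _ _ s.αaA s.αbA]
  simp only [αa, αb, mul_add, sub_mul, one_mul, mul_assoc, ex P.πp2.symm, ex P.π'p2.symm,
    ex P.πp1.symm, ex P.π'p1.symm, ex s.p2a, ex s.p1a, ex (P.mcl c.p2M), ex h1, zero_mul, mul_zero,
    add_zero, sub_zero]

theorem sa_e : s.sa * c.e = 0 := by
  have a1 := c.MA _ c.p1M
  have a2 : 1 - c.p2 ∈ c.A := sub_mem (one_mem _) (c.MA _ c.p2M)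
  suffices h : s.sa * c.pr (1 - c.p2) c.p1 = 0 by rwa [← c.e_pr] at h
  have h1 : s.ξ * c.p2 = s.ξ := by rw [← s.ηa, mul_assoc, s.ap2]
  rw [sa, c.pr_mul _ _ a2 a1, ← c.pr_self 0]
  simp only [αa, αb, add_mul, mul_sub, mul_one, mul_assoc, P.πp2, P.π'p2, P.πp1, P.π'p1, ex s.ap2,
    ex s.ap1, h1, P.rlm c.p1M, zero_mul, mul_zero, add_zero, sub_self]

theorem e_sb : c.e * s.sb = 0 := by
  suffices h : c.pr (1 - c.p2) c.p1 * s.sb = 0 by rwa [← c.e_pr] at h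
  have h1 : c.p2 * s.x = s.x := by rw [← s.by', ex s.p2b]
  rw [sb, c.pr_mul _ _ s.βaA s.βbA, ← c.pr_self 0]
  simp only [βa, βb, mul_add, sub_mul, one_mul, mul_assoc, ex P.πp2.symm, ex P.π'p2.symm,
    ex P.πp1.symm, ex P.π'p1.symm, ex s.p2b, ex s.p1b, ex (P.mcl c.p1M), ex h1, zero_mul, mul_zero,
    add_zero, sub_self]

theorem sb_e : s.sb * c.e = s.sb := by
  have a1 := c.MA _ c.p1M
  have a2 : 1 - c.p2 ∈ c.A := sub_mem (one_mem _) (c.MA _ c.p2M)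
  suffices h : s.sb * c.pr (1 - c.p2) c.p1 = s.sb by rwa [← c.e_pr] at h
  have h1 : s.η * c.p1 = s.η := by rw [← s.ξb, mul_assoc, s.bp1]
  rw [sb, c.pr_mul _ _ a2 a1]
  simp only [βa, βb, add_mul, mul_sub, mul_one, mul_assoc, P.πp2, P.π'p2, P.πp1, P.π'p1, ex s.bp2,
    ex s.bp1, h1, P.rlm c.p2M, zero_mul, mul_zero, add_zero, sub_zero]

end Shift

end Pool.Agent.MP_9ea0f9_al.H6
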