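import Pool.Agent.MP_9ea0f9_al.H6.E

set_option autoImplicit false

/-! Traces and the failure of unit-regularity; the ring `J`. -/

namespace Pool.Agent.MP_9ea0f9_al.H6

variable {B : Type*} [Ring B] [Algebra ℚ B]

/-- `τ` is a trace on `T` -/
def IsTr (τ : B →ₗ[ℚ] ℚ) (T : Subalgebra ℚ B) : Prop := ∀ x ∈ T, ∀ y ∈ T, τ (x * y) = τ (y * x)

namespace Core

variable (c : Core B)

theorem Tr_A {y w : B} (hy : y ∈ c.Fn Set.univ) (hw : w ∈ c.A) : c.Tr (y * w) = c.Tr (w * y) := by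
  refine c.Fn_ind (p := fun y => c.Tr (y * w) = c.Tr (w * y)) hy ?_ (by simp) ?_ ?_
  · intro a ha x _ r hr
    have h1 := c.Tr_fin a ha x _ (c.ra w hw r hr)
    have h2 := c.Tr_fin _ (c.ac w hw a ha) x r hr
    simp only [mul_assoc] at h1 h2 ⊢
    rw [h1, h2]
  · intro x y hx hy; rw [add_mul, mul_add, map_add, map_add, hx, hy]
  · intro k x hx; rw [smul_mul_assoc, mul_smul_comm, map_smul, map_smul, hx]

theorem tr_Fn {τ : B →ₗ[ℚ] ℚ} {T : Subalgebra ℚ B} (hτ : IsTr τ T) {y w : B} (hy : y ∈ c.Fn T)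
    (hw : w ∈ c.Fn T) : τ (c.Tr (y * w)) = τ (c.Tr (w * y)) := by
  refine c.Fn_ind (p := fun y => τ (c.Tr (y * w)) = τ (c.Tr (w * y))) hy ?_ (by simp) ?_ ?_
  · intro a ha x hx r hr
    refine c.Fn_ind (p := fun w => τ (c.Tr (a * x * r * w)) = τ (c.Tr (w * (a * x * r)))) hw ?_
      (by simp) ?_ ?_
    · intro a' ha' x' hx' r' hr'
      obtain ⟨k, hk⟩ := c.rc r hr a' ha'
      obtain ⟨k', hk'⟩ := c.rc r' hr' a ha
      have h1 := c.Tr_fin a ha (x * (r * a') * x') _ hr'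
      have h2 := c.Tr_fin a' ha' (x' * (r' * a) * x) _ hr
      simp only [mul_assoc] at h1 h2 ⊢
      rw [h1, h2]
      simp only [ex hk, ex hk', smul_mul_assoc, mul_smul_comm, one_mul, map_smul, hτ x hx x' hx',
        smul_eq_mul]
      ring
    · intro x y hx hy; rw [add_mul, mul_add, map_add, map_add, map_add, map_add, hx, hy]
    · intro k x hx
      rw [smul_mul_assoc, mul_smul_comm, map_smul, map_smul, map_smul, map_smul, hx]
  · intro x y hx hy; rw [add_mul, mul_add, map_add, map_add, map_add, map_add, hx, hy]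
  · intro k x hx; rw [smul_mul_assoc, mul_smul_comm, map_smul, map_smul, map_smul, map_smul, hx]

theorem tr_BT {τ : B →ₗ[ℚ] ℚ} {T : Subalgebra ℚ B} (hτ : IsTr τ T) {y w : B} (hy : y ∈ c.Fn T)
    (hw : w ∈ c.BT T) : τ (c.Tr (y * w)) = τ (c.Tr (w * y)) := by
  obtain ⟨m, hm, h⟩ := hw
  have h1 := c.tr_Fn hτ hy h
  have h2 := c.Tr_A (c.Fn_mono (Set.subset_univ _) hy) (c.MA m hm)
  rw [mul_sub, sub_mul, map_sub, map_sub, map_sub, map_sub, h2] at h1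
  linarith

theorem isTr_BT {τ : B →ₗ[ℚ] ℚ} {T : Subalgebra ℚ B} (hτ : IsTr τ T) :
    IsTr (τ ∘ₗ c.Tr) (c.BT T) := by
  rintro x ⟨m, hm, hx⟩ y hy
  obtain ⟨n, hn, hy'⟩ := id hy
  have h1 := c.tr_BT hτ hx hy
  have h2 := c.tr_BT hτ hy' (c.M_BT hm)
  have h3 := c.Tr_M _ (c.Mmul _ hm _ hn)
  have h4 := c.Tr_M _ (c.Mmul _ hn _ hm)
  simp only [mul_sub, sub_mul, map_sub, h3, h4, map_zero] at h1 h2
  simp only [LinearMap.comp_apply]
  linarith

theorem p2e : c.p2 * c.e = 0 := by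
  have h : c.p2 * (1 - (c.p1 + c.p2)) = 0 := by
    rw [mul_sub, mul_one, c.Mp _ c.p2M, sub_self]
  rw [c.he, mul_add, c.p21, ex h, zero_mul, add_zero]

theorem ep2 : c.e * c.p2 = 0 := by
  have h : (1 - (c.p1 + c.p2)) * c.p2 = 0 := by
    rw [sub_mul, one_mul, c.pM _ c.p2M, sub_self]
  rw [c.he, add_mul, c.p12, mul_assoc, ← c.aσ _ _ (c.MA _ c.p2M), ex h, zero_mul, add_zero]

theorem w0p2 : c.w0 * c.p2 = c.w0 := by rw [← c.w10, ex c.w01, c.p1w0]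
theorem w1p1 : c.w1 * c.p1 = c.w1 := by rw [← c.w01, ex c.w10, c.p2w1]
theorem w1p2 : c.w1 * c.p2 = 0 := by rw [← c.w1p1, mul_assoc, c.p12, mul_zero]
theorem p2w0 : c.p2 * c.w0 = 0 := by rw [← c.p1w0, ex c.p21, zero_mul]

end Core

namespace Pol

variable {c : Core B} (P : Pol c)

theorem k_eq : 1 - (c.p1 + c.p2) = P.cl * P.rl + P.cr * P.rr := by
  rw [← P.sum1, ← P.sum2]; abel

theorem Tr_l (x : B) : c.Tr (P.cl * P.rl * c.σ x) = x := by
  rw [mul_assoc, c.rσ x _ P.rlR, ← mul_assoc, c.Tr_fin _ P.clC _ _ P.rlR, P.ll, one_mul]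

include P in
theorem Tr_e : c.Tr c.e = c.e + c.e := by
  nth_rewrite 1 [c.he]
  rw [map_add, c.Tr_M _ c.p1M, zero_add, P.k_eq, add_mul, map_add, P.Tr_l]
  exact congrArg _ (P.swap.Tr_l _)

include P in
theorem Tr_one : c.Tr 1 = 1 + 1 := by
  have h : (1 : B) = (c.p1 + c.p2) + (P.cl * P.rl * c.σ 1 + P.cr * P.rr * c.σ 1) := by
    rw [map_one, mul_one, mul_one, ← P.k_eq]; abel
  nth_rewrite 1 [h]
  rw [map_add, c.Tr_M _ (add_mem c.p1M c.p2M), zero_add, map_add, P.Tr_l]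
  exact congrArg _ (P.swap.Tr_l _)

theorem εk : P.ε * (1 - (c.p1 + c.p2)) = P.cl * P.rl := by
  have h := P.swap.εcl
  rw [P.swap_ε, sub_mul, one_mul, sub_eq_self] at h
  have h' : P.ε * P.cr = 0 := h
  rw [P.k_eq, mul_add, ex P.εcl, ex h', zero_mul, add_zero]

theorem φ_comm {τ : B →ₗ[ℚ] ℚ} {T : Subalgebra ℚ B} (he : c.e ∈ T) (hτ : IsTr τ T) {y w : B}
    (hy : y ∈ c.Fn T) (hw : w ∈ P.D T) :
    τ (c.Tr (P.ε * (y * w))) = τ (c.Tr (P.ε * (w * y))) := by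
  obtain ⟨h1, h2⟩ := P.mem_D.mp hw
  rw [← mul_assoc, c.tr_BT hτ (P.ε_mul_Fn he hy) h1, ex h2, mul_assoc]

end Pol

namespace Shift

variable {c : Core B} {P : Pol c} (s : Shift P)

/-- the element that is not unit-regular -/
def z : B := s.sa * c.w1 + c.p2
def z' : B := c.w0 * s.sb + c.p2

theorem w0D {T : Subalgebra ℚ B} : c.w0 ∈ P.D T := P.M_mem_D c.w0M P.πw0 P.π'w0
theorem w1D {T : Subalgebra ℚ B} : c.w1 ∈ P.D T := P.M_mem_D c.w1M P.πw1 P.π'w1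
theorem p2D {T : Subalgebra ℚ B} : c.p2 ∈ P.D T := P.M_mem_D c.p2M P.πp2 P.π'p2

theorem z_mem {T : Subalgebra ℚ B} (he : c.e ∈ T) : s.z ∈ P.D T :=
  add_mem (mul_mem (s.sa_mem he) w1D) p2D

theorem z'_mem {T : Subalgebra ℚ B} (he : c.e ∈ T) : s.z' ∈ P.D T :=
  add_mem (mul_mem w0D (s.sb_mem he)) p2D

theorem index {τ : B →ₗ[ℚ] ℚ} {T : Subalgebra ℚ B} (he : c.e ∈ T) (hτ : IsTr τ T) :
    τ (c.Tr (P.ε * (s.z * s.z' - s.z' * s.z))) = τ c.e - τ (1 - c.e) := by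
  obtain ⟨Y, hY⟩ : ∃ Y, Y = 1 - c.e - c.p2 := ⟨_, rfl⟩
  have Y1 : Y = (1 - (c.p1 + c.p2)) * c.σ (1 - c.e) := by
    rw [hY]; nth_rewrite 1 [c.he]
    rw [map_sub, map_one, mul_sub, mul_one]; abel
  have YF : Y ∈ c.Fn T := by rw [Y1]; exact c.one_mul_σ (sub_mem (one_mem T) he) c.kfin
  have YD : Y ∈ P.D T := by rw [hY]; exact sub_mem (sub_mem (one_mem _) (P.e_mem_D he)) p2D
  have h1 : c.p2 * s.sa = 0 := by rw [← s.e_sa, ex c.p2e, zero_mul]
  have h2 : s.sb * c.p2 = 0 := by rw [← s.sb_e, mul_assoc, c.ep2, mul_zero]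
  have h3 : c.w0 * c.e = 0 := by rw [← c.w0p2, mul_assoc, c.p2e, mul_zero]
  have c0 := (P.mem_D.mp (w0D (P := P) (T := T))).2
  have cY := (P.mem_D.mp YD).2
  have e1 : s.sa * (c.p2 * s.sb) = s.sa * s.sb - s.sa * (Y * s.sb) := by
    rw [hY]; simp only [sub_mul, mul_sub, one_mul, s.e_sb, mul_zero]; abel
  have e2 : P.ε * (c.w0 * (s.sb * (s.sa * c.w1))) = P.ε * c.p1 := by
    have := s.ε_ba
    rw [mul_assoc] at this
    rw [ex c0, mul_assoc, ex3 this, ← mul_assoc, ← mul_assoc, ← c0]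
    simp only [mul_assoc, sub_mul, mul_sub, one_mul, ex h3, zero_mul, mul_zero, sub_zero, c.w01]
  have e3 : P.ε * (s.z * s.z' - s.z' * s.z)
      = P.cl * P.rl * c.σ c.e - P.ε * (s.sa * (Y * s.sb)) := by
    have hab := s.ε_ab
    rw [mul_assoc] at hab
    have : P.ε * c.e = P.ε * c.p1 + P.cl * P.rl * c.σ c.e := by
      nth_rewrite 1 [c.he]
      rw [mul_add, ex P.εk]
    simp only [z, z', mul_add, add_mul, mul_sub, mul_assoc, ex c.w10, c.w1p2, ex c.p2w0, c.p22,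
      ex h1, h2, zero_mul, mul_zero, e1, e2, hab, this]
    abel
  have e4 : P.ε * (Y * s.sb * s.sa) = P.cl * P.rl * c.σ (1 - c.e) := by
    have hba := s.ε_ba
    rw [mul_assoc] at hba
    have : Y * (1 - c.e) = Y := by
      rw [hY]; simp only [sub_mul, mul_sub, one_mul, mul_one, c.ee, c.p2e]; abel
    rw [mul_assoc, ex cY, mul_assoc, hba, ← mul_assoc, ← cY, mul_assoc, this, Y1, ex P.εk]
  rw [e3, map_sub, map_sub, P.Tr_l,
    ← P.φ_comm he hτ (c.Fn_mul_BT (P.mem_D.mp (s.sb_mem he)).1 YF) (s.sa_mem he), e4, P.Tr_l]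

theorem not_ur {τ : B →ₗ[ℚ] ℚ} {T : Subalgebra ℚ B} (he : c.e ∈ T) (hτ : IsTr τ T)
    (hne : τ c.e ≠ τ (1 - c.e)) {u v : B} (hu : u ∈ P.D T) (hv : v ∈ P.D T) (h1 : u * v = 1)
    (h2 : v * u = 1) (h3 : s.z * u * s.z = s.z) : False := by
  obtain ⟨d, hd⟩ : ∃ d, d = s.ma * c.w1 + c.p2 := ⟨_, rfl⟩
  obtain ⟨d', hd'⟩ : ∃ d', d' = c.w0 * s.mb + c.p2 := ⟨_, rfl⟩
  have dM : d ∈ c.M := by rw [hd]; exact add_mem (c.Mmul _ s.maM _ c.w1M) c.p2M
  have d'M : d' ∈ c.M := by rw [hd']; exact add_mem (c.Mmul _ c.w0M _ s.mbM) c.p2M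
  have dd' : d * d' = c.p1 + c.p2 := by
    rw [hd, hd']
    simp only [mul_add, add_mul, mul_assoc, ex c.w10, s.p2b, s.ab, c.w1p2, ex c.p2w0, c.p22,
      mul_zero, zero_mul, add_zero, zero_add]
  have d'd : d' * d = c.p1 + c.p2 := by
    rw [hd, hd']
    simp only [mul_add, add_mul, mul_assoc, ex s.ba, c.p2w1, c.w01, s.bp2, ex s.p2a, c.p22,
      mul_zero, zero_mul, add_zero, zero_add]
  have zd : s.z - d ∈ c.Fn T := by
    rw [hd, z, add_sub_add_right_eq_sub, ← sub_mul]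
    exact c.Fn_mul_A (c.MA _ c.w1M) (s.sa_sub he)
  have zd' : s.z' - d' ∈ c.Fn T := by
    rw [hd', z', add_sub_add_right_eq_sub, ← mul_sub]
    exact c.A_mul_Fn (c.MA _ c.w0M) (s.sb_sub he)
  have zB := (P.mem_D.mp (s.z_mem he)).1
  have uB := (P.mem_D.mp hu).1
  have vB := (P.mem_D.mp hv).1
  obtain ⟨m, hm, um⟩ := id uB
  obtain ⟨n, hn, vn⟩ := id vB
  have a1 : d * m * d - d = 0 := by
    refine c.Mfin _ (sub_mem (c.Mmul _ (c.Mmul _ dM _ hm) _ dM) dM)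
      (c.Fn_mono (X := T) (Set.subset_univ _) ?_)
    have : d * m * d - d = (s.z - d) - (s.z - d) * (u * s.z) - d * (u - m) * s.z
        - d * m * (s.z - d) + (s.z * u * s.z - s.z) := by noncomm_ring
    rw [this, h3, sub_self, add_zero]
    exact sub_mem (sub_mem (sub_mem zd (c.Fn_mul_BT (mul_mem uB zB) zd))
      (c.Fn_mul_BT zB (c.A_mul_Fn (c.MA _ dM) um))) (c.A_mul_Fn (c.MA _ (c.Mmul _ dM _ hm)) zd)
  have a2 : m = d' := by
    have := congrArg (fun t => d' * t * d') (sub_eq_zero.mp a1)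
    simp only [mul_assoc, dd', ex d'd] at this
    rwa [c.Mp _ hm, c.pM _ hm, c.Mp _ d'M] at this
  have a3 : m * n - (c.p1 + c.p2) = 0 := by
    refine c.Mfin _ (sub_mem (c.Mmul _ hm _ hn) (add_mem c.p1M c.p2M))
      (c.Fn_mono (X := T) (Set.subset_univ _) ?_)
    have : m * n - (c.p1 + c.p2) = (u * v - (c.p1 + c.p2)) - (u - m) * v - m * (v - n) := by
      noncomm_ring
    rw [this, h1]
    exact sub_mem (sub_mem (c.one_le c.kfin) (c.Fn_mul_BT vB um)) (c.A_mul_Fn (c.MA _ hm) vn)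
  have a4 : n = d := by
    have := congrArg (fun t => d * t) (sub_eq_zero.mp a3)
    simp only [a2, ex dd'] at this
    rwa [c.pM _ hn, c.Mp _ dM] at this
  rw [a2] at um
  rw [a4] at vn
  have y1 : v - s.z ∈ c.Fn T := by simpa using sub_mem vn zd
  have y2 : u - s.z' ∈ c.Fn T := by simpa using sub_mem um zd'
  have i1 := P.φ_comm he hτ y1 (s.z'_mem he)
  have i2 := P.φ_comm he hτ y2 hv
  have i3 := s.index he hτ
  simp only [mul_sub, sub_mul, map_sub, h1, h2] at i1 i2 i3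
  apply hne
  rw [map_sub]
  linarith

end Shift

end Pool.Agent.MP_9ea0f9_al.H6
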