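import Pool.Agent.MP_9ea0f9_al.H6.F

set_option autoImplicit false

/-! Prime ideals of a fixed point `J = D J`: the base case and the induction step. -/

namespace Pool.Agent.MP_9ea0f9_al.H6

universe u

variable {B : Type u} [Ring B] [Algebra ℚ B]

/-- `I` is a two-sided ideal of `J` that is prime or all of `J` -/
structure PI (J : Subalgebra ℚ B) (I : Set B) : Prop where
  sub : ∀ x ∈ I, x ∈ J
  zero : (0 : B) ∈ I
  add : ∀ x ∈ I, ∀ y ∈ I, x + y ∈ I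
  ml : ∀ r ∈ J, ∀ x ∈ I, r * x ∈ I
  mr : ∀ r ∈ J, ∀ x ∈ I, x * r ∈ I
  prime : ∀ a ∈ J, ∀ b ∈ J, (∀ r ∈ J, a * r * b ∈ I) → a ∈ I ∨ b ∈ I

namespace PI

variable {J : Subalgebra ℚ B} {I : Set B} (h : PI J I)
include h

theorem smul (k : ℚ) {x : B} (hx : x ∈ I) : k • x ∈ I := by
  simpa using h.ml _ (J.smul_mem J.one_mem k) x hx

theorem neg {x : B} (hx : x ∈ I) : -x ∈ I := by simpa using h.smul (-1) hx

theorem sub' {x y : B} (hx : x ∈ I) (hy : y ∈ I) : x - y ∈ I := by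
  rw [sub_eq_add_neg]; exact h.add _ hx _ (h.neg hy)

theorem quot {T : Subalgebra ℚ B} (hT : T ≤ J) :
    ∃ (S : Type u) (_ : Ring S) (F : B → S),
      (∀ x ∈ T, ∀ y ∈ T, F (x * y) = F x * F y) ∧ (∀ x ∈ T, ∀ y ∈ T, F (x + y) = F x + F y) ∧
      F 1 = 1 ∧ (∀ x ∈ T, ∀ y ∈ T, F x = F y ↔ x - y ∈ I) ∧ ∀ z, ∃ x ∈ T, F x = z := by
  classical
  let K : TwoSidedIdeal T := TwoSidedIdeal.mk' {x | (x : B) ∈ I} h.zero
    (fun {x y} hx hy => h.add _ hx _ hy) (fun {x} hx => h.neg hx)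
    (fun {x y} hy => h.ml _ (hT x.2) _ hy) (fun {x y} hx => h.mr _ (hT y.2) _ hx)
  refine ⟨K.ringCon.Quotient, inferInstance,
    fun x => if hx : x ∈ T then K.ringCon.mk' ⟨x, hx⟩ else 0, ?_, ?_, ?_, ?_, ?_⟩
  · intro x hx y hy
    simp only [dif_pos hx, dif_pos hy, dif_pos (T.mul_mem hx hy), ← map_mul]
    rfl
  · intro x hx y hy
    simp only [dif_pos hx, dif_pos hy, dif_pos (T.add_mem hx hy), ← map_add]
    rfl
  · simp only [dif_pos T.one_mem]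
    exact map_one _
  · intro x hx y hy
    simp only [dif_pos hx, dif_pos hy]
    rw [RingCon.coe_mk', RingCon.eq, TwoSidedIdeal.rel_iff, TwoSidedIdeal.mem_mk']
    rfl
  · intro z
    obtain ⟨x, rfl⟩ := K.ringCon.mk'_surjective z
    exact ⟨x, x.2, by simp only [dif_pos x.2]⟩

end PI

/-- the induction statement -/
def Good (c : Core B) (J : Subalgebra ℚ B) (I : Set B) (Z : Subalgebra ℚ B) : Prop :=
  ∃ T : Subalgebra ℚ B, Z ≤ T ∧ T ≤ J ∧ c.e ∈ T ∧ Core.RegS T ∧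
    (∀ x ∈ T, ∃ u ∈ T, ∃ v ∈ T, u * v - 1 ∈ I ∧ v * u - 1 ∈ I ∧ x * u * x - x ∈ I) ∧
    ∃ a ∈ T, ∃ b ∈ T, c.e * a = a ∧ a * c.e = 0 ∧ c.e * b = 0 ∧ b * c.e = b ∧
      a * b - c.e ∈ I ∧ b * a - (1 - c.e) ∈ I

namespace Core

variable (c : Core B)

/-- the span of `e` and `1 - e` -/
def J0 : Subalgebra ℚ B where
  carrier := {x | ∃ s t : ℚ, x = s • c.e + t • (1 - c.e)}
  mul_mem' := by
    rintro x y ⟨s, t, rfl⟩ ⟨s', t', rfl⟩
    refine ⟨s * s', t * t', ?_⟩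
    simp only [mul_add, add_mul, smul_mul_assoc, mul_smul_comm, mul_sub, sub_mul, mul_one, one_mul,
      c.ee]
    module
  add_mem' := by
    rintro x y ⟨s, t, rfl⟩ ⟨s', t', rfl⟩
    exact ⟨s + s', t + t', by module⟩
  algebraMap_mem' := fun k => ⟨k, k, by rw [Algebra.algebraMap_eq_smul_one]; module⟩

theorem e_J0 : c.e ∈ c.J0 := ⟨1, 0, by simp⟩

theorem J0_le {T : Subalgebra ℚ B} (he : c.e ∈ T) : c.J0 ≤ T := by
  rintro x ⟨s, t, rfl⟩
  exact add_mem (T.smul_mem he s) (T.smul_mem (sub_mem T.one_mem he) t)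

theorem J0_reg : RegS c.J0 := by
  rintro x ⟨s, t, rfl⟩
  refine ⟨_, ⟨s⁻¹, t⁻¹, rfl⟩, ?_⟩
  have h1 : s * s⁻¹ * s = s := by by_cases h : s = 0 <;> simp [h]
  have h2 : t * t⁻¹ * t = t := by by_cases h : t = 0 <;> simp [h]
  have : (s • c.e + t • (1 - c.e)) * (s⁻¹ • c.e + t⁻¹ • (1 - c.e)) * (s • c.e + t • (1 - c.e))
      = (s * s⁻¹ * s) • c.e + (t * t⁻¹ * t) • (1 - c.e) := by
    simp only [mul_add, add_mul, smul_mul_assoc, mul_smul_comm, mul_sub, sub_mul, mul_one, one_mul,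
      c.ee, smul_sub, smul_add]
    module
  rw [this, h1, h2]

theorem J0_tr (τ : B →ₗ[ℚ] ℚ) : IsTr τ c.J0 := by
  rintro x ⟨s, t, rfl⟩ y ⟨s', t', rfl⟩
  congr 1
  simp only [mul_add, add_mul, smul_mul_assoc, mul_smul_comm, mul_sub, sub_mul, mul_one, one_mul,
    c.ee]
  module

theorem base {J : Subalgebra ℚ B} {I : Set B} (h : PI J I) (he : c.e ∈ J) (hJ : RegS J) {a b : B}
    (ha : a ∈ J) (hb : b ∈ J) (ea : c.e * a = a) (ae : a * c.e = 0) (eb : c.e * b = 0)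
    (be : b * c.e = b) (ab : a * b - c.e ∈ I) (ba : b * a - (1 - c.e) ∈ I) :
    Good c J I c.J0 := by
  let ψ : Matrix (Fin 2) (Fin 2) ℚ → B := fun m =>
    m 0 0 • c.e + m 0 1 • a + m 1 0 • b + m 1 1 • (1 - c.e)
  have ψJ : ∀ m, ψ m ∈ J := fun m => add_mem (add_mem (add_mem (J.smul_mem he _) (J.smul_mem ha _))
    (J.smul_mem hb _)) (J.smul_mem (sub_mem J.one_mem he) _)
  have aa : a * a = 0 := by rw [← ea, mul_assoc, ex ae, zero_mul, mul_zero]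
  have bb : b * b = 0 := by rw [← be, mul_assoc, ex eb, zero_mul, mul_zero]
  have ψmul : ∀ m n, ψ m * ψ n - ψ (m * n) ∈ I := fun m n => by
    have : ψ m * ψ n - ψ (m * n)
        = (m 0 1 * n 1 0) • (a * b - c.e) + (m 1 0 * n 0 1) • (b * a - (1 - c.e)) := by
      simp only [ψ, Matrix.mul_apply, Fin.sum_univ_two, mul_add, add_mul, smul_mul_assoc,
        mul_smul_comm, mul_sub, sub_mul, mul_one, one_mul, c.ee, ea, ae, eb, be, aa, bb]
      module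
    rw [this]; exact h.add _ (h.smul _ ab) _ (h.smul _ ba)
  have ψ1 : ψ 1 = 1 := by simp [ψ]
  have hmul : ∀ x ∈ J, ∀ y ∈ J, ∀ m n, x - ψ m ∈ I → y - ψ n ∈ I → x * y - ψ (m * n) ∈ I := by
    intro x hx y hy m n h1 h2
    have : x * y - ψ (m * n) = (x - ψ m) * y + ψ m * (y - ψ n) + (ψ m * ψ n - ψ (m * n)) := by
      noncomm_ring
    rw [this]
    exact h.add _ (h.add _ (h.mr _ hy _ h1) _ (h.ml _ (ψJ m) _ h2)) _ (ψmul m n)
  have h0 : ∀ m, ψ m - ψ m ∈ I := fun m => by rw [sub_self]; exact h.zero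
  let T : Subalgebra ℚ B :=
    { carrier := {x | x ∈ J ∧ ∃ m, x - ψ m ∈ I}
      mul_mem' := by
        rintro x y ⟨hx, m, hm⟩ ⟨hy, n, hn⟩
        exact ⟨J.mul_mem hx hy, m * n, hmul x hx y hy m n hm hn⟩
      add_mem' := by
        rintro x y ⟨hx, m, hm⟩ ⟨hy, n, hn⟩
        refine ⟨J.add_mem hx hy, m + n, ?_⟩
        have : x + y - ψ (m + n) = (x - ψ m) + (y - ψ n) := by
          simp only [ψ, Matrix.add_apply]; module
        rw [this]; exact h.add _ hm _ hn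
      algebraMap_mem' := fun k => ⟨J.algebraMap_mem k, k • 1, by
        have : algebraMap ℚ B k - ψ (k • 1) = 0 := by
          rw [Algebra.algebraMap_eq_smul_one]; simp [ψ]; module
        rw [this]; exact h.zero⟩ }
  have ψT : ∀ m, ψ m ∈ T := fun m => ⟨ψJ m, m, h0 m⟩
  have IT : ∀ x ∈ I, x ∈ T := fun x hx => ⟨h.sub x hx, 0, by simpa [ψ] using hx⟩
  have eT : c.e ∈ T := by simpa [ψ] using ψT !![1, 0; 0, 0]
  have hur : ∀ x ∈ T, ∃ u ∈ T, ∃ v ∈ T, u * v - 1 ∈ I ∧ v * u - 1 ∈ I ∧ x * u * x - x ∈ I := by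
    rintro x ⟨hx, m, hm⟩
    obtain ⟨u, v, h1, h2, h3⟩ := ur_matrix m
    refine ⟨ψ u, ψT u, ψ v, ψT v, ?_, ?_, ?_⟩
    · have := ψmul u v; rwa [h1, ψ1] at this
    · have := ψmul v u; rwa [h2, ψ1] at this
    · have := hmul _ (J.mul_mem hx (ψJ u)) x hx _ _ (hmul x hx _ (ψJ u) m u hm (h0 u)) hm
      rw [h3] at this
      simpa using h.sub' this hm
  refine ⟨T, c.J0_le eT, fun x hx => hx.1, eT, ?_, hur, a, by simpa [ψ] using ψT !![0, 1; 0, 0],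
    b, by simpa [ψ] using ψT !![0, 0; 1, 0], ea, ae, eb, be, ab, ba⟩
  intro x hx
  obtain ⟨u, hu, -, -, -, -, h3⟩ := hur x hx
  have h4 : x - x * u * x ∈ I := by simpa using h.neg h3
  obtain ⟨y, hy⟩ : ∃ y, y = x - x * u * x := ⟨_, rfl⟩
  obtain ⟨w, hw, h5⟩ := hJ _ (h.sub _ h4)
  have h6 : (x - x * u * x) * (w * (x - x * u * x) * w) * (x - x * u * x) = x - x * u * x := by
    rw [← hy] at h5 ⊢
    rw [mul_assoc] at h5
    simp only [mul_assoc, h5]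
  refine ⟨_, ?_, mccoy h6⟩
  exact add_mem hu (mul_mem (mul_mem (sub_mem (one_mem _) (mul_mem hu hx))
    (IT _ (h.mr _ hw _ (h.ml _ hw _ h4)))) (sub_mem (one_mem _) (mul_mem hx hu)))

end Core

end Pool.Agent.MP_9ea0f9_al.H6
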