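import Pool.Agent.MP_9ea0f9_al.H6.G

set_option autoImplicit false

/-! The induction step for prime ideals. -/

namespace Pool.Agent.MP_9ea0f9_al.H6

universe u

variable {B : Type u} [Ring B] [Algebra ℚ B]

namespace Pol

variable {c : Core B} (P : Pol c)

theorem corner_mem {T : Subalgebra ℚ B} (he : c.e ∈ T) {t : B} (ht : t ∈ T) :
    P.cl * t * P.rl ∈ P.D T := by
  have := P.εFε_mem he (c.mem_Fn (X := T) P.clC ht P.rlR)
  simpa only [mul_assoc, ex P.εcl, P.rlε] using this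

theorem split (a x r : B) :
    P.ε * (a * x * r) * P.ε
      = (P.ε * (a * 1 * P.rl) * P.ε) * (P.cl * x * P.rl) * (P.ε * (P.cl * 1 * r) * P.ε) := by
  simp only [mul_assoc, one_mul, ex P.εcl, ex P.rlε, ex P.ll]

/-- the ideal seen through the left corner -/
def down (J : Subalgebra ℚ B) (I : Set B) : Set B := {x | x ∈ J ∧ P.cl * x * P.rl ∈ I}

theorem down_PI {J : Subalgebra ℚ B} {I : Set B} (he : c.e ∈ J) (hJ : P.D J = J) (h : PI J I) :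
    PI J (P.down J I) := by
  have cm : ∀ t ∈ J, P.cl * t * P.rl ∈ J := fun t ht => hJ ▸ P.corner_mem he ht
  refine ⟨fun x hx => hx.1, ⟨zero_mem _, by simpa using h.zero⟩, ?_, ?_, ?_, ?_⟩
  · rintro x ⟨h1, h2⟩ y ⟨h3, h4⟩
    exact ⟨add_mem h1 h3, by rw [mul_add, add_mul]; exact h.add _ h2 _ h4⟩
  · rintro r hr x ⟨h1, h2⟩
    refine ⟨mul_mem hr h1, ?_⟩
    have := h.ml _ (cm r hr) _ h2
    simpa only [mul_assoc, ex P.ll, one_mul] using this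
  · rintro r hr x ⟨h1, h2⟩
    refine ⟨mul_mem h1 hr, ?_⟩
    have := h.mr _ (cm r hr) _ h2
    simpa only [mul_assoc, ex P.ll, one_mul] using this
  · intro a ha b hb hab
    refine (h.prime _ (cm a ha) _ (cm b hb) fun r hr => ?_).imp (fun h => ⟨ha, h⟩) (fun h => ⟨hb, h⟩)
    have h1 : P.rl * r * P.cl ∈ J := c.r_BT_c P.rlR P.clC (P.mem_D.mp (hJ.symm ▸ hr)).1
    have := (hab _ h1).2
    simpa only [mul_assoc] using this

theorem up_mem {J : Subalgebra ℚ B} {I : Set B} (he : c.e ∈ J) (hJ : P.D J = J) (h : PI J I)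
    {y : B} (hy : y ∈ c.Fn (P.down J I)) : P.ε * y * P.ε ∈ I := by
  refine c.Fn_ind (p := fun y => P.ε * y * P.ε ∈ I) hy ?_ (by simpa using h.zero) ?_ ?_
  · intro a ha x hx r hr
    rw [P.split]
    exact h.mr _ (hJ ▸ P.εFε_mem he (c.mem_Fn (X := J) P.clC J.one_mem hr)) _
      (h.ml _ (hJ ▸ P.εFε_mem he (c.mem_Fn (X := J) ha J.one_mem P.rlR)) _ hx.2)
  · intro x y hx hy; rw [mul_add, add_mul]; exact h.add _ hx _ hy
  · intro k x hx; rw [mul_smul_comm, smul_mul_assoc]; exact h.smul k hx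

theorem side {J : Subalgebra ℚ B} {I : Set B} (he : c.e ∈ J) (hJ : P.D J = J) (h : PI J I) :
    (∀ y ∈ c.Fn J, P.swap.ε * y * P.swap.ε ∈ I) ∨ (∀ y ∈ c.Fn J, P.ε * y * P.ε ∈ I) := by
  by_contra hc
  push Not at hc
  obtain ⟨⟨y, hy, h1⟩, ⟨y', hy', h2⟩⟩ := hc
  have m1 : P.swap.ε * y * P.swap.ε ∈ J := by
    have := P.swap.εFε_mem he hy
    rwa [P.swap_D, hJ] at this
  have m2 : P.ε * y' * P.ε ∈ J := hJ ▸ P.εFε_mem he hy'
  refine (h.prime _ m1 _ m2 fun r hr => ?_).elim h1 h2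
  have hr' := (P.mem_D.mp (hJ.symm ▸ hr)).2
  have h3 : P.swap.ε * P.ε = 0 := by rw [P.swap_ε, sub_mul, one_mul, P.εε, sub_self]
  simp only [mul_assoc, ex hr'.symm, ex h3, zero_mul, mul_zero]
  exact h.zero

theorem killed {J : Subalgebra ℚ B} {I : Set B}
    (hR : ∀ y ∈ c.Fn J, P.swap.ε * y * P.swap.ε ∈ I) {w : B} (h1 : w ∈ c.Fn J)
    (h2 : P.ε * w = w * P.ε) (h3 : P.ε * w = 0) : w ∈ I := by
  have := hR w h1
  rwa [P.swap_ε, sub_mul, one_mul, h3, sub_zero, mul_sub, mul_one, ← h2, h3, sub_zero] at this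

theorem εmε {m : B} (hm : m ∈ c.M) :
    P.ε * m * P.ε = c.pr (P.π * m * P.π) (P.π' * m * P.π') := by
  have mA := c.MA m hm
  nth_rewrite 1 [← c.pr_self m]
  rw [ε, c.pr_mul _ _ mA mA, c.pr_mul _ _ P.e1A P.e2A]
  simp only [mul_add, add_mul, mul_assoc, ex (P.rlm hm), ex (P.mcl hm), zero_mul, mul_zero,
    add_zero]

/-- off-diagonal correction -/
def N (a b m : B) : B := P.π * m * P.π' * c.σ a + P.π' * m * P.π * c.σ b

/-- the lifting of `M` used modulo the prime -/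
def Y (a b m : B) : B := P.Δ m + P.N a b m

theorem εN {a b : B} (ea : c.e * a = a) (eb : c.e * b = 0) {m : B} (hm : m ∈ c.M) :
    P.ε * P.N a b m = P.N a b m := by
  have h1 := (c.aσ c.e _ P.πA).symm
  have h2 := (c.aσ c.e _ P.π'A).symm
  have h3 := (c.aσ c.e _ (c.MA m hm)).symm
  have h4 : c.σ c.e * c.σ a = c.σ a := by rw [← map_mul, ea]
  have h5 : c.σ c.e * c.σ b = 0 := by rw [← map_mul, eb, map_zero]
  simp only [ε, Core.pr, N, mul_add, add_mul, mul_sub, sub_mul, one_mul, mul_one, mul_assoc,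
    ex h1, ex h2, ex h3, h4, h5, ex P.ππ, ex P.π'π', ex P.ππ', ex P.π'π, ex P.rlπ, ex P.rlπ',
    zero_mul, mul_zero]
  abel

theorem Nε {a b : B} (ae : a * c.e = 0) (be : b * c.e = b) {m : B} :
    P.N a b m * P.ε = P.N a b m := by
  have h4 : c.σ a * c.σ c.e = 0 := by rw [← map_mul, ae, map_zero]
  have h5 : c.σ b * c.σ c.e = c.σ b := by rw [← map_mul, be]
  have t1 : ∀ x y, c.σ x * (P.π * y) = P.π * (c.σ x * y) := fun x y => by
    rw [ex (c.aσ x _ P.πA).symm, mul_assoc]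
  have t2 : ∀ x y, c.σ x * (P.π' * y) = P.π' * (c.σ x * y) := fun x y => by
    rw [ex (c.aσ x _ P.π'A).symm, mul_assoc]
  have t3 : ∀ x y, c.σ x * (P.cl * y) = P.cl * (x * y) := fun x y => by
    rw [ex (c.σc x _ P.clC), mul_assoc]
  have t4 : ∀ x, c.σ x * P.π' = P.π' * c.σ x := fun x => (c.aσ x _ P.π'A).symm
  simp only [ε, Core.pr, N, add_mul, mul_add, mul_sub, mul_one, mul_assoc, t1, t2, t3, t4, h4, h5,
    ex P.ππ, ex P.π'π', ex P.ππ', ex P.π'π, ex P.πcl, ex P.π'cl, zero_mul, mul_zero]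
  abel

theorem N_Fn {T : Subalgebra ℚ B} {a b : B} (ha : a ∈ T) (hb : b ∈ T) {m : B} (hm : m ∈ c.M) :
    P.N a b m ∈ c.Fn T :=
  add_mem (c.one_mul_σ ha (P.hank m hm)) (c.one_mul_σ hb (P.hank' m hm))

theorem Y_mul {J : Subalgebra ℚ B} {I : Set B} (he : c.e ∈ J) (hJ : P.D J = J) (h : PI J I)
    (hR : ∀ y ∈ c.Fn J, P.swap.ε * y * P.swap.ε ∈ I) {a b : B}
    (ea : c.e * a = a) (ae : a * c.e = 0) (eb : c.e * b = 0) (be : b * c.e = b)
    (ab : a * b - c.e ∈ P.down J I) (ba : b * a - (1 - c.e) ∈ P.down J I)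
    {m n : B} (hm : m ∈ c.M) (hn : n ∈ c.M) : P.Y a b m * P.Y a b n - P.Y a b (m * n) ∈ I := by
  have mA := c.MA m hm
  have nA := c.MA n hn
  have hmn := c.Mmul _ hm _ hn
  obtain ⟨L, hL⟩ : ∃ L : B → B, L = fun m => P.ε * m * P.ε + P.N a b m := ⟨_, rfl⟩
  have εL : ∀ m ∈ c.M, P.ε * L m = L m := fun m hm => by
    simp only [hL, mul_add, P.εN ea eb hm, mul_assoc, ex P.εε]
  have Lε : ∀ m, L m * P.ε = L m := fun m => by
    simp only [hL, add_mul, P.Nε ae be, mul_assoc, P.εε]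
  have hY : ∀ m, P.Y a b m = L m + P.swap.ε * m * P.swap.ε := fun m => by
    simp only [hL, Y, Δ]; abel
  have z1 : P.swap.ε * P.ε = 0 := by rw [P.swap_ε, sub_mul, one_mul, P.εε, sub_self]
  have z2 : P.ε * P.swap.ε = 0 := by rw [P.swap_ε, mul_sub, mul_one, P.εε, sub_self]
  have z3 : L m * P.swap.ε = 0 := by rw [← Lε, mul_assoc, z2, mul_zero]
  have z4 : P.swap.ε * L n = 0 := by rw [← εL n hn, ex z1, zero_mul]
  have aa : a * a = 0 := by rw [← ea, mul_assoc, ex ae, zero_mul, mul_zero]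
  have bb : b * b = 0 := by rw [← be, mul_assoc, ex eb, zero_mul, mul_zero]
  obtain ⟨W, hW⟩ : ∃ W, W = P.π * m * P.π' * (n * P.π) * c.σ (a * b - c.e)
      + P.π' * m * P.π * (n * P.π') * c.σ (b * a - (1 - c.e)) := ⟨_, rfl⟩
  have WF : W ∈ c.Fn (P.down J I) := by
    rw [hW]
    exact add_mem (c.one_mul_σ ab (c.Fn_mul_A (mul_mem nA P.πA) (P.hank m hm)))
      (c.one_mul_σ ba (c.Fn_mul_A (mul_mem nA P.π'A) (P.hank' m hm)))
  have e1 : L m * L n - L (m * n) = W := by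
    have hx : ∀ x, m * (n * x) = m * (P.π * (n * x)) + m * (P.π' * (n * x)) := fun x => by
      rw [← mul_add, ← add_mul, ex (P.pm hn)]
    have s1 : c.σ c.e * c.σ a = c.σ a := by rw [← map_mul, ea]
    have s2 : c.σ c.e * c.σ b = 0 := by rw [← map_mul, eb, map_zero]
    have s3 : c.σ a * c.σ c.e = 0 := by rw [← map_mul, ae, map_zero]
    have s4 : c.σ b * c.σ c.e = c.σ b := by rw [← map_mul, be]
    have s5 : c.σ a * c.σ a = 0 := by rw [← map_mul, aa, map_zero]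
    have s6 : c.σ b * c.σ b = 0 := by rw [← map_mul, bb, map_zero]
    have t1 : ∀ x y, c.σ x * (P.π * y) = P.π * (c.σ x * y) := fun x y => by
      rw [ex (c.aσ x _ P.πA).symm, mul_assoc]
    have t2 : ∀ x y, c.σ x * (P.π' * y) = P.π' * (c.σ x * y) := fun x y => by
      rw [ex (c.aσ x _ P.π'A).symm, mul_assoc]
    have t3 : ∀ x y, c.σ x * (n * y) = n * (c.σ x * y) := fun x y => by
      rw [ex (c.aσ x _ nA).symm, mul_assoc]
    have t4 : ∀ x, c.σ x * P.π' = P.π' * c.σ x := fun x => (c.aσ x _ P.π'A).symm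
    simp only [hL, hW, P.εmε hm, P.εmε hn, P.εmε hmn, Core.pr, N, map_sub, map_mul, map_one]
    simp only [mul_add, add_mul, mul_sub, sub_mul, one_mul, mul_one, mul_assoc, hx, t1, t2, t3, t4,
      s1, s2, s3, s4, s5, s6, c.σee, ex P.ππ, ex P.π'π', ex P.ππ', ex P.π'π, zero_mul, mul_zero]
    abel
  have e2 : P.ε * W * P.ε = W := by
    rw [← e1, mul_sub, sub_mul, ex (εL m hm), εL _ hmn, mul_assoc, Lε, Lε]
  have e3 : P.Y a b m * P.Y a b n - P.Y a b (m * n)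
      = W - P.swap.ε * (m * (P.ε * n * P.swap.ε)) * P.swap.ε := by
    have h5 : P.ε = 1 - P.swap.ε := by rw [P.swap_ε]; abel
    rw [hY, hY, hY, ← e1]
    nth_rewrite 1 [h5]
    simp only [mul_add, add_mul, mul_sub, sub_mul, one_mul, mul_assoc, ex z3, z4, P.swap.εε,
      ex P.swap.εε, zero_mul, mul_zero]
    abel
  rw [e3]
  exact h.sub' (e2 ▸ P.up_mem he hJ h WF) (hR _ (c.A_mul_Fn mA (P.off_M he hn)))

theorem pD {T : Subalgebra ℚ B} : c.p1 + c.p2 ∈ P.D T :=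
  P.M_mem_D (add_mem c.p1M c.p2M) (by rw [mul_add, add_mul, P.πp1, P.πp2])
    (by rw [mul_add, add_mul, P.π'p1, P.π'p2])

theorem Y_p (a b : B) : P.Y a b (c.p1 + c.p2) = c.p1 + c.p2 := by
  have h1 := (P.mem_D.mp (P.pD (T := ⊤))).2
  have h2 : P.π * (c.p1 + c.p2) = P.π := by rw [← P.sum1, mul_add, P.ππ, P.ππ', add_zero]
  have h3 : P.π' * (c.p1 + c.p2) = P.π' := by rw [← P.sum1, mul_add, P.π'π, P.π'π', zero_add]
  rw [Y, N, h2, h3, P.ππ', P.π'π, Δ, P.swap_ε]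
  generalize c.p1 + c.p2 = p at h1
  simp only [mul_sub, sub_mul, one_mul, mul_one, h1, mul_assoc, P.εε, zero_mul]
  abel

theorem p_Y (a b : B) {m : B} (hm : m ∈ c.M) : (c.p1 + c.p2) * P.Y a b m = P.Y a b m := by
  have h1 := (P.mem_D.mp (P.pD (T := ⊤))).2
  have h2 : (c.p1 + c.p2) * P.π = P.π := by rw [← P.sum1, add_mul, P.ππ, P.π'π, add_zero]
  have h3 : (c.p1 + c.p2) * P.π' = P.π' := by rw [← P.sum1, add_mul, P.ππ', P.π'π', zero_add]
  have h4 := c.pM m hm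
  rw [Y, N, Δ, P.swap_ε]
  generalize c.p1 + c.p2 = p at h1 h2 h3 h4
  simp only [mul_add, mul_sub, sub_mul, one_mul, mul_one, mul_assoc, ex h1.symm, ex h2, ex h3,
    h4, ex h4]

theorem Y_p' (a b : B) {m : B} (hm : m ∈ c.M) : P.Y a b m * (c.p1 + c.p2) = P.Y a b m := by
  have h1 := (P.mem_D.mp (P.pD (T := ⊤))).2
  have h2 : P.π * (c.p1 + c.p2) = P.π := by rw [← P.sum1, mul_add, P.ππ, P.ππ', add_zero]
  have h3 : P.π' * (c.p1 + c.p2) = P.π' := by rw [← P.sum1, mul_add, P.π'π, P.π'π', zero_add]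
  have h4 := c.Mp m hm
  have h5 : ∀ x, c.σ x * (c.p1 + c.p2) = (c.p1 + c.p2) * c.σ x := fun x =>
    (c.aσ x _ (c.MA _ (add_mem c.p1M c.p2M))).symm
  rw [Y, N, Δ, P.swap_ε]
  generalize c.p1 + c.p2 = p at h1 h2 h3 h4 h5
  simp only [add_mul, mul_sub, sub_mul, one_mul, mul_one, mul_assoc, h1, h5, ex h2, ex h3,
    h4, ex h4]

theorem Y_sub {T : Subalgebra ℚ B} (he : c.e ∈ T) {a b : B} (ha : a ∈ T) (hb : b ∈ T) {m : B}
    (hm : m ∈ c.M) : P.Y a b m - m ∈ c.Fn T := by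
  have := sub_mem (P.N_Fn ha hb hm) (P.sub_Δ he (c.M_BT hm))
  convert this using 1
  rw [Y]; abel

theorem Y_mem {T : Subalgebra ℚ B} (he : c.e ∈ T) {a b : B} (ha : a ∈ T) (hb : b ∈ T)
    (ea : c.e * a = a) (ae : a * c.e = 0) (eb : c.e * b = 0) (be : b * c.e = b) {m : B}
    (hm : m ∈ c.M) : P.Y a b m ∈ P.D T :=
  add_mem (P.Δ_mem he (c.M_BT hm))
    (P.mem_D.mpr ⟨c.Fn_BT (P.N_Fn ha hb hm), by rw [P.εN ea eb hm, P.Nε ae be]⟩)

end Pol

namespace Shift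

variable {c : Core B} {P : Pol c} (s : Shift P)

theorem ab_mem {J : Subalgebra ℚ B} {I : Set B} (he : c.e ∈ J)
    (hR : ∀ y ∈ c.Fn J, P.swap.ε * y * P.swap.ε ∈ I) : s.sa * s.sb - c.e ∈ I := by
  have h1 := P.mem_D.mp (sub_mem (mul_mem (s.sa_mem he) (s.sb_mem he)) (P.e_mem_D he))
  refine P.killed hR ?_ h1.2 (by rw [mul_sub, ← mul_assoc, s.ε_ab, sub_self])
  have h2 : s.sa * s.sb - c.e = (s.sa - s.ma) * s.sb + s.ma * (s.sb - s.mb)
      - (1 - (c.p1 + c.p2)) * c.σ c.e := by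
    nth_rewrite 1 [c.he, ← s.ab]; noncomm_ring
  rw [h2]
  exact sub_mem (add_mem (c.Fn_mul_BT (P.mem_D.mp (s.sb_mem he)).1 (s.sa_sub he))
    (c.A_mul_Fn (c.MA _ s.maM) (s.sb_sub he))) (c.one_mul_σ he c.kfin)

theorem ba_mem {J : Subalgebra ℚ B} {I : Set B} (he : c.e ∈ J)
    (hR : ∀ y ∈ c.Fn J, P.swap.ε * y * P.swap.ε ∈ I) : s.sb * s.sa - (1 - c.e) ∈ I := by
  have h1 := P.mem_D.mp (sub_mem (mul_mem (s.sb_mem he) (s.sa_mem he))
    (sub_mem (one_mem _) (P.e_mem_D he)))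
  refine P.killed hR ?_ h1.2 (by rw [mul_sub, ← mul_assoc, s.ε_ba, sub_self])
  have h2 : s.sb * s.sa - (1 - c.e) = (s.sb - s.mb) * s.sa + s.mb * (s.sa - s.ma)
      - (1 - (c.p1 + c.p2)) + (1 - (c.p1 + c.p2)) * c.σ c.e := by
    nth_rewrite 1 [c.he]
    rw [sub_mul s.sb, mul_sub s.mb, s.ba]; abel
  rw [h2]
  exact add_mem (sub_mem (add_mem (c.Fn_mul_BT (P.mem_D.mp (s.sa_mem he)).1 (s.sb_sub he))
    (c.A_mul_Fn (c.MA _ s.mbM) (s.sa_sub he))) (c.one_le c.kfin)) (c.one_mul_σ he c.kfin)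

include s in
theorem step {J Z : Subalgebra ℚ B} {I : Set B} (he : c.e ∈ J) (hJ : P.D J = J) (h : PI J I)
    (hR : ∀ y ∈ c.Fn J, P.swap.ε * y * P.swap.ε ∈ I) (hG : Good c J (P.down J I) Z) :
    Good c J I (P.D Z) := by
  obtain ⟨T, hZ, hT, eT, rT, uT, a, ha, b, hb, ea, ae, eb, be, ab, ba⟩ := hG
  have hD : P.D T ≤ J := hJ ▸ P.D_mono hT
  have rD := P.D_reg eT rT
  refine ⟨P.D T, P.D_mono hZ, hD, P.e_mem_D eT, rD, ?_, s.sa, s.sa_mem eT, s.sb, s.sb_mem eT,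
    s.e_sa, s.sa_e, s.e_sb, s.sb_e, s.ab_mem he hR, s.ba_mem he hR⟩
  obtain ⟨S, _, F, Fm, Fa, F1, Fe, Fs⟩ := h.quot hD
  have F0 : F 0 = 0 := by
    have := Fa 0 (zero_mem _) 0 (zero_mem _)
    simpa using this
  have hS : Reg S := fun z => by
    obtain ⟨x, hx, rfl⟩ := Fs z
    obtain ⟨y, hy, h1⟩ := rD x hx
    exact ⟨F y, by rw [← Fm _ hx _ hy, ← Fm _ (mul_mem hx hy) _ hx, h1]⟩
  have cm : ∀ t ∈ T, P.cl * t * P.rl ∈ P.D T := fun t ht => P.corner_mem eT ht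
  let G : B → S := fun t => F (P.cl * t * P.rl)
  have Gm : ∀ x ∈ T, ∀ y ∈ T, G x * G y = G (x * y) := fun x hx y hy => by
    simp only [G]
    rw [← Fm _ (cm x hx) _ (cm y hy)]
    simp only [mul_assoc, ex P.ll, one_mul]
  have Ge : ∀ x ∈ T, ∀ y ∈ T, x - y ∈ P.down J I → G x = G y := fun x hx y hy hxy =>
    (Fe _ (cm x hx) _ (cm y hy)).mpr (by rw [← sub_mul, ← mul_sub]; exact hxy.2)
  have q1 := T.one_mem
  have hq : CUR (G 1) := by
    refine ⟨by rw [Gm _ q1 _ q1, mul_one], fun z z1 z2 => ?_⟩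
    obtain ⟨x, hx, rfl⟩ := Fs z
    have x0 : P.rl * x * P.cl ∈ T := c.r_BT_c P.rlR P.clC (P.mem_D.mp hx).1
    have hz : F x = G (P.rl * x * P.cl) := by
      rw [← z2, ← z1]
      simp only [G]
      rw [← Fm _ (cm 1 q1) _ hx, ← Fm _ (mul_mem (cm 1 q1) hx) _ (cm 1 q1)]
      simp only [mul_assoc, one_mul]
    obtain ⟨u, hu, v, hv, h1, h2, h3⟩ := uT _ x0
    refine ⟨G u, G v, ?_, ?_, ?_, ?_, ?_, ?_, ?_⟩
    · rw [Gm _ q1 _ hu, one_mul]
    · rw [Gm _ hu _ q1, mul_one]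
    · rw [Gm _ q1 _ hv, one_mul]
    · rw [Gm _ hv _ q1, mul_one]
    · rw [Gm _ hu _ hv]; exact Ge _ (mul_mem hu hv) _ q1 h1
    · rw [Gm _ hv _ hu]; exact Ge _ (mul_mem hv hu) _ q1 h2
    · rw [hz, Gm _ x0 _ hu, Gm _ (mul_mem x0 hu) _ x0]
      exact Ge _ (mul_mem (mul_mem x0 hu) x0) _ x0 h3
  have hL : ∀ y ∈ c.Fn T, InJ (F (P.ε * y * P.ε)) := by
    intro y hy
    refine (c.Fn_ind (p := fun y => y ∈ c.Fn T ∧ InJ (F (P.ε * y * P.ε))) hy ?_ ?_ ?_ ?_).2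
    · intro a ha x hx r hr
      refine ⟨c.mem_Fn ha hx hr, ?_⟩
      have m1 := P.εFε_mem eT (c.mem_Fn (X := T) ha q1 P.rlR)
      have m2 := P.εFε_mem eT (c.mem_Fn (X := T) P.clC q1 hr)
      rw [P.split, Fm _ (mul_mem m1 (cm x hx)) _ m2, Fm _ m1 _ (cm x hx)]
      have : InJ (G x) := ⟨G 1, hq, by rw [Gm _ q1 _ hx, one_mul]⟩
      exact (this.mul_left hS _).mul_right _
    · exact ⟨zero_mem _, by simpa [F0] using InJ.zero⟩
    · rintro x y ⟨h1, h2⟩ ⟨h3, h4⟩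
      refine ⟨add_mem h1 h3, ?_⟩
      rw [mul_add, add_mul, Fa _ (P.εFε_mem eT h1) _ (P.εFε_mem eT h3)]
      exact h2.add hS h4
    · rintro k x ⟨h1, h2⟩
      refine ⟨Submodule.smul_mem _ _ h1, ?_⟩
      have : P.ε * k • x * P.ε = (k • (1 : B)) * (P.ε * x * P.ε) := by simp
      rw [this, Fm _ (Subalgebra.smul_mem _ (one_mem _) k) _ (P.εFε_mem eT h1)]
      exact h2.mul_left hS _
  have hL' : ∀ y ∈ c.Fn T, y ∈ P.D T → InJ (F y) := by
    intro y hy hyD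
    have h1 := (P.mem_D.mp hyD).2
    have : F y = F (P.ε * y * P.ε) := by
      refine (Fe _ hyD _ (P.εFε_mem eT hy)).mpr ?_
      have h2 := hR y (c.Fn_mono hT hy)
      rw [P.swap_ε] at h2
      convert h2 using 1
      simp only [mul_sub, sub_mul, one_mul, mul_one, h1, mul_assoc, P.εε]
      abel
    rw [this]; exact hL y hy
  have YD : ∀ m ∈ c.M, P.Y a b m ∈ P.D T := fun m hm => P.Y_mem eT ha hb ea ae eb be hm
  have Ym : ∀ m ∈ c.M, ∀ n ∈ c.M, F (P.Y a b m) * F (P.Y a b n) = F (P.Y a b (m * n)) := by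
    intro m hm n hn
    rw [← Fm _ (YD m hm) _ (YD n hn)]
    exact (Fe _ (mul_mem (YD m hm) (YD n hn)) _ (YD _ (c.Mmul _ hm _ hn))).mpr
      (P.Y_mul he hJ h hR ea ae eb be ab ba hm hn)
  have pD := P.pD (T := T)
  have pY : ∀ m ∈ c.M, F (c.p1 + c.p2) * F (P.Y a b m) = F (P.Y a b m) := fun m hm => by
    rw [← Fm _ pD _ (YD m hm), P.p_Y a b hm]
  have Yp : ∀ m ∈ c.M, F (P.Y a b m) * F (c.p1 + c.p2) = F (P.Y a b m) := fun m hm => by
    rw [← Fm _ (YD m hm) _ pD, P.Y_p' a b hm]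
  have pp : F (c.p1 + c.p2) * F (c.p1 + c.p2) = F (c.p1 + c.p2) := by
    rw [← Fm _ pD _ pD, c.pM _ (add_mem c.p1M c.p2M)]
  have Yur : ∀ m ∈ c.M, UR (F (P.Y a b m)) := by
    intro m hm
    obtain ⟨u, hu, v, hv, h1, h2, h3⟩ := c.Mur m hm
    refine ⟨F (P.Y a b u) + (1 - F (c.p1 + c.p2)), F (P.Y a b v) + (1 - F (c.p1 + c.p2)),
      ?_, ?_, ?_⟩
    · simp only [mul_add, add_mul, mul_sub, sub_mul, mul_one, one_mul, Ym u hu v hv, h1, P.Y_p,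
        pY v hv, Yp u hu, pp]
      abel
    · simp only [mul_add, add_mul, mul_sub, sub_mul, mul_one, one_mul, Ym v hv u hu, h2, P.Y_p,
        pY u hu, Yp v hv, pp]
      abel
    · rw [mul_add, mul_sub, mul_one, Yp m hm, sub_self, add_zero, Ym m hm u hu,
        Ym _ (c.Mmul _ hm _ hu) m hm, h3]
  intro x hx
  obtain ⟨m, hm, hxm⟩ := (P.mem_D.mp hx).1
  have h1 : x - P.Y a b m ∈ c.Fn T := by simpa using sub_mem hxm (P.Y_sub eT ha hb hm)
  have h2 := hL' _ h1 (sub_mem hx (YD m hm))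
  have h3 : F (x - P.Y a b m) = F x - F (P.Y a b m) := by
    rw [eq_sub_iff_add_eq, ← Fa _ (sub_mem hx (YD m hm)) _ (YD m hm), sub_add_cancel]
  rw [h3] at h2
  obtain ⟨u, v, h4, h5, h6⟩ := UR.of_sub hS (Yur m hm) h2
  obtain ⟨u, hu, rfl⟩ := Fs u
  obtain ⟨v, hv, rfl⟩ := Fs v
  refine ⟨u, hu, v, hv, ?_, ?_, ?_⟩
  · exact (Fe _ (mul_mem hu hv) _ (one_mem _)).mp (by rw [Fm _ hu _ hv, h4, F1])
  · exact (Fe _ (mul_mem hv hu) _ (one_mem _)).mp (by rw [Fm _ hv _ hu, h5, F1])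
  · exact (Fe _ (mul_mem (mul_mem hx hu) hx) _ hx).mp
      (by rw [Fm _ (mul_mem hx hu) _ hx, Fm _ hx _ hu, h6])

end Shift

end Pool.Agent.MP_9ea0f9_al.H6
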