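import Pool.Agent.MP_9ea0f9_al.H6.H

set_option autoImplicit false

/-! The ring `J` and the main theorem for an abstract frame. -/

namespace Pool.Agent.MP_9ea0f9_al.H6

variable {B : Type} [Ring B] [Algebra ℚ B]

namespace Pol

variable {c : Core B} (P : Pol c)

/-- the stages -/
def Jn : ℕ → Subalgebra ℚ B
  | 0 => c.J0
  | n + 1 => P.D (Jn n)

theorem e_Jn : ∀ n, c.e ∈ P.Jn n
  | 0 => c.e_J0
  | n + 1 => P.e_mem_D (e_Jn n)

theorem Jn_succ : ∀ n, P.Jn n ≤ P.Jn (n + 1)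
  | 0 => c.J0_le (P.e_Jn 1)
  | n + 1 => P.D_mono (Jn_succ n)

theorem Jn_mono : Monotone P.Jn := monotone_nat_of_le_succ P.Jn_succ

theorem Jn_reg : ∀ n, Core.RegS (P.Jn n)
  | 0 => c.J0_reg
  | n + 1 => P.D_reg (P.e_Jn n) (Jn_reg n)

/-- the union of the stages -/
def J : Subalgebra ℚ B where
  carrier := {x | ∃ n, x ∈ P.Jn n}
  mul_mem' := by
    rintro x y ⟨n, hx⟩ ⟨m, hy⟩
    exact ⟨max n m, mul_mem (P.Jn_mono (le_max_left _ _) hx) (P.Jn_mono (le_max_right _ _) hy)⟩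
  add_mem' := by
    rintro x y ⟨n, hx⟩ ⟨m, hy⟩
    exact ⟨max n m, add_mem (P.Jn_mono (le_max_left _ _) hx) (P.Jn_mono (le_max_right _ _) hy)⟩
  algebraMap_mem' := fun k => ⟨0, Subalgebra.algebraMap_mem _ k⟩

theorem Jn_le (n : ℕ) : P.Jn n ≤ P.J := fun _ hx => ⟨n, hx⟩

theorem e_J : c.e ∈ P.J := ⟨0, P.e_Jn 0⟩

theorem J_reg : Core.RegS P.J := by
  rintro x ⟨n, hx⟩
  obtain ⟨y, hy, h⟩ := P.Jn_reg n x hx
  exact ⟨y, ⟨n, hy⟩, h⟩

theorem D_J : P.D P.J = P.J := by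
  apply le_antisymm
  · intro z hz
    obtain ⟨⟨m, hm, h1⟩, h2⟩ := P.mem_D.mp hz
    obtain ⟨n, hn⟩ : ∃ n, z - m ∈ c.Fn (P.Jn n) := by
      refine c.Fn_ind (p := fun y => ∃ n, y ∈ c.Fn (P.Jn n)) h1 ?_ ⟨0, zero_mem _⟩ ?_ ?_
      · rintro a ha x ⟨n, hx⟩ r hr
        exact ⟨n, c.mem_Fn ha hx hr⟩
      · rintro x y ⟨n, hx⟩ ⟨m, hy⟩
        exact ⟨max n m, add_mem (c.Fn_mono (P.Jn_mono (le_max_left _ _)) hx)
          (c.Fn_mono (P.Jn_mono (le_max_right _ _)) hy)⟩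
      · rintro k x ⟨n, hx⟩
        exact ⟨n, Submodule.smul_mem _ _ hx⟩
    exact ⟨n + 1, P.mem_D.mpr ⟨⟨m, hm, hn⟩, h2⟩⟩
  · rintro x ⟨n, hx⟩
    exact P.D_mono (P.Jn_le n) (P.Jn_succ n hx)

theorem tr_Jn : ∀ n, ∃ τ : B →ₗ[ℚ] ℚ, IsTr τ (P.Jn n) ∧ τ c.e ≠ τ (1 - c.e)
  | 0 => ⟨c.τ0, c.J0_tr _, by rw [map_sub, c.τe, c.τ1]; norm_num⟩
  | n + 1 => by
    obtain ⟨τ, h1, h2⟩ := tr_Jn n
    refine ⟨τ ∘ₗ c.Tr, fun x hx y hy =>
      c.isTr_BT h1 x (P.mem_D.mp hx).1 y (P.mem_D.mp hy).1, ?_⟩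
    simp only [LinearMap.comp_apply, map_sub, P.Tr_e, P.Tr_one, map_add] at h2 ⊢
    intro h; apply h2; linarith

theorem good (s : Shift P) (s' : Shift P.swap) :
    ∀ n (I : Set B), PI P.J I → Good c P.J I (P.Jn n)
  | 0, I, h => by
    have he := P.e_J
    rcases P.side he P.D_J h with hR | hR
    · exact c.base h he P.J_reg (P.D_J ▸ s.sa_mem he) (P.D_J ▸ s.sb_mem he) s.e_sa s.sa_e s.e_sb
        s.sb_e (s.ab_mem he hR) (s.ba_mem he hR)
    · have hJ : P.swap.D P.J = P.J := by rw [P.swap_D, P.D_J]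
      exact c.base h he P.J_reg (hJ ▸ s'.sa_mem he) (hJ ▸ s'.sb_mem he) s'.e_sa s'.sa_e s'.e_sb
        s'.sb_e (s'.ab_mem he hR) (s'.ba_mem he hR)
  | n + 1, I, h => by
    have he := P.e_J
    rcases P.side he P.D_J h with hR | hR
    · exact s.step he P.D_J h hR (good s s' n _ (P.down_PI he P.D_J h))
    · have hJ : P.swap.D P.J = P.J := by rw [P.swap_D, P.D_J]
      have := s'.step he hJ h hR (good s s' n _ (P.swap.down_PI he hJ h))
      rwa [P.swap_D] at this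

/-- a two-sided ideal of `J` -/
structure TI (J : Subalgebra ℚ B) (I : Set B) : Prop where
  add : ∀ x ∈ I, ∀ y ∈ I, x + y ∈ I
  ml : ∀ r ∈ J, ∀ x ∈ I, r * x ∈ I
  mr : ∀ r ∈ J, ∀ x ∈ I, x * r ∈ I

/-- `I` contains an idempotent whose corner is a copy of `J` -/
def Node (J : Subalgebra ℚ B) (I : Set B) : Prop :=
  ∃ a r : B, r * a = 1 ∧ (∀ x ∈ J, a * x * r ∈ J) ∧ (∀ x ∈ J, r * x * a ∈ J) ∧ a * r ∈ I

theorem down_TI {J : Subalgebra ℚ B} {I : Set B} (he : c.e ∈ J) (hJ : P.D J = J) (h : TI J I) :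
    TI J (P.down J I) := by
  have cm : ∀ t ∈ J, P.cl * t * P.rl ∈ J := fun t ht => hJ ▸ P.corner_mem he ht
  refine ⟨?_, ?_, ?_⟩
  · rintro x ⟨h1, h2⟩ y ⟨h3, h4⟩
    exact ⟨add_mem h1 h3, by rw [mul_add, add_mul]; exact h.add _ h2 _ h4⟩
  · rintro r hr x ⟨h1, h2⟩
    refine ⟨mul_mem hr h1, ?_⟩
    have := h.ml _ (cm r hr) _ h2
    simpa only [mul_assoc, ex P.ll, one_mul] using this
  · rintro r hr x ⟨h1, h2⟩
    refine ⟨mul_mem h1 hr, ?_⟩
    have := h.mr _ (cm r hr) _ h2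
    simpa only [mul_assoc, ex P.ll, one_mul] using this

theorem node_up {J : Subalgebra ℚ B} {I : Set B} (he : c.e ∈ J) (hJ : P.D J = J)
    (h : Node J (P.down J I)) : Node J I := by
  obtain ⟨a, r, h1, h2, h3, h4⟩ := h
  refine ⟨P.cl * a, r * P.rl, by simp only [mul_assoc, ex P.ll, one_mul, h1], fun x hx => ?_,
    fun x hx => ?_, by simpa only [mul_assoc] using h4.2⟩
  · have : P.cl * (a * x * r) * P.rl ∈ J := hJ ▸ P.corner_mem he (h2 x hx)
    simpa only [mul_assoc] using this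
  · have := h3 _ (c.r_BT_c P.rlR P.clC (P.mem_D.mp (hJ.symm ▸ hx)).1)
    simpa only [mul_assoc] using this

theorem slice {J T : Subalgebra ℚ B} {I : Set B} (hJ : P.D J = J) (hT : T ≤ J) (he : c.e ∈ T)
    (h : TI J I) {x r a : B} (hx : x ∈ P.D T) (hI : x ∈ I) (hr : r ∈ c.Rw) (ha : a ∈ c.C) :
    r * (P.ε * x * P.ε) * a ∈ T ∧ r * (P.ε * x * P.ε) * a ∈ P.down J I := by
  have m1 := P.εFε_mem he (c.mem_Fn (X := T) P.clC T.one_mem hr)
  have m2 := P.εFε_mem he (c.mem_Fn (X := T) ha T.one_mem P.rlR)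
  have hD : P.D T ≤ J := hJ ▸ P.D_mono hT
  have h1 : r * (P.ε * x * P.ε) * a ∈ T := by
    have := c.r_BT_c P.rlR P.clC (P.mem_D.mp (mul_mem (mul_mem m1 hx) m2)).1
    simpa only [mul_assoc, ex P.rlε, ex P.ll, one_mul, P.εcl, P.ll, mul_one] using this
  refine ⟨h1, hT h1, ?_⟩
  have := h.mr _ (hD m2) _ (h.ml _ (hD m1) _ hI)
  simpa only [mul_assoc, ex P.εcl, one_mul, P.rlε] using this

theorem node_base (s : Shift P) {I : Set B} (h : TI P.J I) (hI : c.e ∈ I ∨ 1 - c.e ∈ I) :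
    Node P.J I := by
  have he := P.e_J
  have heD := P.e_mem_D he
  have hc := (P.mem_D.mp heD).2
  have hl : P.rl * c.e * P.cl = c.e := by
    nth_rewrite 1 [c.he]
    simp only [mul_add, add_mul, mul_sub, sub_mul, mul_assoc, one_mul, c.σc _ _ P.clC,
      ex (P.rlm c.p1M), ex (P.rlm c.p2M), ex P.ll, zero_mul, zero_add, add_zero, sub_zero]
  have a1 := c.MA _ c.p1M
  have a2 : 1 - c.p2 ∈ c.A := sub_mem (one_mem _) (c.MA _ c.p2M)
  have hεe : P.ε * c.e = c.pr ((P.π + P.cl * P.rl) * (1 - c.p2)) ((P.π' + P.cl * P.rl) * c.p1) := by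
    rw [← c.pr_mul _ _ a2 a1, ← c.e_pr]; rfl
  have h1 : (1 : B) ∈ P.down P.J I := by
    rcases hI with hI | hI
    · have b1 := (P.slice P.D_J le_rfl he h heD hI P.rlR P.clC).2
      have b2 := (P.slice P.D_J le_rfl he h heD hI s.ηR s.yC).2
      have e1 : P.rl * (P.ε * c.e * P.ε) * P.cl = c.e := by
        simpa only [mul_assoc, ex P.rlε, P.εcl] using hl
      have p1y : c.p1 * s.y = s.y := by rw [← s.ax, ex s.p1a]
      have e2 : s.η * (P.ε * c.e * P.ε) * s.y = 1 - c.e := by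
        rw [mul_assoc P.ε, ← hc, ex P.εε, hεe, Core.pr]
        simp only [mul_add, add_mul, mul_sub, sub_mul, mul_assoc, one_mul, mul_one,
          c.σc _ _ s.yC, ex s.ηπ, ex s.ηπ', ex s.ηcl, p1y, ex p1y, s.ηy, ex s.ηy, zero_mul,
          zero_add, add_zero, sub_zero]
      rw [e1] at b1
      rw [e2] at b2
      simpa using (P.down_TI he P.D_J h).add _ b1 _ b2
    · have heD' := sub_mem (one_mem _) heD
      have b1 := (P.slice P.D_J le_rfl he h heD' hI P.rlR P.clC).2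
      have b2 := (P.slice P.D_J le_rfl he h heD' hI s.ξR s.xC).2
      have e1 : P.rl * (P.ε * (1 - c.e) * P.ε) * P.cl = 1 - c.e := by
        rw [mul_assoc] at hl
        simp only [mul_assoc, ex P.rlε, P.εcl, sub_mul, mul_sub, one_mul, P.ll, hl]
      have p2x : c.p2 * s.x = s.x := by rw [← s.by', ex s.p2b]
      have p1x : c.p1 * s.x = 0 := by rw [← p2x, ex c.p12, zero_mul]
      have e2 : s.ξ * (P.ε * (1 - c.e) * P.ε) * s.x = c.e := by
        rw [mul_sub P.ε, mul_one, sub_mul, P.εε, mul_assoc P.ε, ← hc, ex P.εε, hεe, ε, Core.pr,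
          Core.pr]
        simp only [mul_add, add_mul, mul_sub, sub_mul, mul_assoc, one_mul, mul_one,
          c.σc _ _ s.xC, ex s.ξπ, ex s.ξπ', ex s.ξcl, p2x, ex p2x, p1x, ex p1x, s.ξx, ex s.ξx,
          zero_mul, mul_zero, zero_add, add_zero, sub_zero, sub_self]
      rw [e1] at b1
      rw [e2] at b2
      simpa using (P.down_TI he P.D_J h).add _ b1 _ b2
  exact P.node_up he P.D_J ⟨1, 1, one_mul _, fun x hx => by simpa using hx,
    fun x hx => by simpa using hx, by simpa using h1⟩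

theorem node (s : Shift P) : ∀ n (I : Set B), TI P.J I → ∀ x ∈ P.Jn n, x ∈ I → x ≠ 0 → Node P.J I
  | 0, I, h, x, hx, hI, h0 => by
    obtain ⟨a, b, rfl⟩ := hx
    refine P.node_base s h ?_
    by_cases ha : a = 0
    · have hb : b ≠ 0 := fun hb => h0 (by simp [ha, hb])
      have := h.ml _ (P.J.smul_mem P.J.one_mem b⁻¹) _ hI
      right
      simpa [ha, smul_smul, hb] using this
    · have := h.ml _ (P.J.smul_mem P.e_J a⁻¹) _ hI
      left
      simpa [mul_add, mul_sub, c.ee, smul_smul, ha] using this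
  | n + 1, I, h, x, hx, hI, h0 => by
    have he := P.e_J
    have hc := (P.mem_D.mp hx).2
    by_cases h1 : P.ε * x * P.ε = 0
    · have hJ : P.swap.D P.J = P.J := by rw [P.swap_D, P.D_J]
      have h2 : P.swap.ε * x * P.swap.ε ≠ 0 := by
        rw [hc, mul_assoc, P.εε] at h1
        rwa [P.swap_ε, sub_mul, one_mul, hc, h1, sub_zero, mul_sub, mul_one, h1, sub_zero]
      have h3 := mt (c.nd _) h2
      push Not at h3
      obtain ⟨r, hr, a, ha, h4⟩ := h3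
      have hx' : x ∈ P.swap.D (P.Jn n) := by rw [P.swap_D]; exact hx
      obtain ⟨h5, h6⟩ := P.swap.slice hJ (P.Jn_le n) (P.e_Jn n) h hx' hI hr ha
      exact P.swap.node_up he hJ (node s n _ (P.swap.down_TI he hJ h) _ h5 h6 h4)
    · have h3 := mt (c.nd _) h1
      push Not at h3
      obtain ⟨r, hr, a, ha, h4⟩ := h3
      obtain ⟨h5, h6⟩ := P.slice P.D_J (P.Jn_le n) (P.e_Jn n) h hx hI hr ha
      exact P.node_up he P.D_J (node s n _ (P.down_TI he P.D_J h) _ h5 h6 h4)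

end Pol

/-- direct finiteness of all images from unit-regularity modulo all primes -/
theorem df_of_prime {R : Type} [Ring R]
    (h : ∀ I : TwoSidedIdeal R, (∀ a b : R, (∀ r, a * r * b ∈ I) → a ∈ I ∨ b ∈ I) →
      ∀ x : R, ∃ u v : R, u * v - 1 ∈ I ∧ v * u - 1 ∈ I ∧ x * u * x - x ∈ I)
    (S : Type) [Ring S] (f : R →+* S) (hf : Function.Surjective f) (x y : S) (hxy : x * y = 1) :
    y * x = 1 := by
  by_contra hne
  obtain ⟨x, rfl⟩ := hf x
  obtain ⟨y, rfl⟩ := hf y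
  obtain ⟨g, hg⟩ : ∃ g, g = 1 - y * x := ⟨_, rfl⟩
  let K := TwoSidedIdeal.ker f
  have hK : ∀ z, z ∈ K ↔ f z = 0 := fun z => TwoSidedIdeal.mem_ker f
  have gK : g ∉ K := by
    rw [hK, hg, map_sub, map_one, map_mul, sub_eq_zero]; exact fun h => hne h.symm
  obtain ⟨I, hKI, hI⟩ := zorn_le_nonempty₀ {I : TwoSidedIdeal R | g ∉ I} (by
    intro C hC hch I0 hI0
    refine ⟨TwoSidedIdeal.mk' {z | ∃ I ∈ C, z ∈ I} ⟨I0, hI0, I0.zero_mem⟩ ?_ ?_ ?_ ?_, ?_, ?_⟩
    · rintro a b ⟨I, hI, ha⟩ ⟨I', hI', hb⟩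
      rcases hch.total hI hI' with h | h
      · exact ⟨I', hI', I'.add_mem (h ha) hb⟩
      · exact ⟨I, hI, I.add_mem ha (h hb)⟩
    · rintro a ⟨I, hI, ha⟩; exact ⟨I, hI, I.neg_mem ha⟩
    · rintro a b ⟨I, hI, hb⟩; exact ⟨I, hI, I.mul_mem_left _ _ hb⟩
    · rintro a b ⟨I, hI, ha⟩; exact ⟨I, hI, I.mul_mem_right _ _ ha⟩
    · intro hh
      rw [TwoSidedIdeal.mem_mk'] at hh
      obtain ⟨I, hI, hgI⟩ := hh
      exact hC hI hgI
    · intro I hI z hz
      rw [TwoSidedIdeal.mem_mk']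
      exact ⟨I, hI, hz⟩) K gK
  have gI : g ∉ I := hI.1
  have xy : x * y - 1 ∈ I := hKI ((hK _).mpr (by rw [map_sub, map_mul, hxy, map_one, sub_self]))
  have key : ∀ I' : TwoSidedIdeal R, I ≤ I' → ∀ a ∈ I', a ∉ I → g ∈ I' := by
    intro I' h1 a h2 h3
    by_contra h4
    exact h3 (hI.2 h4 h1 h2)
  have hp : ∀ a b : R, (∀ r, a * r * b ∈ I) → a ∈ I ∨ b ∈ I := by
    intro a b hab
    by_contra hc
    push Not at hc
    have h1 : ∀ r, g * r * b ∈ I := by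
      have := key (TwoSidedIdeal.mk' {z | ∀ r, z * r * b ∈ I} (fun r => by simp)
        (fun {p q} hp hq r => by rw [add_mul, add_mul]; exact I.add_mem (hp r) (hq r))
        (fun {p} hp r => by rw [neg_mul, neg_mul]; exact I.neg_mem (hp r))
        (fun {p q} hq r => by
          have := I.mul_mem_left p _ (hq r)
          simpa only [mul_assoc] using this)
        (fun {p q} hp r => by
          have := hp (q * r)
          simpa only [mul_assoc] using this))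
        (fun z hz => by
          rw [TwoSidedIdeal.mem_mk']
          exact fun r => I.mul_mem_right _ _ (I.mul_mem_right _ _ hz)) a
        (by rw [TwoSidedIdeal.mem_mk']; exact hab) hc.1
      rwa [TwoSidedIdeal.mem_mk'] at this
    have h2 : ∀ r, g * r * g ∈ I := by
      have := key (TwoSidedIdeal.mk' {z | ∀ r, g * r * z ∈ I} (fun r => by simp)
        (fun {p q} hp hq r => by rw [mul_add]; exact I.add_mem (hp r) (hq r))
        (fun {p} hp r => by rw [mul_neg]; exact I.neg_mem (hp r))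
        (fun {p q} hq r => by
          have := hq (r * p)
          simpa only [mul_assoc] using this)
        (fun {p q} hp r => by
          have := I.mul_mem_right _ q (hp r)
          simpa only [mul_assoc] using this))
        (fun z hz => by
          rw [TwoSidedIdeal.mem_mk']
          exact fun r => I.mul_mem_left _ _ hz) b
        (by rw [TwoSidedIdeal.mem_mk']; exact h1) hc.2
      rwa [TwoSidedIdeal.mem_mk'] at this
    apply gI
    have h3 : g = g * 1 * g - y * (x * y - 1) * x := by rw [hg]; noncomm_ring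
    rw [h3]
    exact I.sub_mem (h2 1) (I.mul_mem_right _ _ (I.mul_mem_left _ _ xy))
  obtain ⟨u, v, h1, h2, h3⟩ := h I hp x
  apply gI
  let q := I.ringCon.mk'
  have hq : ∀ a b : R, q a = q b ↔ a - b ∈ I := fun a b => by
    simp only [q]
    rw [RingCon.coe_mk', RingCon.eq, TwoSidedIdeal.rel_iff]
  have a0 := (hq _ _).mpr xy
  have a1 := (hq _ _).mpr h1
  have a2 := (hq _ _).mpr h2
  have a3 := (hq _ _).mpr h3
  simp only [map_mul, map_one] at a0 a1 a2 a3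
  have a4 : q x * q u = 1 := by
    have := congrArg (fun t => t * q y) a3
    simpa only [mul_assoc, a0, mul_one] using this
  have a5 : q x = q v := by rw [← mul_one (q x), ← a1, ← mul_assoc, a4, one_mul]
  have a6 : q y = q u := by rw [← one_mul (q y), ← a1, mul_assoc, ← a5, a0, mul_one]
  rw [hg]
  exact (hq _ _).mp (by rw [map_mul, map_one, a5, a6, a1])

theorem main_of_frame {c : Core B} {P : Pol c} (s : Shift P) (s' : Shift P.swap) :
    ∃ (R : Type) (_ : Ring R),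
      (∀ a : R, ∃ x : R, a * x * a = a) ∧
      (∀ (S : Type) [Ring S] (f : R →+* S), Function.Surjective f →
        (∀ a b : S, (∀ r : S, a * r * b = 0) → a = 0 ∨ b = 0) →
        ∀ a : S, ∃ u : Sˣ, a * (u : S) * a = a) ∧
      (∀ (S : Type) [Ring S] (f : R →+* S), Function.Surjective f →
        ∀ x y : S, x * y = 1 → y * x = 1) ∧
      (∃ a : R, ∀ u : Rˣ, a * (u : R) * a ≠ a) ∧
      ∀ g : R, g * g = g → g ≠ 0 → ∃ a : R, g * a * g = a ∧
        ∀ u v : R, g * u * g = u → g * v * g = v → u * v = g → v * u = g → a * u * a ≠ a := by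
  have hz : ∀ u ∈ P.J, ∀ v ∈ P.J, u * v = 1 → v * u = 1 → s.z * u * s.z ≠ s.z := by
    rintro u ⟨n, hn⟩ v ⟨m, hm⟩ h3 h4 h5
    obtain ⟨τ, h1, h2⟩ := P.tr_Jn (max n m)
    exact s.not_ur (P.e_Jn _) h1 h2 (P.Jn_succ _ (P.Jn_mono (le_max_left _ _) hn))
      (P.Jn_succ _ (P.Jn_mono (le_max_right _ _) hm)) h3 h4 h5
  have zJ : s.z ∈ P.J := P.D_J ▸ s.z_mem P.e_J
  have hR : Reg P.J := fun a => by
    obtain ⟨y, hy, h⟩ := P.J_reg a a.2
    exact ⟨⟨y, hy⟩, Subtype.ext h⟩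
  have hp : ∀ I : TwoSidedIdeal P.J, (∀ a b : P.J, (∀ r, a * r * b ∈ I) → a ∈ I ∨ b ∈ I) →
      ∀ x : P.J, ∃ u v : P.J, u * v - 1 ∈ I ∧ v * u - 1 ∈ I ∧ x * u * x - x ∈ I := by
    intro I hI x
    let I' : Set B := {z | ∃ h : z ∈ P.J, (⟨z, h⟩ : P.J) ∈ I}
    have h : PI P.J I' := by
      refine ⟨fun z hz => hz.1, ⟨zero_mem _, I.zero_mem⟩, ?_, ?_, ?_, ?_⟩
      · rintro a ⟨h1, h2⟩ b ⟨h3, h4⟩; exact ⟨add_mem h1 h3, I.add_mem h2 h4⟩
      · rintro r hr a ⟨h1, h2⟩; exact ⟨mul_mem hr h1, I.mul_mem_left ⟨r, hr⟩ _ h2⟩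
      · rintro r hr a ⟨h1, h2⟩; exact ⟨mul_mem h1 hr, I.mul_mem_right _ ⟨r, hr⟩ h2⟩
      · intro a ha b hb hab
        exact (hI ⟨a, ha⟩ ⟨b, hb⟩ fun r => (hab r r.2).2).imp (fun h => ⟨ha, h⟩) fun h => ⟨hb, h⟩
    obtain ⟨n, hn⟩ := x.2
    obtain ⟨T, h1, h2, -, -, h3, -⟩ := P.good s s' n I' h
    obtain ⟨u, hu, v, hv, h4, h5, h6⟩ := h3 x (h1 hn)
    exact ⟨⟨u, h2 hu⟩, ⟨v, h2 hv⟩, h4.2, h5.2, h6.2⟩
  refine ⟨P.J, inferInstance, hR, ?_, ?_, ⟨⟨s.z, zJ⟩, ?_⟩, ?_⟩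
  · intro S _ f hf hS a
    obtain ⟨x, rfl⟩ := hf a
    have hK : ∀ z, z ∈ TwoSidedIdeal.ker f ↔ f z = 0 := fun z => TwoSidedIdeal.mem_ker f
    obtain ⟨u, v, h1, h2, h3⟩ := hp (TwoSidedIdeal.ker f) (fun a b hab => by
      rw [hK, hK]
      refine hS _ _ fun r => ?_
      obtain ⟨r, rfl⟩ := hf r
      simpa only [hK, map_mul] using hab r) x
    simp only [hK, map_sub, map_mul, map_one, sub_eq_zero] at h1 h2 h3
    exact ⟨⟨f u, f v, h1, h2⟩, h3⟩
  · intro S _ f hf x y hxy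
    exact df_of_prime hp S f hf x y hxy
  · intro u hu
    exact hz _ (u : P.J).2 _ ((u⁻¹ : (P.J)ˣ) : P.J).2 (congrArg Subtype.val u.mul_inv)
      (congrArg Subtype.val u.inv_mul) (congrArg Subtype.val hu)
  · intro g gg g0
    by_contra hc
    push Not at hc
    have hg : CUR g := by
      refine ⟨gg, fun z z1 z2 => ?_⟩
      obtain ⟨u, v, h1, h2, h3, h4, h5⟩ := hc z (by rw [z1, z2])
      refine ⟨u, v, ?_, ?_, ?_, ?_, h3, h4, h5⟩
      · rw [← h1]; simp only [mul_assoc, ex gg]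
      · rw [← h1]; simp only [mul_assoc, gg]
      · rw [← h2]; simp only [mul_assoc, ex gg]
      · rw [← h2]; simp only [mul_assoc, gg]
    let I : Set B := {z | ∃ h : z ∈ P.J, InJ (⟨z, h⟩ : P.J)}
    have hI : Pol.TI P.J I := by
      refine ⟨?_, ?_, ?_⟩
      · rintro a ⟨h1, h2⟩ b ⟨h3, h4⟩; exact ⟨add_mem h1 h3, h2.add hR h4⟩
      · rintro r hr a ⟨h1, h2⟩; exact ⟨mul_mem hr h1, h2.mul_left hR ⟨r, hr⟩⟩
      · rintro r hr a ⟨h1, h2⟩; exact ⟨mul_mem h1 hr, h2.mul_right ⟨r, hr⟩⟩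
    obtain ⟨n, hn⟩ := g.2
    obtain ⟨a, r, h1, h2, h3, h4, h5⟩ := P.node s n I hI g hn ⟨g.2, hg.inJ⟩
      fun h => g0 (Subtype.ext h)
    have hq := h5.cur (Subtype.ext (by
      change a * r * (a * r) = a * r
      simp only [mul_assoc, ex h1, one_mul]))
    obtain ⟨u, v, b1, b2, b3, b4, b5, b6, b7⟩ := hq.2 ⟨a * s.z * r, h2 _ zJ⟩
      (Subtype.ext (by
        change a * r * (a * s.z * r) = a * s.z * r
        simp only [mul_assoc, ex h1, one_mul]))
      (Subtype.ext (by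
        change a * s.z * r * (a * r) = a * s.z * r
        simp only [mul_assoc, ex h1, one_mul]))
    have c1 : a * (r * (u : B)) = u := by simpa [mul_assoc] using congrArg Subtype.val b1
    have c3 : a * (r * (v : B)) = v := by simpa [mul_assoc] using congrArg Subtype.val b3
    have c5 : (u : B) * v = a * r := congrArg Subtype.val b5
    have c6 : (v : B) * u = a * r := congrArg Subtype.val b6
    have c7 : a * s.z * r * u * (a * s.z * r) = a * s.z * r := congrArg Subtype.val b7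
    refine hz _ (h3 _ u.2) _ (h3 _ v.2) ?_ ?_ ?_
    · simp only [mul_assoc, ex3 c3, ex c5, ex h1, h1, one_mul]
    · simp only [mul_assoc, ex3 c1, ex c6, ex h1, h1, one_mul]
    · have := congrArg (fun t => r * t * a) c7
      simpa only [mul_assoc, ex h1, h1, one_mul, mul_one] using this

end Pool.Agent.MP_9ea0f9_al.H6
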