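import Pool.Agent.MP_9ea0f9_al.H6.I

set_option autoImplicit false

/-! The tensor layer: `End W` for an isomorphism `W ≃ V ⊗ W`. -/

namespace Pool.Agent.MP_9ea0f9_al.H6

open TensorProduct Cardinal

noncomputable section

variable {V W : Type} [AddCommGroup V] [Module ℚ V] [AddCommGroup W] [Module ℚ W]
  (θ : W ≃ₗ[ℚ] V ⊗[ℚ] W)

def tj : Module.End ℚ V →ₐ[ℚ] Module.End ℚ W :=
  (θ.symm.conjAlgEquiv ℚ).toAlgHom.comp (Module.End.rTensorAlgHom ℚ V W)

def tσ : Module.End ℚ W →ₐ[ℚ] Module.End ℚ W :=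
  (θ.symm.conjAlgEquiv ℚ).toAlgHom.comp (Module.End.lTensorAlgHom ℚ W V)

def tS : V →ₗ[ℚ] Module.End ℚ W where
  toFun v := θ.symm.toLinearMap ∘ₗ TensorProduct.mk ℚ V W v
  map_add' x y := by ext w; simp [add_tmul]
  map_smul' k x := by ext w; simp [← smul_tmul']

def tR : Module.Dual ℚ V →ₗ[ℚ] Module.End ℚ W where
  toFun l := (TensorProduct.lid ℚ W).toLinearMap ∘ₗ l.rTensor W ∘ₗ θ.toLinearMap
  map_add' x y := by ext w; simp
  map_smul' k x := by ext w; simp

theorem tj_apply (φ : Module.End ℚ V) (w : W) : tj θ φ w = θ.symm (φ.rTensor W (θ w)) := rfl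
theorem tσ_apply (x : Module.End ℚ W) (w : W) : tσ θ x w = θ.symm (x.lTensor V (θ w)) := rfl
theorem tS_apply (v : V) (w : W) : tS θ v w = θ.symm (v ⊗ₜ w) := rfl
theorem tR_apply (l : Module.Dual ℚ V) (w : W) :
    tR θ l w = TensorProduct.lid ℚ W (l.rTensor W (θ w)) := rfl

theorem end_ext {X : Type} [AddCommGroup X] [Module ℚ X] {f g : W →ₗ[ℚ] X}
    (h : ∀ v w, f (θ.symm (v ⊗ₜ w)) = g (θ.symm (v ⊗ₜ w))) : f = g := by
  have : f ∘ₗ θ.symm.toLinearMap = g ∘ₗ θ.symm.toLinearMap := TensorProduct.ext' h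
  ext w
  simpa using LinearMap.congr_fun this (θ w)

theorem tR_tS (l : Module.Dual ℚ V) (v : V) : tR θ l * tS θ v = l v • (1 : Module.End ℚ W) := by
  ext w; simp [tR_apply, tS_apply]

theorem tj_tS (φ : Module.End ℚ V) (v : V) : tj θ φ * tS θ v = tS θ (φ v) := by
  ext w; simp [tj_apply, tS_apply]

theorem tR_tj (l : Module.Dual ℚ V) (φ : Module.End ℚ V) : tR θ l * tj θ φ = tR θ (l ∘ₗ φ) :=
  end_ext θ fun v w => by simp [tj_apply, tR_apply]

theorem tS_tR (v : V) (l : Module.Dual ℚ V) : tS θ v * tR θ l = tj θ (l.smulRight v) :=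
  end_ext θ fun v' w => by simp [tj_apply, tR_apply, tS_apply, ← smul_tmul']

theorem tσ_tS (x : Module.End ℚ W) (v : V) : tσ θ x * tS θ v = tS θ v * x := by
  ext w; simp [tσ_apply, tS_apply]

theorem tR_tσ (l : Module.Dual ℚ V) (x : Module.End ℚ W) : tR θ l * tσ θ x = x * tR θ l :=
  end_ext θ fun v w => by simp [tσ_apply, tR_apply]

theorem tj_tσ (φ : Module.End ℚ V) (x : Module.End ℚ W) : tj θ φ * tσ θ x = tσ θ x * tj θ φ :=
  end_ext θ fun v w => by simp [tσ_apply, tj_apply]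

theorem t_nd (z : Module.End ℚ W) (h : ∀ l v, tR θ l * z * tS θ v = 0) : z = 0 := by
  classical
  refine end_ext θ fun v w => θ.injective ?_
  let b := Module.Basis.ofVectorSpace ℚ V
  have key : ∀ (y : V ⊗[ℚ] W) i, TensorProduct.equivFinsuppOfBasisLeft b y i
      = TensorProduct.lid ℚ W ((b.coord i).rTensor W y) := by
    intro y i
    induction y using TensorProduct.induction_on with
    | zero => simp
    | tmul a x => simp
    | add x y hx hy => simp [hx, hy]
  refine (TensorProduct.equivFinsuppOfBasisLeft b).injective (Finsupp.ext fun i => ?_)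
  rw [key, key]
  simpa [tR_apply, tS_apply] using LinearMap.congr_fun (h (b.coord i) v) w

/-- span of the rank one maps -/
def FR (X Y : Type) [AddCommGroup X] [Module ℚ X] [AddCommGroup Y] [Module ℚ Y] :
    Submodule ℚ (X →ₗ[ℚ] Y) :=
  Submodule.span ℚ {φ | ∃ (l : Module.Dual ℚ X) (y : Y), φ = l.smulRight y}

theorem FR_comp {X Y X' Y' : Type} [AddCommGroup X] [Module ℚ X] [AddCommGroup Y] [Module ℚ Y]
    [AddCommGroup X'] [Module ℚ X'] [AddCommGroup Y'] [Module ℚ Y'] {φ : X →ₗ[ℚ] Y}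
    (h : φ ∈ FR X Y) (α : Y →ₗ[ℚ] Y') (β : X' →ₗ[ℚ] X) : α ∘ₗ φ ∘ₗ β ∈ FR X' Y' := by
  induction h using Submodule.span_induction with
  | mem φ h =>
    obtain ⟨l, y, rfl⟩ := h
    exact Submodule.subset_span ⟨l ∘ₗ β, α y, by ext x; simp⟩
  | zero => simp
  | add x y _ _ hx hy => rw [LinearMap.add_comp, LinearMap.comp_add]; exact add_mem hx hy
  | smul k x _ hx =>
    rw [LinearMap.smul_comp, LinearMap.comp_smul]; exact Submodule.smul_mem _ _ hx

theorem tj_FR {φ : Module.End ℚ V} (h : φ ∈ FR V V) :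
    tj θ φ ∈ fsp (LinearMap.range (tS θ)) (LinearMap.range (tR θ)) {1} := by
  induction h using Submodule.span_induction with
  | mem φ h =>
    obtain ⟨l, y, rfl⟩ := h
    exact Submodule.subset_span ⟨_, ⟨y, rfl⟩, 1, rfl, _, ⟨l, rfl⟩, by rw [mul_one, tS_tR]⟩
  | zero => simp
  | add x y _ _ hx hy => rw [map_add]; exact add_mem hx hy
  | smul k x _ hx => rw [map_smul]; exact Submodule.smul_mem _ _ hx

theorem exists_Tr [Nontrivial W] (M0 : Submodule ℚ (Module.End ℚ V))
    (hM : ∀ m ∈ M0, Module.Finite ℚ (LinearMap.range m) → m = 0) :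
    ∃ Tr : Module.End ℚ W →ₗ[ℚ] Module.End ℚ W,
      (∀ v x l, Tr (tS θ v * x * tR θ l) = tR θ l * tS θ v * x) ∧
      (∀ m ∈ M0, Tr (tj θ m) = 0) ∧
      ∀ m ∈ M0, tj θ m ∈ fsp (LinearMap.range (tS θ)) (LinearMap.range (tR θ)) Set.univ →
        tj θ m = 0 := by
  classical
  let b := Module.Basis.ofVectorSpace ℚ V
  let Fi : Submodule ℚ (Module.End ℚ W) :=
    { carrier := {y | {i | tR θ (b.coord i) * y ≠ 0}.Finite}
      add_mem' := fun {x y} hx hy => (hx.union hy).subset fun i hi => by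
        by_contra h
        simp only [Set.mem_union, Set.mem_ofPred_eq, not_or, not_not] at h hi
        exact hi (by rw [mul_add, h.1, h.2, add_zero])
      zero_mem' := by simp
      smul_mem' := fun k x hx => hx.subset fun i hi h => hi (by rw [mul_smul_comm, h, smul_zero]) }
  have hsupp : ∀ y ∈ Fi, (fun i => tR θ (b.coord i) * y * tS θ (b i)).HasFiniteSupport :=
    fun y hy => Set.Finite.subset hy fun i hi h => hi (by simp only [h, zero_mul])
  let T0 : Fi →ₗ[ℚ] Module.End ℚ W :=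
    { toFun := fun y => ∑ᶠ i, tR θ (b.coord i) * y * tS θ (b i)
      map_add' := fun x y => by
        rw [← finsum_add_distrib (hsupp x x.2) (hsupp y y.2)]
        simp only [Submodule.coe_add, mul_add, add_mul]
      map_smul' := fun k x => by
        rw [RingHom.id_apply, smul_finsum' k (hsupp x x.2)]
        simp only [Submodule.coe_smul, mul_smul_comm, smul_mul_assoc] }
  have gen : ∀ v x, tS θ v * x ∈ Fi := fun v x =>
    (b.repr v).support.finite_toSet.subset fun i hi => by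
      simp only [Set.mem_ofPred_eq, ← mul_assoc, tR_tS] at hi
      simp only [Finset.mem_coe, Finsupp.mem_support_iff]
      intro h; apply hi; simp [h]
  have hle : fsp (LinearMap.range (tS θ)) (LinearMap.range (tR θ)) Set.univ ≤ Fi := by
    refine Submodule.span_le.mpr ?_
    rintro _ ⟨_, ⟨v, rfl⟩, x, -, r, -, rfl⟩
    rw [mul_assoc]; exact gen v _
  have hdis : ∀ m ∈ M0, tj θ m ∈ Fi → tj θ m = 0 := by
    intro m hm hF
    rw [hM m hm ?_, map_zero]
    have hF' : {i | tR θ (b.coord i) * tj θ m ≠ 0}.Finite := hF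
    have : LinearMap.range m ≤ Submodule.span ℚ (b '' {i | tR θ (b.coord i) * tj θ m ≠ 0}) := by
      rintro _ ⟨v, rfl⟩
      rw [b.mem_span_image]
      intro i hi h
      have h2 := congrArg (fun z => z * tS θ v) h
      simp only [mul_assoc, tj_tS, tR_tS, zero_mul, smul_eq_zero, one_ne_zero, or_false] at h2
      exact Finsupp.mem_support_iff.mp hi h2
    have inst := FiniteDimensional.span_of_finite ℚ (hF'.image b)
    exact Submodule.finiteDimensional_of_le this
  obtain ⟨g, hg⟩ := ((M0.map (tj θ).toLinearMap).mkQ ∘ₗ Fi.subtype).exists_leftInverse_of_injective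
    (by
      rw [LinearMap.ker_eq_bot']
      intro y hy
      simp only [LinearMap.comp_apply, Submodule.mkQ_apply, Submodule.Quotient.mk_eq_zero] at hy
      obtain ⟨m, hm, h⟩ := hy
      have h' : tj θ m = y := h
      exact Subtype.ext (h' ▸ hdis m hm (h' ▸ y.2)))
  refine ⟨T0 ∘ₗ g ∘ₗ (M0.map (tj θ).toLinearMap).mkQ, ?_, ?_, fun m hm h => hdis m hm (hle h)⟩
  · intro v x l
    have h1 : tS θ v * x * tR θ l ∈ Fi := by rw [mul_assoc]; exact gen v _
    have h2 := LinearMap.congr_fun hg ⟨_, h1⟩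
    simp only [LinearMap.comp_apply, Submodule.subtype_apply, LinearMap.id_apply] at h2 ⊢
    rw [h2]
    change ∑ᶠ i, tR θ (b.coord i) * (tS θ v * x * tR θ l) * tS θ (b i) = _
    have h3 : ∀ i, tR θ (b.coord i) * (tS θ v * x * tR θ l) * tS θ (b i)
        = (b.repr v i * l (b i)) • x := fun i => by
      simp only [mul_assoc, tR_tS, ex (tR_tS θ _ _)]
      simp [smul_smul, mul_comm]
    simp only [h3]
    rw [finsum_eq_sum_of_support_subset (s := (b.repr v).support) _ (fun i hi => by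
      simp only [Finset.mem_coe, Finsupp.mem_support_iff]
      intro h; apply hi; simp [h]), tR_tS, smul_mul_assoc, one_mul, ← Finset.sum_smul]
    congr 1
    conv_rhs => rw [← b.linearCombination_repr v]
    simp [Finsupp.linearCombination_apply, Finsupp.sum]
  · intro m hm
    have : (M0.map (tj θ).toLinearMap).mkQ (tj θ m) = 0 := by
      rw [Submodule.mkQ_apply, Submodule.Quotient.mk_eq_zero]; exact ⟨m, hm, rfl⟩
    simp only [LinearMap.comp_apply, this, map_zero]

theorem exists_theta (hV : ¬ Module.Finite ℚ V) (p k : Module.End ℚ V) (pp : p * p = p)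
    (kk : k * k = k) (pk : p * k = 0) (kp : k * p = 0) (v0 : V) (l0 : Module.Dual ℚ V)
    (h0 : l0 v0 = 1) (pv : p v0 = 0) (kv : k v0 = v0) :
    ∃ θ : (V × V) ≃ₗ[ℚ] V ⊗[ℚ] (V × V),
      (LinearMap.inl ℚ V V ∘ₗ LinearMap.fst ℚ V V : Module.End ℚ (V × V))
        = tj θ p + tj θ k * tσ θ (LinearMap.inl ℚ V V ∘ₗ LinearMap.fst ℚ V V) := by
  obtain ⟨e, he⟩ : ∃ e : Module.End ℚ (V × V), e = LinearMap.inl ℚ V V ∘ₗ LinearMap.fst ℚ V V :=
    ⟨_, rfl⟩
  rw [← he]
  have ea : ∀ a b, e (a, b) = (a, 0) := fun a b => by rw [he]; rfl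
  let E : Module.End ℚ (V ⊗[ℚ] (V × V)) := p.rTensor _ + TensorProduct.map k e
  have hE : IsIdempotentElem E := by
    refine TensorProduct.ext' fun v w => ?_
    have h1 := LinearMap.congr_fun pp v
    have h2 := LinearMap.congr_fun kk v
    have h3 := LinearMap.congr_fun pk v
    have h4 := LinearMap.congr_fun kp v
    obtain ⟨a, b⟩ := w
    simp only [Module.End.mul_apply, LinearMap.zero_apply] at h1 h2 h3 h4
    simp [E, h1, h2, h3, h4, ea]
  have hk : ℵ₀ ≤ Module.rank ℚ V := by rwa [← Module.rank_lt_aleph0_iff, not_lt] at hV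
  have hr : Module.rank ℚ (V ⊗[ℚ] (V × V)) = Module.rank ℚ V := by
    rw [rank_tensorProduct', rank_prod', add_eq_self hk, mul_eq_self hk]
  have key : ∀ (U : Submodule ℚ (V ⊗[ℚ] (V × V))) (ι : V →ₗ[ℚ] V × V), Function.Injective ι →
      (∀ v, v0 ⊗ₜ ι v ∈ U) → Nonempty (V ≃ₗ[ℚ] U) := by
    intro U ι hι hU
    refine nonempty_linearEquiv_of_rank_eq (le_antisymm ?_ (hr ▸ U.rank_le))
    refine LinearMap.rank_le_of_injective
      (LinearMap.codRestrict U (TensorProduct.mk ℚ V (V × V) v0 ∘ₗ ι) hU) fun x y hxy => hι ?_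
    have := congrArg (fun z : U => TensorProduct.lid ℚ _ (l0.rTensor _ (z : V ⊗[ℚ] (V × V)))) hxy
    simpa [h0] using this
  obtain ⟨f1⟩ := key (LinearMap.range E) (LinearMap.inl ℚ V V) LinearMap.inl_injective
    fun v => ⟨v0 ⊗ₜ (v, 0), by simp [E, pv, kv, ea]⟩
  obtain ⟨f2⟩ := key (LinearMap.ker E) (LinearMap.inr ℚ V V) LinearMap.inr_injective
    fun v => by simp [E, pv, kv, ea, ← Prod.zero_eq_mk]
  let θ := (f1.prodCongr f2).trans (Submodule.prodEquivOfIsCompl _ _ (LinearMap.IsIdempotentElem.isCompl hE))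
  have hθ : ∀ a b, θ (a, b) = f1 a + f2 b := fun a b => by simp [θ]
  have h1 : ∀ w, θ (e w) = E (θ w) := by
    rintro ⟨a, b⟩
    obtain ⟨y, hy⟩ := (f1 a).2
    have h2 : E (f2 b) = 0 := (f2 b).2
    have h3 : E (f1 a) = f1 a := by rw [← hy]; exact LinearMap.congr_fun hE y
    rw [ea, hθ, hθ, map_add, h2, h3]; simp
  refine ⟨θ, LinearMap.ext fun w => θ.injective ?_⟩
  rw [h1]
  simp only [E, LinearMap.add_apply, Module.End.mul_apply, tj_apply, tσ_apply, map_add,
    LinearEquiv.apply_symm_apply]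
  rw [← LinearMap.rTensor_comp_lTensor]; rfl

end

end Pool.Agent.MP_9ea0f9_al.H6
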