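import Pool.Agent.MP_9ea0f9_al.H6.K1

set_option autoImplicit false

/-! The operator layer over a field with a Toeplitz projection. -/

namespace Pool.Agent.MP_9ea0f9_al.H6

open TensorProduct Matrix

noncomputable section

variable {L : Type} [Field L] [CharZero L]

/-- elements whose multiplication commutes with `q` modulo finite rank -/
def Qf (q : Module.End ℚ L) : Subfield L where
  carrier := {f | q * LinearMap.mulLeft ℚ f - LinearMap.mulLeft ℚ f * q ∈ FR L L}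
  mul_mem' := fun {f g} hf hg => by
    have h1 := FR_comp hf LinearMap.id (LinearMap.mulLeft ℚ g)
    have h2 := FR_comp hg (LinearMap.mulLeft ℚ f) LinearMap.id
    have := add_mem h1 h2
    simp only [Set.mem_ofPred_eq]
    convert this using 1
    ext x; simp [mul_sub, mul_assoc]
  one_mem' := by
    simp only [Set.mem_ofPred_eq]
    convert zero_mem (FR L L) using 1
    ext x; simp
  add_mem' := fun {f g} hf hg => by
    have := (FR L L).add_mem hf hg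
    simp only [Set.mem_ofPred_eq]
    convert this using 1
    ext x; simp [add_mul]; ring
  zero_mem' := by
    simp only [Set.mem_ofPred_eq]
    convert zero_mem (FR L L) using 1
    ext x; simp
  neg_mem' := fun {f} hf => by
    have := (FR L L).neg_mem hf
    simp only [Set.mem_ofPred_eq]
    convert this using 1
    ext x; simp; ring
  inv_mem' := fun f hf => by
    simp only [Set.mem_ofPred_eq]
    by_cases h : f = 0
    · convert zero_mem (FR L L) using 1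
      ext x; simp [h]
    · have := neg_mem (FR_comp hf (LinearMap.mulLeft ℚ f⁻¹) (LinearMap.mulLeft ℚ f⁻¹))
      convert this using 1
      ext x; simp [mul_sub, ← mul_assoc, h]

/-- the space `V` -/
abbrev VV (L : Type) : Type := (Fin 2 → L) × ℚ × ℚ

def dg (φ : Module.End ℚ L) : Module.End ℚ (VV L) where
  toFun v := (fun i => φ (v.1 i), 0, 0)
  map_add' x y := by ext i <;> simp
  map_smul' k x := by ext i <;> simp

def rho (μ : Matrix (Fin 2) (Fin 2) L) : Module.End ℚ (VV L) where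
  toFun v := (μ *ᵥ v.1, 0, 0)
  map_add' x y := by simp [mulVec_add]
  map_smul' k x := by
    simp only [Prod.smul_fst, mulVec_smul, RingHom.id_apply, Prod.smul_mk, smul_zero]

def ι (i : Fin 2) : L →ₗ[ℚ] VV L := LinearMap.inl ℚ _ _ ∘ₗ LinearMap.single ℚ (fun _ => L) i
def pj (i : Fin 2) : VV L →ₗ[ℚ] L := LinearMap.proj i ∘ₗ LinearMap.fst ℚ _ _
def lamL : Module.Dual ℚ (VV L) := LinearMap.fst ℚ _ _ ∘ₗ LinearMap.snd ℚ _ _
def lamR : Module.Dual ℚ (VV L) := LinearMap.snd ℚ _ _ ∘ₗ LinearMap.snd ℚ _ _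

@[simp] theorem dg_apply (φ : Module.End ℚ L) (v : VV L) :
    dg φ v = (fun i => φ (v.1 i), 0, 0) := rfl
@[simp] theorem rho_apply (μ : Matrix (Fin 2) (Fin 2) L) (v : VV L) :
    rho μ v = (μ *ᵥ v.1, 0, 0) := rfl
@[simp] theorem ι_apply (i : Fin 2) (x : L) : ι i x = (Pi.single i x, 0, 0) := rfl
@[simp] theorem pj_apply (i : Fin 2) (v : VV L) : pj i v = v.1 i := rfl
@[simp] theorem lamL_apply (v : VV L) : lamL v = v.2.1 := rfl
@[simp] theorem lamR_apply (v : VV L) : lamR v = v.2.2 := rfl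

theorem rho_mul (μ ν : Matrix (Fin 2) (Fin 2) L) : rho μ * rho ν = rho (μ * ν) :=
  LinearMap.ext fun v => by simp only [Module.End.mul_apply, rho_apply, mulVec_mulVec]

theorem rho_add (μ ν : Matrix (Fin 2) (Fin 2) L) : rho μ + rho ν = rho (μ + ν) :=
  LinearMap.ext fun v => by simp [add_mulVec]

theorem rho_zero : rho (0 : Matrix (Fin 2) (Fin 2) L) = 0 :=
  LinearMap.ext fun v => by simp [Prod.ext_iff]

def M0 (q : Module.End ℚ L) : Submodule ℚ (Module.End ℚ (VV L)) where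
  carrier := {φ | ∃ μ : Matrix (Fin 2) (Fin 2) L, (∀ i j, μ i j ∈ Qf q) ∧ φ = rho μ}
  add_mem' := by
    rintro _ _ ⟨μ, h1, rfl⟩ ⟨ν, h2, rfl⟩
    exact ⟨μ + ν, fun i j => add_mem (h1 i j) (h2 i j), rho_add _ _⟩
  zero_mem' := ⟨0, fun i j => zero_mem _, rho_zero.symm⟩
  smul_mem' := by
    rintro k _ ⟨μ, h1, rfl⟩
    refine ⟨k • μ, fun i j => ?_, LinearMap.ext fun v => by
      simp only [LinearMap.smul_apply, rho_apply, smul_mulVec, Prod.smul_mk, smul_zero]⟩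
    rw [Matrix.smul_apply, Algebra.smul_def, eq_ratCast]
    exact mul_mem (SubfieldClass.ratCast_mem _ k) (h1 i j)

theorem M0_fin (hL : ¬ Module.Finite ℚ L) (q : Module.End ℚ L) :
    ∀ m ∈ M0 q, Module.Finite ℚ (LinearMap.range m) → m = 0 := by
  rintro _ ⟨μ, -, rfl⟩ h
  by_contra hne
  obtain ⟨i, j, hij⟩ : ∃ i j, μ i j ≠ 0 := by
    by_contra hc
    push Not at hc
    exact hne (by rw [show μ = 0 from Matrix.ext hc, rho_zero])
  refine hL (Module.Finite.of_injective ((rho μ).rangeRestrict ∘ₗ ι j) fun x y hxy => ?_)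
  have := congrArg (fun z : LinearMap.range (rho μ) => (z : VV L).1 i) hxy
  simpa [hij] using this

theorem hank0 {q a b : Module.End ℚ L} (ε : ℚ)
    (hab : ∀ f x, a (f * b x) = ε • a (q (f * b x) - f * q (b x))) :
    ∀ m ∈ M0 q, dg a * m * dg b ∈ FR (VV L) (VV L) := by
  rintro _ ⟨μ, h1, rfl⟩
  have : dg a * rho μ * dg b = ∑ i, ∑ j, ε • (((ι i ∘ₗ a) ∘ₗ
      (q * LinearMap.mulLeft ℚ (μ i j) - LinearMap.mulLeft ℚ (μ i j) * q) ∘ₗ (b ∘ₗ pj j) :
        VV L →ₗ[ℚ] VV L)) := by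
    simp only [map_sub, smul_sub] at hab
    refine LinearMap.ext fun v => ?_
    ext i
    · fin_cases i <;> simp [mulVec, dotProduct, Fin.sum_univ_two, hab, smul_sub]
    · simp
    · simp
  rw [this]
  exact Submodule.sum_mem _ fun i _ => Submodule.sum_mem _ fun j _ =>
    Submodule.smul_mem _ _ (FR_comp (h1 i j) _ _)

theorem rho_one : rho (!![1, 0; 0, 0] : Matrix (Fin 2) (Fin 2) L) + rho !![0, 0; 0, 1] = rho 1 := by
  rw [rho_add]; congr 1; ext i j; fin_cases i <;> fin_cases j <;> simp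

theorem one_sub_rho : (1 : Module.End ℚ (VV L)) - rho 1
    = lamL.smulRight (0, 1, 0) + lamR.smulRight (0, 0, 1) :=
  LinearMap.ext fun v => by ext i <;> simp

theorem mem_M0 (q : Module.End ℚ L) {a b c d : L} (ha : a ∈ Qf q) (hb : b ∈ Qf q) (hc : c ∈ Qf q)
    (hd : d ∈ Qf q) : rho !![a, b; c, d] ∈ M0 q :=
  ⟨_, fun i j => by fin_cases i <;> fin_cases j <;> simpa, rfl⟩

/-- the idempotent `e` -/
abbrev e0 (V : Type) [AddCommGroup V] [Module ℚ V] : Module.End ℚ (V × V) :=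
  LinearMap.inl ℚ V V ∘ₗ LinearMap.fst ℚ V V

variable (θ : (VV L × VV L) ≃ₗ[ℚ] VV L ⊗[ℚ] (VV L × VV L)) (q : Module.End ℚ L)

def core (Tr : Module.End ℚ (VV L × VV L) →ₗ[ℚ] Module.End ℚ (VV L × VV L))
    (h1 : ∀ v x l, Tr (tS θ v * x * tR θ l) = tR θ l * tS θ v * x)
    (h2 : ∀ m ∈ M0 q, Tr (tj θ m) = 0)
    (h3 : ∀ m ∈ M0 q, tj θ m ∈ fsp (LinearMap.range (tS θ)) (LinearMap.range (tR θ)) Set.univ →
      tj θ m = 0)
    (he : e0 (VV L) = tj θ (rho !![1, 0; 0, 0]) + tj θ (1 - rho 1) * tσ θ (e0 (VV L))) :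
    Core (Module.End ℚ (VV L × VV L)) where
  C := LinearMap.range (tS θ)
  Rw := LinearMap.range (tR θ)
  M := (M0 q).map (tj θ).toLinearMap
  A := (tj θ).range
  σ := tσ θ
  Tr := Tr
  τ0 := (lamL ∘ₗ LinearMap.fst ℚ _ _) ∘ₗ LinearMap.applyₗ (((0, 1, 0), 0) : VV L × VV L)
  e := e0 (VV L)
  p1 := tj θ (rho !![1, 0; 0, 0])
  p2 := tj θ (rho !![0, 0; 0, 1])
  w0 := tj θ (rho !![0, 1; 0, 0])
  w1 := tj θ (rho !![0, 0; 1, 0])
  rc := by rintro _ ⟨l, rfl⟩ _ ⟨v, rfl⟩; exact ⟨_, tR_tS θ l v⟩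
  c_nd := by
    rintro _ ⟨v, rfl⟩ h
    have hv : v ≠ 0 := fun h0 => h (by rw [h0, map_zero])
    obtain ⟨l, hl⟩ : ∃ l : Module.Dual ℚ (VV L), l v ≠ 0 := by
      by_contra hc
      push Not at hc
      exact hv ((Module.forall_dual_apply_eq_zero_iff ℚ v).mp hc)
    exact ⟨_, ⟨(l v)⁻¹ • l, rfl⟩, by rw [tR_tS]; simp [hl]⟩
  r_nd := by
    rintro _ ⟨l, rfl⟩ h
    obtain ⟨v, hv⟩ : ∃ v, l v ≠ 0 := by
      by_contra hc
      push Not at hc
      exact h (by rw [show l = 0 from LinearMap.ext hc, map_zero])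
    exact ⟨_, ⟨(l v)⁻¹ • v, rfl⟩, by rw [tR_tS]; simp [hv]⟩
  ac := by rintro _ ⟨φ, rfl⟩ _ ⟨v, rfl⟩; exact ⟨_, (tj_tS θ φ v).symm⟩
  ra := by rintro _ ⟨φ, rfl⟩ _ ⟨l, rfl⟩; exact ⟨_, (tR_tj θ l φ).symm⟩
  crA := by rintro _ ⟨v, rfl⟩ _ ⟨l, rfl⟩; exact ⟨_, (tS_tR θ v l).symm⟩
  σc := by rintro x _ ⟨v, rfl⟩; exact tσ_tS θ x v
  rσ := by rintro x _ ⟨l, rfl⟩; exact tR_tσ θ l x
  aσ := by rintro x _ ⟨φ, rfl⟩; exact tj_tσ θ φ x
  MA := by rintro _ ⟨m, -, rfl⟩; exact ⟨m, rfl⟩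
  Mmul := by
    rintro _ ⟨_, ⟨μ, hμ, rfl⟩, rfl⟩ _ ⟨_, ⟨ν, hν, rfl⟩, rfl⟩
    refine ⟨rho (μ * ν), ⟨_, fun i j => ?_, rfl⟩, by simp [← rho_mul]⟩
    rw [Matrix.mul_apply]
    exact sum_mem fun k _ => mul_mem (hμ _ _) (hν _ _)
  Mur := by
    rintro _ ⟨_, ⟨μ, hμ, rfl⟩, rfl⟩
    let f := (Qf q).subtype.mapMatrix (m := Fin 2)
    obtain ⟨u, v, a1, a2, a3⟩ := ur_matrix (F := Qf q) (Matrix.of fun i j => ⟨μ i j, hμ i j⟩)
    have b1 := congrArg f a1
    have b2 := congrArg f a2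
    have b3 := congrArg f a3
    have b4 : f (Matrix.of fun i j => ⟨μ i j, hμ i j⟩) = μ := rfl
    simp only [map_mul, map_one, b4] at b1 b2 b3
    refine ⟨tj θ (rho (f u)), ⟨_, ⟨_, fun i j => (u i j).2, rfl⟩, rfl⟩,
      tj θ (rho (f v)), ⟨_, ⟨_, fun i j => (v i j).2, rfl⟩, rfl⟩, ?_, ?_, ?_⟩
    · rw [← map_mul, rho_mul, b1, ← map_add, rho_one]
    · rw [← map_mul, rho_mul, b2, ← map_add, rho_one]
    · simp only [AlgHom.toLinearMap_apply, ← map_mul, rho_mul, b3]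
  w0M := ⟨_, mem_M0 q (zero_mem _) (one_mem _) (zero_mem _) (zero_mem _), rfl⟩
  w1M := ⟨_, mem_M0 q (zero_mem _) (zero_mem _) (one_mem _) (zero_mem _), rfl⟩
  pM := by
    rintro _ ⟨_, ⟨μ, -, rfl⟩, rfl⟩
    simp only [AlgHom.toLinearMap_apply, ← map_add, rho_one, ← map_mul, rho_mul, one_mul]
  Mp := by
    rintro _ ⟨_, ⟨μ, -, rfl⟩, rfl⟩
    simp only [AlgHom.toLinearMap_apply, ← map_add, rho_one, ← map_mul, rho_mul, mul_one]
  w01 := by
    rw [← map_mul, rho_mul, Matrix.mul_fin_two]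
    simp only [mul_zero, zero_mul, mul_one, add_zero, zero_add]
  w10 := by
    rw [← map_mul, rho_mul, Matrix.mul_fin_two]
    simp only [mul_zero, zero_mul, mul_one, add_zero, zero_add]
  p1w0 := by
    rw [← map_mul, rho_mul, Matrix.mul_fin_two]
    simp only [mul_zero, zero_mul, mul_one, add_zero, zero_add]
  p2w1 := by
    rw [← map_mul, rho_mul, Matrix.mul_fin_two]
    simp only [mul_zero, zero_mul, mul_one, add_zero, zero_add]
  p12 := by
    rw [← map_mul, rho_mul, ← map_zero (tj θ), ← rho_zero]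
    congr 2; ext i j; fin_cases i <;> fin_cases j <;> simp
  p21 := by
    rw [← map_mul, rho_mul, ← map_zero (tj θ), ← rho_zero]
    congr 2; ext i j; fin_cases i <;> fin_cases j <;> simp
  ee := LinearMap.ext fun v => rfl
  he := by rw [← map_add, rho_one, ← map_one (tj θ), ← map_sub]; exact he
  kfin := by
    rw [← map_add, rho_one, ← map_one (tj θ), ← map_sub, map_one, one_sub_rho]
    exact tj_FR θ (add_mem (Submodule.subset_span ⟨_, _, rfl⟩) (Submodule.subset_span ⟨_, _, rfl⟩))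
  Tr_fin := by rintro _ ⟨v, rfl⟩ x _ ⟨l, rfl⟩; exact h1 v x l
  Tr_M := by rintro _ ⟨m, hm, rfl⟩; exact h2 m hm
  Mfin := by rintro _ ⟨m, hm, rfl⟩; exact h3 m hm
  nd := fun z h => t_nd θ z fun l v => h _ ⟨l, rfl⟩ _ ⟨v, rfl⟩
  τe := by simp
  τ1 := by simp

variable {θ q} {Tr : Module.End ℚ (VV L × VV L) →ₗ[ℚ] Module.End ℚ (VV L × VV L)}
  {h1 : ∀ v x l, Tr (tS θ v * x * tR θ l) = tR θ l * tS θ v * x}
  {h2 : ∀ m ∈ M0 q, Tr (tj θ m) = 0}
  {h3 : ∀ m ∈ M0 q, tj θ m ∈ fsp (LinearMap.range (tS θ)) (LinearMap.range (tR θ)) Set.univ →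
      tj θ m = 0}
  {he : e0 (VV L) = tj θ (rho !![1, 0; 0, 0]) + tj θ (1 - rho 1) * tσ θ (e0 (VV L))}

theorem dg_mul (a b : Module.End ℚ L) : dg a * dg b = dg (a * b) := LinearMap.ext fun _ => rfl

theorem dg_zero : dg (0 : Module.End ℚ L) = 0 := LinearMap.ext fun _ => rfl

theorem dg_sum (q : Module.End ℚ L) : dg q + dg (1 - q) = rho 1 :=
  LinearMap.ext fun v => by ext i <;> simp

theorem dg_w0 (a : Module.End ℚ L) : dg a * rho !![0, 1; 0, 0] = rho !![0, 1; 0, 0] * dg a :=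
  LinearMap.ext fun v => by
    ext i
    · fin_cases i <;> simp [vecHead, vecTail]
    · simp
    · simp

theorem dg_w1 (a : Module.End ℚ L) : dg a * rho !![0, 0; 1, 0] = rho !![0, 0; 1, 0] * dg a :=
  LinearMap.ext fun v => by
    ext i
    · fin_cases i <;> simp [vecHead, vecTail]
    · simp
    · simp

def pol (qq : q * q = q) : Pol (core θ q Tr h1 h2 h3 he) where
  π := tj θ (dg q)
  π' := tj θ (dg (1 - q))
  cl := tS θ (0, 1, 0)
  rl := tR θ lamL
  cr := tS θ (0, 0, 1)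
  rr := tR θ lamR
  πA := ⟨_, rfl⟩
  π'A := ⟨_, rfl⟩
  clC := ⟨_, rfl⟩
  crC := ⟨_, rfl⟩
  rlR := ⟨_, rfl⟩
  rrR := ⟨_, rfl⟩
  ll := by rw [tR_tS]; simp
  rr1 := by rw [tR_tS]; simp
  lr := by rw [tR_tS]; simp
  rl0 := by rw [tR_tS]; simp
  ππ := by rw [← map_mul, dg_mul, qq]
  π'π' := by rw [← map_mul, dg_mul, mul_sub, mul_one, sub_mul, one_mul, qq, sub_self, sub_zero]
  ππ' := by rw [← map_mul, dg_mul, mul_sub, mul_one, qq, sub_self, dg_zero, map_zero]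
  π'π := by rw [← map_mul, dg_mul, sub_mul, one_mul, qq, sub_self, dg_zero, map_zero]
  sum1 := by
    change _ = tj θ _ + tj θ _
    rw [← map_add, ← map_add, dg_sum, rho_one]
  sum2 := by
    rw [tS_tR, tS_tR, ← map_add, ← map_add, ← map_add, dg_sum, add_assoc, ← one_sub_rho,
      add_sub_cancel, map_one]
  πw0 := by change _ * tj θ _ = tj θ _ * _; rw [← map_mul, ← map_mul, dg_w0]
  πw1 := by change _ * tj θ _ = tj θ _ * _; rw [← map_mul, ← map_mul, dg_w1]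
  π'w0 := by change _ * tj θ _ = tj θ _ * _; rw [← map_mul, ← map_mul, dg_w0]
  π'w1 := by change _ * tj θ _ = tj θ _ * _; rw [← map_mul, ← map_mul, dg_w1]
  hank := by
    rintro _ ⟨m, hm, rfl⟩
    have hq : ∀ x, q (q x) = q x := fun x => LinearMap.congr_fun qq x
    have := tj_FR θ (hank0 (q := q) (a := q) (b := 1 - q) 1 (fun f x => by simp [hq]) m hm)
    rwa [map_mul, map_mul] at this
  hank' := by
    rintro _ ⟨m, hm, rfl⟩
    have hq : ∀ x, q (q x) = q x := fun x => LinearMap.congr_fun qq x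
    have := tj_FR θ (hank0 (q := q) (a := 1 - q) (b := q) (-1) (fun f x => by simp [hq]) m hm)
    rwa [map_mul, map_mul] at this

theorem mkShift (P : Pol (core θ q Tr h1 h2 h3 he)) {a b : Module.End ℚ L}
    (hπ : P.π = tj θ (dg a)) (hπ' : P.π' = tj θ (dg b)) {s s' u0 u1 : L}
    {d0 d1 : Module.Dual ℚ L} (hs : s ∈ Qf q) (hs' : s' ∈ Qf q) (ss : s * s' = 1)
    (k3 : ∀ z, a (s * b z) = d1 z • u0) (k4 : ∀ z, b (s * a z) = 0)
    (k5 : ∀ z, b (s' * a z) = d0 z • u1) (k6 : ∀ z, a (s' * b z) = 0)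
    (k7 : d0 u0 = 1) (k8 : d1 u1 = 1) (k9 : a u0 = u0) (k10 : b u1 = u1)
    (k11 : ∀ z, d0 (a z) = d0 z) (k12 : ∀ z, d1 (b z) = d1 z) (k13 : s * u1 = u0)
    (k14 : s' * u0 = u1) (k15 : ∀ z, d0 (s * z) = d1 z) (k16 : ∀ z, d1 (s' * z) = d0 z) :
    Nonempty (Shift P) := by
  have ss' : s' * s = 1 := by rw [mul_comm, ss]
  refine ⟨{
    ma := tj θ (rho !![0, s'; 0, 0])
    mb := tj θ (rho !![0, 0; s, 0])
    x := tS θ (ι 1 u0)
    y := tS θ (ι 0 u1)
    ξ := tR θ (d0 ∘ₗ pj 1)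
    η := tR θ (d1 ∘ₗ pj 0)
    maM := ⟨_, mem_M0 q (zero_mem _) hs' (zero_mem _) (zero_mem _), rfl⟩
    mbM := ⟨_, mem_M0 q (zero_mem _) (zero_mem _) hs (zero_mem _), rfl⟩
    xC := ⟨_, rfl⟩
    yC := ⟨_, rfl⟩
    ξR := ⟨_, rfl⟩
    ηR := ⟨_, rfl⟩
    ab := ?_, ba := ?_, p1a := ?_, p2b := ?_, h3 := ?_, h4 := ?_, h5 := ?_, h6 := ?_, ξx := ?_,
    ηy := ?_, πx := ?_, π'y := ?_, ξπ := ?_, ηπ' := ?_, by' := ?_, ax := ?_, ξb := ?_, ηa := ?_ }⟩
  · change _ = tj θ _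
    rw [← map_mul, rho_mul, Matrix.mul_fin_two]
    simp only [mul_zero, zero_mul, ss', add_zero, zero_add]
  · change _ = tj θ _
    rw [← map_mul, rho_mul, Matrix.mul_fin_two]
    simp only [mul_zero, zero_mul, ss, add_zero, zero_add]
  · change tj θ _ * _ = _
    rw [← map_mul, rho_mul, Matrix.mul_fin_two]
    simp only [mul_zero, zero_mul, one_mul, add_zero, zero_add]
  · change tj θ _ * _ = _
    rw [← map_mul, rho_mul, Matrix.mul_fin_two]
    simp only [mul_zero, zero_mul, one_mul, add_zero, zero_add]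
  · rw [hπ, hπ', tS_tR, ← map_mul, ← map_mul]
    congr 1
    refine LinearMap.ext fun v => ?_
    ext i
    · fin_cases i <;> simp [k3, vecHead, vecTail]
    · simp
    · simp
  · rw [hπ, hπ', ← map_mul, ← map_mul, ← map_zero (tj θ)]
    congr 1
    refine LinearMap.ext fun v => ?_
    ext i
    · fin_cases i <;> simp [k4, vecHead, vecTail]
    · simp
    · simp
  · rw [hπ, hπ', tS_tR, ← map_mul, ← map_mul]
    congr 1
    refine LinearMap.ext fun v => ?_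
    ext i
    · fin_cases i <;> simp [k5, vecHead, vecTail]
    · simp
    · simp
  · rw [hπ, hπ', ← map_mul, ← map_mul, ← map_zero (tj θ)]
    congr 1
    refine LinearMap.ext fun v => ?_
    ext i
    · fin_cases i <;> simp [k6, vecHead, vecTail]
    · simp
    · simp
  · rw [tR_tS]; simp [k7, vecHead, vecTail]
  · rw [tR_tS]; simp [k8, vecHead, vecTail]
  · rw [hπ, tj_tS]
    congr 1
    ext i
    · fin_cases i <;> simp [k9, vecHead, vecTail]
    · simp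
    · simp
  · rw [hπ', tj_tS]
    congr 1
    ext i
    · fin_cases i <;> simp [k10, vecHead, vecTail]
    · simp
    · simp
  · rw [hπ, tR_tj]
    congr 1
    exact LinearMap.ext fun v => by simp [k11, vecHead, vecTail]
  · rw [hπ', tR_tj]
    congr 1
    exact LinearMap.ext fun v => by simp [k12, vecHead, vecTail]
  · rw [tj_tS]
    congr 1
    ext i
    · fin_cases i <;> simp [mul_comm u1, k13, vecHead, vecTail]
    · simp
    · simp
  · rw [tj_tS]
    congr 1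
    ext i
    · fin_cases i <;> simp [mul_comm u0, k14, vecHead, vecTail]
    · simp
    · simp
  · rw [tR_tj]
    congr 1
    exact LinearMap.ext fun v => by simp [k15, vecHead, vecTail]
  · rw [tR_tj]
    congr 1
    exact LinearMap.ext fun v => by simp [k16, vecHead, vecTail]

theorem main_of_field (q : Module.End ℚ L) (t : L) (c0 c1 : Module.Dual ℚ L) (t0 : t ≠ 0)
    (qq : ∀ x, q (q x) = q x) (qt : ∀ x, q (t * x) = t * q x + c1 x • (1 : L))
    (ct : ∀ x, c0 (t * x) = c1 x) (c0q : ∀ x, c0 (q x) = c0 x) (c1q : ∀ x, c1 (q x) = 0)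
    (q1 : q 1 = 1) (c01 : c0 1 = 1) :
    ∃ (B : Type) (_ : Ring B) (_ : Algebra ℚ B) (c : Core B) (P : Pol c),
      Nonempty (Shift P) ∧ Nonempty (Shift P.swap) := by
  have ct' : ∀ x, c1 (t⁻¹ * x) = c0 x := fun x => by rw [← ct, mul_inv_cancel_left₀ t0]
  have qt' : ∀ x, q (t⁻¹ * x) = t⁻¹ * q x - c0 x • t⁻¹ := fun x => by
    have := qt (t⁻¹ * x)
    rw [mul_inv_cancel_left₀ t0, ct'] at this
    rw [this, mul_add, inv_mul_cancel_left₀ t0, mul_smul_comm, mul_one, add_sub_cancel_right]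
  have c1t : c1 t⁻¹ = 1 := by simpa [c01] using ct' 1
  have qti : q t⁻¹ = 0 := by simpa [c01, q1] using qt' 1
  have hL : ¬ Module.Finite ℚ L := by
    intro hL
    have h1 := LinearMap.trace_mul_comm ℚ (LinearMap.mulLeft ℚ t⁻¹) (q * LinearMap.mulLeft ℚ t)
    have h2 : LinearMap.mulLeft ℚ t⁻¹ * (q * LinearMap.mulLeft ℚ t) = q + c1.smulRight t⁻¹ := by
      ext x; simp [qt, mul_add, t0, Rat.smul_def]; ring
    have h3 : q * LinearMap.mulLeft ℚ t * LinearMap.mulLeft ℚ t⁻¹ = q := by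
      ext x; simp [t0]
    rw [h2, h3, map_add, LinearMap.trace_smulRight, c1t] at h1
    simp at h1
  have hV : ¬ Module.Finite ℚ (VV L) := fun h =>
    hL (Module.Finite.of_injective (ι 0 : L →ₗ[ℚ] VV L) fun x y hxy => by
      simpa using congrArg (pj 0) hxy)
  have e1 : (!![1, 0; 0, 0] : Matrix (Fin 2) (Fin 2) L) * !![1, 0; 0, 0] = !![1, 0; 0, 0] := by
    rw [Matrix.mul_fin_two]; simp only [mul_zero, zero_mul, one_mul, add_zero]
  obtain ⟨θ, he⟩ := exists_theta hV (rho !![1, 0; 0, 0]) (1 - rho 1) (by rw [rho_mul, e1])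
    (by rw [mul_sub, mul_one, sub_mul, one_mul, rho_mul, mul_one, sub_self, sub_zero])
    (by rw [mul_sub, mul_one, rho_mul, mul_one, sub_self])
    (by rw [sub_mul, one_mul, rho_mul, one_mul, sub_self]) (0, 1, 0) lamL rfl
    (by simp [Prod.ext_iff]) (by simp)
  obtain ⟨Tr, h1, h2, h3⟩ := exists_Tr θ (M0 q) (M0_fin hL q)
  have tQ : t ∈ Qf q := by
    change _ ∈ FR L L
    refine Submodule.subset_span ⟨c1, 1, ?_⟩
    ext x; simp [qt]
  refine ⟨_, inferInstance, inferInstance, core θ q Tr h1 h2 h3 he, pol (LinearMap.ext qq),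
    mkShift _ (a := q) (b := 1 - q) rfl rfl (s := t) (s' := t⁻¹) (u0 := 1) (u1 := t⁻¹) (d0 := c0)
      (d1 := c1) tQ (inv_mem tQ) (mul_inv_cancel₀ t0) ?_ ?_ ?_ ?_ c01 c1t q1 ?_ c0q ?_
      (mul_inv_cancel₀ t0) (mul_one _) ct ct',
    mkShift _ (a := 1 - q) (b := q) rfl rfl (s := t⁻¹) (s' := t) (u0 := t⁻¹) (u1 := 1) (d0 := c1)
      (d1 := c0) (inv_mem tQ) tQ (inv_mul_cancel₀ t0) ?_ ?_ ?_ ?_ c1t c01 ?_ q1 ?_ c0q
      (mul_one _) (mul_inv_cancel₀ t0) ct' ct⟩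
  all_goals
    try intro z
    simp [qt, qt', qq, c0q, c1q, qti]

end

end Pool.Agent.MP_9ea0f9_al.H6
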