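import Pool.Agent.MP_9ea0f9_al.H6.K2

set_option autoImplicit false

/-! The Laurent series field over the rationals supplies the Toeplitz data. -/

namespace Pool.Agent.MP_9ea0f9_al.H6

theorem frame_of_add {L : Type} [Field L] [CharZero L] (q : L →+ L) (t : L) (c0 c1 : L →+ ℚ)
    (t0 : t ≠ 0) (qq : ∀ x, q (q x) = q x) (qt : ∀ x, q (t * x) = t * q x + (c1 x : L))
    (ct : ∀ x, c0 (t * x) = c1 x) (c0q : ∀ x, c0 (q x) = c0 x) (c1q : ∀ x, c1 (q x) = 0)
    (q1 : q 1 = 1) (c01 : c0 1 = 1) :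
    ∃ (B : Type) (_ : Ring B) (_ : Algebra ℚ B) (c : Core B) (P : Pol c),
      Nonempty (Shift P) ∧ Nonempty (Shift P.swap) :=
  main_of_field q.toRatLinearMap t c0.toRatLinearMap c1.toRatLinearMap t0 qq
    (fun x => by simpa [Rat.smul_def] using qt x) ct c0q c1q q1 c01

/-- truncation to nonnegative exponents -/
noncomputable def trunc0 : HahnSeries ℤ ℚ →+ HahnSeries ℤ ℚ where
  toFun x := ⟨fun n => if 0 ≤ n then x.coeff n else 0, x.isPWO_support'.mono fun n hn => by
    simp only [Function.mem_support] at hn ⊢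
    intro h; apply hn; simp [h]⟩
  map_zero' := by ext n; simp
  map_add' x y := by ext n; simp only [HahnSeries.coeff_add]; split_ifs <;> simp

theorem trunc0_coeff (x : HahnSeries ℤ ℚ) (n : ℤ) :
    (trunc0 x).coeff n = if 0 ≤ n then x.coeff n else 0 := rfl

/-- a coefficient -/
def cf (n : ℤ) : HahnSeries ℤ ℚ →+ ℚ where
  toFun x := x.coeff n
  map_zero' := rfl
  map_add' _ _ := rfl

theorem cf_apply (n : ℤ) (x : HahnSeries ℤ ℚ) : cf n x = x.coeff n := rfl

theorem exists_frame : ∃ (B : Type) (_ : Ring B) (_ : Algebra ℚ B) (c : Core B) (P : Pol c),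
    Nonempty (Shift P) ∧ Nonempty (Shift P.swap) := by
  have inst : CharZero (HahnSeries ℤ ℚ) :=
    (RingHom.charZero_iff (HahnSeries.C (Γ := ℤ) (R := ℚ)).injective).mp inferInstance
  refine frame_of_add trunc0 (HahnSeries.single 1 1) (cf 0) (cf (-1))
    (HahnSeries.single_ne_zero one_ne_zero) ?_ ?_ ?_ ?_ ?_ ?_ ?_
  · intro x; ext n; simp only [trunc0_coeff]; split_ifs <;> rfl
  · intro x
    rw [← eq_ratCast (HahnSeries.C (Γ := ℤ) (R := ℚ))]
    ext n
    simp only [trunc0_coeff, HahnSeries.coeff_add, HahnSeries.coeff_single_mul, one_mul,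
      HahnSeries.C_apply, HahnSeries.coeff_single, cf_apply]
    by_cases h : n = 0
    · subst h; simp
    · have : 0 ≤ n ↔ 0 ≤ n - 1 := by omega
      simp only [this, h, if_false, add_zero]
  · intro x; simp [cf_apply, HahnSeries.coeff_single_mul]
  · intro x; simp [cf_apply, trunc0_coeff]
  · intro x; simp [cf_apply, trunc0_coeff]
  · ext n
    simp only [trunc0_coeff, HahnSeries.coeff_one]
    split_ifs <;> first | rfl | omega
  · simp [cf_apply]

theorem main :
    ∃ (R : Type) (_ : Ring R),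
      (∀ a : R, ∃ x : R, a * x * a = a) ∧
      (∀ (S : Type) [Ring S] (f : R →+* S), Function.Surjective f →
        (∀ a b : S, (∀ r : S, a * r * b = 0) → a = 0 ∨ b = 0) →
        ∀ a : S, ∃ u : Sˣ, a * (u : S) * a = a) ∧
      (∀ (S : Type) [Ring S] (f : R →+* S), Function.Surjective f →
        ∀ x y : S, x * y = 1 → y * x = 1) ∧
      (∃ a : R, ∀ u : Rˣ, a * (u : R) * a ≠ a) ∧
      ∀ g : R, g * g = g → g ≠ 0 → ∃ a : R, g * a * g = a ∧
        ∀ u v : R, g * u * g = u → g * v * g = v → u * v = g → v * u = g → a * u * a ≠ a := by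
  obtain ⟨B, _, _, c, P, ⟨s⟩, ⟨s'⟩⟩ := exists_frame
  exact main_of_frame s s'

end Pool.Agent.MP_9ea0f9_al.H6
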